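import Pool.Agent.Morse284.WordLen

/-!
More on discrete Morse paths: reversal of test paths, geodesics close to Morse paths.
-/

namespace Morse284

variable {G : Type} [Group G]

namespace FGen

/-- Morse property for test paths with end points in any order -/
def Mor2 (E : FGen G) (N : ℕ → ℕ) (p : ℕ → G) (n : ℕ) : Prop :=
  ∀ K m r, E.Test K m r → ∀ i j, i ≤ n → j ≤ n → r 0 = p i → r m = p j →
    ∀ t, t ≤ m → ∃ s, s ≤ n ∧ E.dd (r t) (p s) ≤ N K

variable {E : FGen G}

theorem Test.rev {K m : ℕ} {r : ℕ → G} (h : E.Test K m r) : E.Test K m (fun t => r (m - t)) := by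
  intro i k hik
  have h1 := h (m - (i + k)) k (by omega)
  have e : m - (i + k) + k = m - i := by omega
  rw [e] at h1
  simp only
  rw [E.dd_comm]
  exact h1

theorem Mor.mor2 {N : ℕ → ℕ} {p : ℕ → G} {n : ℕ} (h : E.Mor N p 0 n) : E.Mor2 N p n := by
  intro K m r hr i j hi hj h0 hm t ht
  rcases le_total i j with hij | hij
  · obtain ⟨s, _, h2, h3⟩ := h K m r hr i j (Nat.zero_le _) hij hj h0 hm t ht
    exact ⟨s, h2, h3⟩
  · obtain ⟨s, _, h2, h3⟩ := h K m (fun t => r (m - t)) hr.rev j i (Nat.zero_le _) hij hi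
      (by simp only [Nat.sub_zero]; exact hm) (by simp only [Nat.sub_self]; exact h0) (m - t)
      (by omega)
    have e : m - (m - t) = t := by omega
    simp only [e] at h3
    exact ⟨s, h2, h3⟩

theorem Mor2.mul_left {N : ℕ → ℕ} {p : ℕ → G} {n : ℕ} (h : E.Mor2 N p n) (x : G) :
    E.Mor2 N (fun t => x * p t) n := by
  intro K m r hr i j hi hj h0 hm t ht
  have hr' : E.Test K m (fun t => x⁻¹ * r t) := by
    intro i k hik
    have h1 := hr i k hik
    simp only
    rw [E.dd_mul_left]; exact h1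
  obtain ⟨s, h2, h3⟩ := h K m (fun t => x⁻¹ * r t) hr' i j hi hj
    (by simp only [h0]; group) (by simp only [hm]; group) t ht
  refine ⟨s, h2, ?_⟩
  have := E.dd_mul_left x (x⁻¹ * r t) (p s)
  rw [mul_inv_cancel_left] at this
  simp only
  rw [this]; exact h3

theorem Mor2.rev {N : ℕ → ℕ} {p : ℕ → G} {n : ℕ} (h : E.Mor2 N p n) :
    E.Mor2 N (fun t => p (n - t)) n := by
  intro K m r hr i j hi hj h0 hm t ht
  obtain ⟨s, h2, h3⟩ := h K m r hr (n - i) (n - j) (by omega) (by omega) h0 hm t ht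
  refine ⟨n - s, by omega, ?_⟩
  have e : n - (n - s) = s := by omega
  simp only [e]; exact h3

/-- changing the end points of a test path -/
theorem Test.change_ends {K m R : ℕ} {r r' : ℕ → G} (h : E.Test K m r)
    (hc : ∀ t, t ≤ m → E.dd (r t) (r' t) ≤ R) : E.Test (K + 2 * R + K * (2 * R)) m r' := by
  intro i k hik
  obtain ⟨h1, h2⟩ := h i k hik
  have h3 := hc i (by omega)
  have h4 := hc (i + k) hik
  have h5 := E.dd_tri (r' i) (r i) (r' (i + k))
  have h6 := E.dd_tri (r i) (r (i + k)) (r' (i + k))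
  have h7 := E.dd_tri (r i) (r' i) (r (i + k))
  have h8 := E.dd_tri (r' i) (r' (i + k)) (r (i + k))
  rw [E.dd_comm (r' i) (r i)] at h5
  rw [E.dd_comm (r' (i + k)) (r (i + k))] at h8
  constructor
  · nlinarith [Nat.zero_le (R * k), Nat.zero_le (K * R * k), Nat.zero_le (K * R)]
  · have h9 : E.dd (r i) (r (i + k)) ≤ E.dd (r' i) (r' (i + k)) + 2 * R := by omega
    have h10 : K * E.dd (r i) (r (i + k)) ≤ K * (E.dd (r' i) (r' (i + k)) + 2 * R) :=
      Nat.mul_le_mul_left _ h9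
    nlinarith [Nat.zero_le (R * E.dd (r' i) (r' (i + k))),
      Nat.zero_le (K * R * E.dd (r' i) (r' (i + k)))]

/-- the gauge of a geodesic close to a Morse path -/
def tsN (K : ℕ) (N : ℕ → ℕ) (K' : ℕ) : ℕ :=
  N (K' + 2 * N 1 + K' * (2 * N 1)) + (K * (2 * N 1 + 1) + K + N 1)

/-- a geodesic joining two points of a Morse quasi-geodesic is Morse -/
theorem geo_mor {K : ℕ} {N : ℕ → ℕ} {p α : ℕ → G} {n l : ℕ} (hp : E.Unit1 p)
    (hq : E.QG K p 0 n) (hM : E.Mor N p 0 n) (hα : E.Test 1 l α)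
    (hα1 : ∀ t, t < l → E.dd (α t) (α (t + 1)) ≤ 1) (h0 : α 0 = p 0)
    (hl : α l = p n) : E.Mor2 (tsN K N) α l := by
  classical
  have hM2 := hM.mor2
  have hclose : ∀ t, t ≤ l → ∃ s, s ≤ n ∧ E.dd (α t) (p s) ≤ N 1 := fun t ht =>
    hM2 1 l α hα 0 n (Nat.zero_le _) le_rfl h0 hl t ht
  have hback : ∀ s, s ≤ n → ∃ t, t ≤ l ∧ E.dd (p s) (α t) ≤ K * (2 * N 1 + 1) + K + N 1 := by
    intro s hs
    let P : ℕ → Prop := fun t => ∃ s', s' ≤ s ∧ E.dd (α t) (p s') ≤ N 1
    have hP0 : P 0 := ⟨0, Nat.zero_le _, by rw [h0, E.dd_self]; exact Nat.zero_le _⟩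
    obtain ⟨t, htl, ⟨s', hs', hts'⟩, hmax⟩ : ∃ t, t ≤ l ∧ P t ∧ ∀ t', t < t' → t' ≤ l → ¬ P t' :=
      ⟨Nat.findGreatest P l, Nat.findGreatest_le _,
        Nat.findGreatest_spec (P := P) (m := 0) (Nat.zero_le _) hP0,
        fun t' h1 h2 => Nat.findGreatest_is_greatest h1 h2⟩
    refine ⟨t, htl, ?_⟩
    have key : ∀ s'', s ≤ s'' → s'' ≤ n → E.dd (p s') (p s'') ≤ 2 * N 1 + 1 →
        E.dd (p s) (α t) ≤ K * (2 * N 1 + 1) + K + N 1 := by
      intro s'' h1 h2 h3
      have h4 := hq s' (s'' - s') (Nat.zero_le _) (by omega)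
      have e : s' + (s'' - s') = s'' := by omega
      rw [e] at h4
      have h5 : K * E.dd (p s') (p s'') ≤ K * (2 * N 1 + 1) := Nat.mul_le_mul_left _ h3
      have h6 := hp.dd_le' hs'
      have h7 := E.dd_tri (p s) (p s') (α t)
      rw [E.dd_comm (p s) (p s'), E.dd_comm (p s') (α t)] at h7
      omega
    rcases Nat.lt_or_eq_of_le htl with hlt | heq
    · obtain ⟨s'', h1, h2⟩ := hclose (t + 1) (by omega)
      have h3 : s < s'' := by
        by_contra h
        exact hmax (t + 1) (by omega) (by omega) ⟨s'', by omega, h2⟩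
      apply key s'' h3.le h1
      have h4 := E.dd_tri (p s') (α t) (p s'')
      have h5 := E.dd_tri (α t) (α (t + 1)) (p s'')
      have h6 := hα1 t hlt
      rw [E.dd_comm (p s') (α t)] at h4
      omega
    · apply key n hs le_rfl
      rw [← hl, ← heq, E.dd_comm]
      omega
  intro K' m r hr i j hi hj hr0 hrm t ht
  obtain ⟨si, hsi1, hsi2⟩ := hclose i hi
  obtain ⟨sj, hsj1, hsj2⟩ := hclose j hj
  rcases Nat.eq_zero_or_pos m with hm0 | hm0
  · have : t = 0 := by omega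
    refine ⟨i, hi, ?_⟩
    rw [this, hr0, E.dd_self]; exact Nat.zero_le _
  by_cases ht0 : t = 0
  · refine ⟨i, hi, ?_⟩
    rw [ht0, hr0, E.dd_self]; exact Nat.zero_le _
  by_cases htm : t = m
  · refine ⟨j, hj, ?_⟩
    rw [htm, hrm, E.dd_self]; exact Nat.zero_le _
  let r' : ℕ → G := fun t => if t = 0 then p si else if t = m then p sj else r t
  have hr'c : ∀ t, t ≤ m → E.dd (r t) (r' t) ≤ N 1 := by
    intro t _
    by_cases h1 : t = 0
    · simp only [r', h1, if_true]; rw [hr0]; exact hsi2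
    · by_cases h2 : t = m
      · simp only [r', if_neg h1, h2, if_true]
        rw [if_neg (by omega), hrm]; exact hsj2
      · simp only [r', if_neg h1, if_neg h2]
        rw [E.dd_self]; exact Nat.zero_le _
  obtain ⟨s, hs1, hs2⟩ := hM2 _ m r' (hr.change_ends hr'c) si sj hsi1 hsj1 (by simp [r'])
    (by simp only [r', if_true]; rw [if_neg (by omega)]) t ht
  have e : r' t = r t := by simp only [r', if_neg ht0, if_neg htm]
  rw [e] at hs2
  obtain ⟨t', ht1, ht2⟩ := hback s hs1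
  refine ⟨t', ht1, ?_⟩
  have := E.dd_tri (r t) (p s) (α t')
  rw [tsN]
  omega

end FGen

end Morse284
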