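import Pool.Agent.Morse284.LemE2
import Pool.Agent.Morse284.Disc2

/-!
Axes of the elements `x t` with `x` in the base group: Morse property and growth of the length of
the powers.
-/

namespace Morse284

open FreeGroup (of)

variable {G : Type} [Group G]

/-- the data with the exponent of the stable letter -/
structure DataF (E : FGen G) extends DataE E where
  ψ : G → ℤ
  ψ_mul : ∀ g h, ψ (g * h) = ψ g + ψ h
  ψt : ψ t = 1
  ψQ : ∀ q ∈ Q, ψ q = 0

namespace DataF

variable {E : FGen G} (D : DataF E)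

theorem ψ_one : D.ψ 1 = 0 := D.ψQ 1 (one_mem _)

theorem ψ_inv (g : G) : D.ψ g⁻¹ = - D.ψ g := by
  have := D.ψ_mul g g⁻¹
  rw [mul_inv_cancel, ψ_one] at this; omega

theorem ψ_pow (g : G) (n : ℕ) : D.ψ (g ^ n) = n * D.ψ g := by
  induction n with
  | zero => simp [ψ_one]
  | succ n ih => rw [pow_succ, D.ψ_mul, ih]; push_cast; ring

theorem ψ_zpow (g : G) (n : ℤ) : D.ψ (g ^ n) = n * D.ψ g := by
  rcases Int.eq_nat_or_neg n with ⟨m, rfl | rfl⟩
  · rw [zpow_natCast, ψ_pow]
  · rw [zpow_neg, zpow_natCast, ψ_inv, ψ_pow]; ring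

theorem ψ_co {g h : G} (H : Co D.Q g h) : D.ψ g = D.ψ h := by
  have h1 := D.ψQ _ H
  rw [D.ψ_mul, ψ_inv] at h1
  omega

theorem ψ_le (g : G) : (D.ψ g).natAbs ≤ E.len g := by
  apply E.le_len (fun g => (D.ψ g).natAbs)
  · simp only [ψ_one]; rfl
  · intro g s hs
    simp only [D.ψ_mul]
    have h2 : (D.ψ s).natAbs ≤ 1 := by
      rcases hs with hs | hs
      · rcases D.hS s hs with h | h
        · rw [D.ψQ s h]; simp
        · rw [h, D.ψt]; simp
      · rcases D.hS _ hs with h | h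
        · have := D.ψQ _ h
          rw [ψ_inv] at this
          omega
        · have := D.ψt
          rw [← h, ψ_inv] at this
          omega
    omega

theorem ψ_xt {x : G} (hx : x ∈ D.Q) : D.ψ (x * D.t) = 1 := by
  rw [D.ψ_mul, D.ψQ x hx, D.ψt]; rfl

theorem nb_axis {x : G} (hx : x ∈ D.Q) (g0 : G) (l : ℕ) :
    NB D.Q D.t (fun i => g0 * (x * D.t) ^ i) l := by
  constructor
  · intro r _
    refine ⟨x, hx, 1, ?_⟩
    simp only [Units.val_one, zpow_one]
    rw [pow_succ]
    have e : g0 * (x * D.t) ^ r * x * D.t = g0 * ((x * D.t) ^ r * (x * D.t)) := by group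
    rw [e]; exact Co.refl _
  · intro r _ h
    have h1 := D.ψ_co h
    rw [D.ψ_mul, D.ψ_mul, D.ψ_pow, D.ψ_pow, D.ψ_xt hx] at h1
    push_cast at h1
    omega

/-- the axis path -/
def axp (x : G) (ξ : ℕ → G) (d : ℕ) (k : ℕ) : G := (x * D.t) ^ (k / (d + 1)) * ξ (k % (d + 1))

theorem axis_mor {x : G} {ξ : ℕ → G} {d ℓ : ℕ} (hξ0 : ξ 0 = 1) (hξd : ξ d = x)
    (hξ1 : ∀ i, E.dd (ξ i) (ξ (i + 1)) ≤ 1) (hξQ : ∀ i, i ≤ d → ξ i ∈ D.Q) (hℓ : 1 ≤ ℓ)
    (htw : TW1 D.Q ℓ (fun i => (x * D.t) ^ i)) :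
    ∃ (K : ℕ) (N : ℕ → ℕ), ∀ n : ℕ, E.Unit1 (D.axp x ξ d) ∧ E.QG K (D.axp x ξ d) 0 ((d + 1) * n) ∧
      E.Mor N (D.axp x ξ d) 0 ((d + 1) * n) := by
  have hx : x ∈ D.Q := by rw [← hξd]; exact hξQ d le_rfl
  obtain ⟨N, hN⟩ := D.toTreeD.mor_of d ℓ hℓ
  refine ⟨d + 1, N, ?_⟩
  intro n
  have hpos : 0 < d + 1 := by omega
  have hax : ∀ i j, j ≤ d → D.axp x ξ d ((d + 1) * i + j) = (x * D.t) ^ i * ξ j := by
    intro i j hj
    have e1 : ((d + 1) * i + j) / (d + 1) = i := by
      rw [Nat.mul_add_div hpos, Nat.div_eq_of_lt (by omega)]; simp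
    have e2 : ((d + 1) * i + j) % (d + 1) = j := by
      rw [Nat.mul_add_mod, Nat.mod_eq_of_lt (by omega)]
    rw [axp, e1, e2]
  have hU : E.Unit1 (D.axp x ξ d) := by
    intro k
    have e := Nat.div_add_mod k (d + 1)
    have hlt := Nat.mod_lt k hpos
    rw [← e]
    rw [hax _ _ (by omega)]
    rcases Nat.lt_or_ge (k % (d + 1)) d with h | h
    · rw [Nat.add_assoc, hax _ _ (by omega), E.dd_mul_left]
      exact hξ1 _
    · have h1 : k % (d + 1) = d := by omega
      have h2 : (d + 1) * (k / (d + 1)) + k % (d + 1) + 1 = (d + 1) * (k / (d + 1) + 1) + 0 := by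
        rw [h1]; ring
      rw [h2, hax _ _ (by omega), h1, hξ0, hξd, mul_one, pow_succ, E.dd_mul_left, E.dd_self_mul]
      exact E.len_gen (Or.inl D.tS)
  have hco : ∀ k, Co D.Q ((x * D.t) ^ (k / (d + 1))) (D.axp x ξ d k) := by
    intro k
    have hlt := Nat.mod_lt k hpos
    rw [Co, axp, inv_mul_cancel_left]
    exact hξQ _ (by omega)
  have hret : ∀ a b, D.toTreeD.Ret d (D.axp x ξ d) a b := by
    intro a b i k _ _ h
    have h1 := D.ψ_co (((hco i).trans h).trans (hco (i + k)).symm)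
    rw [D.ψ_pow, D.ψ_pow, D.ψ_xt hx] at h1
    have h2 : i / (d + 1) = (i + k) / (d + 1) := by
      have : ((i / (d + 1) : ℕ) : ℤ) = ((i + k) / (d + 1) : ℕ) := by omega
      exact_mod_cast this
    have e1 := Nat.div_add_mod i (d + 1)
    have e2 := Nat.div_add_mod (i + k) (d + 1)
    have l1 := Nat.mod_lt i hpos
    have l2 := Nat.mod_lt (i + k) hpos
    rw [← h2] at e2
    omega
  refine ⟨hU, TreeD.Ret.qg hU (hret _ _), ?_⟩
  apply hN _ _ _ hU (hret _ _)
  intro i j τ l _ hij _ hs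
  have hdiv : i / (d + 1) ≤ j / (d + 1) := Nat.div_le_div_right hij
  obtain ⟨hl, hcos⟩ := D.toTreeD.unique _ _ _ _
    (D.nb_axis hx ((x * D.t) ^ (i / (d + 1))) (j / (d + 1) - i / (d + 1))) hs.nb
    (by
      simp only [pow_zero, mul_one]
      exact (hco i).trans hs.co0)
    (by
      have h1 : τ l = j := hs.last
      simp only [h1]
      rw [← pow_add]
      have e : i / (d + 1) + (j / (d + 1) - i / (d + 1)) = j / (d + 1) := by omega
      rw [e]; exact hco j)
  intro r hr g hg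
  have h1 : TW1 D.Q ℓ (fun k => (x * D.t) ^ (i / (d + 1)) * (x * D.t) ^ r * (x * D.t) ^ k) :=
    htw.mul_left _
  have h2 : TW1 D.Q ℓ (fun k => D.axp x ξ d (τ (r + k))) := by
    apply h1.congr
    intro k hk
    have := hcos (r + k) (by omega)
    rw [pow_add, ← mul_assoc] at this
    exact this
  exact h2 g hg

/-- lower bound for the length of powers -/
theorem len_pow {x : G} (hx : x ∈ D.Q) {ℓ : ℕ} (hℓ : 1 ≤ ℓ)
    (htw : TW1 D.Q ℓ (fun i => (x * D.t) ^ i)) (n : ℕ) :
    n + n / ℓ ≤ E.len ((x * D.t) ^ n) := by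
  obtain ⟨α, h1, h2, h3⟩ := E.exists_path ((x * D.t) ^ n)
  obtain ⟨L, hL⟩ : ∃ L, L = E.len ((x * D.t) ^ n) := ⟨_, rfl⟩
  rw [← hL]
  have hαL : α L = (x * D.t) ^ n := h2 L (by omega)
  obtain ⟨τ, l, hs⟩ := D.toTreeD.exists_spine h3 L 0 L (by omega)
  obtain ⟨hl, hcos⟩ := D.toTreeD.unique _ _ _ _ (D.nb_axis hx 1 n) hs.nb
    (by
      have := hs.co0
      rw [h1] at this
      simp only [pow_zero, mul_one]
      exact this)
    (by
      have h4 : τ l = L := hs.last
      simp only [h4, hαL, one_mul]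
      exact Co.refl _)
  simp only [one_mul] at hcos
  subst hl
  -- in each window there is a time difference at least two
  have hwin : ∀ j, j + ℓ ≤ n → τ j + ℓ + 1 ≤ τ (j + ℓ) := by
    intro j hj
    by_contra hlt
    have hall : ∀ i, i ≤ ℓ → τ (j + i) = τ j + i := by
      intro i hi
      have h4 := hs.mono_le i j (by omega)
      have h5 := hs.mono_le (ℓ - i) (j + i) (by omega)
      have e : j + i + (ℓ - i) = j + ℓ := by omega
      rw [e] at h5
      omega
    have hα : ∀ i, i ≤ ℓ → α (τ (j + i)) = α (τ j) * D.t ^ i := by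
      intro i
      induction i with
      | zero => intro _; simp
      | succ i ih =>
        intro hi
        obtain ⟨u, hu⟩ := hs.step (j + i) (by omega)
        have e1 : τ (j + (i + 1)) = τ (j + i) + 1 := by
          rw [hall (i + 1) hi, hall i (by omega)]; rfl
        have h5 := D.ψ_co (hcos (j + i) (by omega))
        have h6 := D.ψ_co (hcos (j + (i + 1)) (by omega))
        rw [e1, hu, D.ψ_mul, D.ψ_pow, D.ψ_xt hx, D.ψ_zpow, D.ψt] at h6
        rw [D.ψ_pow, D.ψ_xt hx] at h5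
        have hu1 : (u : ℤ) = 1 := by
          push_cast at h6 h5
          linarith
        rw [e1, hu, ih (by omega), hu1, pow_succ, mul_assoc, zpow_one]
    have h4 : α (τ j) * D.e * (α (τ j))⁻¹ = 1 := by
      have h5 : TW1 D.Q ℓ (fun i => α (τ (j + i))) := by
        have h6 := htw.mul_left ((x * D.t) ^ j)
        apply h6.congr
        intro i hi
        have := hcos (j + i) (by omega)
        rw [pow_add] at this
        exact this
      apply h5
      intro i hi
      beta_reduce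
      rw [hα i hi, Co]
      have c1' : Commute D.e (D.t ^ i) := Commute.pow_right D.et i
      have e : (α (τ j) * D.t ^ i)⁻¹ * (α (τ j) * D.e * (α (τ j))⁻¹ * (α (τ j) * D.t ^ i)) =
          (D.t ^ i)⁻¹ * (D.e * D.t ^ i) := by group
      rw [e, c1'.eq, inv_mul_cancel_left]
      exact D.PQ D.eP
    have h7 : D.e = 1 := by
      have : D.e = (α (τ j))⁻¹ * (α (τ j) * D.e * (α (τ j))⁻¹) * α (τ j) := by group
      rw [this, h4]; group
    exact D.e_ne_one h7
  have hblk : ∀ q, q * ℓ ≤ n → q * ℓ + q ≤ τ (q * ℓ) := by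
    intro q
    induction q with
    | zero => intro _; simp
    | succ q ih =>
      intro hq
      rw [Nat.succ_mul] at hq ⊢
      have h4 := ih (by omega)
      have h5 := hwin (q * ℓ) hq
      omega
  have h4 := hblk (n / ℓ) (Nat.div_mul_le_self n ℓ)
  have h5 := hs.mono_le (n - n / ℓ * ℓ) (n / ℓ * ℓ) (by have := Nat.div_mul_le_self n ℓ; omega)
  have e : n / ℓ * ℓ + (n - n / ℓ * ℓ) = n := by have := Nat.div_mul_le_self n ℓ; omega
  rw [e] at h5
  have h6 : τ n = L := hs.last
  have := Nat.div_mul_le_self n ℓ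
  omega

/-- exponent of the letter `some (n, j)` -/
noncomputable def cnt (n : ℕ) (j : ℤ) : FreeGroup Al →* Multiplicative ℤ :=
  FreeGroup.lift (fun a => if a = some (n, j) then Multiplicative.ofAdd 1 else 1)

theorem cnt_Sh (n : ℕ) (j : ℤ) (w : FreeGroup Al) : cnt n j (Sh (-1) w) = cnt n (j + 1) w := by
  have : (cnt n j).comp (Sh (-1)) = cnt n (j + 1) := by
    apply FreeGroup.ext_hom
    intro a
    rw [MonoidHom.comp_apply, Sh_of]
    rcases a with _ | ⟨n', i⟩
    · simp [cnt, sh]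
    · simp only [cnt, FreeGroup.lift_apply_of, sh, Option.some.injEq, Prod.mk.injEq]
      congr 1
      apply propext
      constructor
      · rintro ⟨h1, h2⟩; exact ⟨h1, by omega⟩
      · rintro ⟨h1, h2⟩; exact ⟨h1, by omega⟩
  exact DFunLike.congr_fun this w

theorem cnt_eq_one {S : Set Al} {n : ℕ} {j : ℤ} (h : some (n, j) ∉ S) {w : FreeGroup Al}
    (hw : w ∈ FD S) : cnt n j w = 1 := by
  have : (cnt n j).comp (kill S) = 1 := by
    apply FreeGroup.ext_hom
    intro a
    rw [MonoidHom.comp_apply]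
    by_cases ha : a ∈ S
    · rw [kill_of_mem ha]
      have : a ≠ some (n, j) := fun h' => h (h' ▸ ha)
      simp [cnt, this]
    · rw [kill_of_not_mem ha, map_one, MonoidHom.one_apply]
  have h1 := DFunLike.congr_fun this w
  rw [MonoidHom.comp_apply, mem_FD.1 hw] at h1
  exact h1

/-- windows of the axis of `g_n` have trivial stabilizer -/
theorem tw_gn (n : ℕ) (hm : 1 ≤ D.m n) :
    TW1 D.Q (D.m n + 1) (fun i => (D.Φ (of (some (n, 0))) * D.t) ^ i) := by
  intro g hg
  by_contra hg1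
  set x := D.Φ (of (some (n, (0 : ℤ)))) with hx
  have hxQ : x ∈ D.Q := D.ΦQ _
  obtain ⟨p', s, q, h1, h2, h3⟩ := D.exists_valid_seq (γ := fun r => (x * D.t) ^ r * x)
    (u := fun _ => 1) (x := fun _ => x) (l := D.m n + 1) (by
      intro r _
      simp only [Units.val_one, zpow_one]
      rw [pow_succ]; group)
    (fun _ _ => hxQ) hg1 (by
      intro r hr
      have h4 := hg r hr
      have h5 : Co D.Q ((x * D.t) ^ r) ((x * D.t) ^ r * x) := by
        rw [Co, inv_mul_cancel_left]; exact hxQ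
      have h6 : Co D.Q (g * (x * D.t) ^ r) (g * ((x * D.t) ^ r * x)) := h5.mul_left g
      exact (h5.symm.trans h4).trans h6)
  have hp' : ∀ r, r + 1 < D.m n + 1 → p' (r + 1) = of (some (n, (0 : ℤ))) := by
    intro r hr
    apply D.Φinj
    have h4 := h1 r hr
    have h5 := congrArg D.ρ h4
    rw [map_mul, map_zpow, D.ρz, one_zpow, mul_one, hx, D.ρP _ (D.ΦP _), D.ρP _ (D.ΦP _)] at h5
    exact h5.symm
  have hrec : ∀ r (j : ℤ), r + 1 < D.m n + 1 → cnt n j (q (r + 1)) =
      cnt n (j + 1) (q r) * (if j = 0 then Multiplicative.ofAdd 1 else 1) := by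
    intro r j hr
    rw [h2 r hr, map_mul, hp' r hr]
    simp only [Units.val_one]
    rw [cnt_Sh]
    congr 1
    simp only [cnt, FreeGroup.lift_apply_of, Option.some.injEq, Prod.mk.injEq, true_and]
    by_cases hj : j = 0
    · rw [if_pos hj, if_pos hj.symm]
    · rw [if_neg hj, if_neg (fun h => hj h.symm)]
  have hpos : ∀ r (j : ℤ), 1 ≤ j → r < D.m n + 1 → cnt n j (q r) = cnt n (j + r) (q 0) := by
    intro r
    induction r with
    | zero => intro j _ _; simp
    | succ r ih =>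
      intro j hj hr
      rw [hrec r j hr, if_neg (by omega), mul_one, ih (j + 1) (by omega) (by omega)]
      congr 2
      push_cast; ring
  obtain ⟨M, hM⟩ : ∃ M, D.m n = M + 1 := ⟨D.m n - 1, by omega⟩
  have h4 := hrec M 0 (by omega)
  rw [if_pos rfl, zero_add, hpos M 1 le_rfl (by omega)] at h4
  have h5 : cnt n (1 + (M : ℤ)) (q 0) = 1 := by
    apply cnt_eq_one _ (h3 0 (by omega))
    intro h
    have := dm_bound h
    rw [hM] at this
    push_cast at this
    omega
  have h6 : cnt n 0 (q (M + 1)) = 1 := by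
    apply cnt_eq_one _ (h3 (M + 1) (by omega))
    intro h
    rw [dm, if_pos rfl] at h
    have := h n 0 rfl
    omega
  rw [h5, h6, one_mul] at h4
  have := congrArg Multiplicative.toAdd h4
  simp at this

end DataF

end Morse284
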