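import Pool.Agent.Morse284.LemE1

/-!
The concrete base group and the malnormal free subgroup of infinite rank.
-/

namespace Morse284

open FreeGroup (of)

/-- letters of the free group `F0` -/
abbrev X0 : Type := ℤ × Fin 3

/-- shift of the letters -/
def shX (k : ℤ) : X0 ≃ X0 where
  toFun a := (a.1 + k, a.2)
  invFun a := (a.1 - k, a.2)
  left_inv a := by ext <;> simp
  right_inv a := by ext <;> simp

theorem shX_apply (k : ℤ) (a : X0) : shX k a = (a.1 + k, a.2) := rfl

/-- shift on `F0` -/
def ShX (k : ℤ) : FreeGroup X0 →* FreeGroup X0 := FreeGroup.map (shX k)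

theorem ShX_of (k : ℤ) (a : X0) : ShX k (of a) = of (a.1 + k, a.2) := by
  simp [ShX, shX_apply]

theorem ShX_ShX (j k : ℤ) (x : FreeGroup X0) : ShX j (ShX k x) = ShX (j + k) x := by
  have : (ShX j).comp (ShX k) = ShX (j + k) := by
    apply FreeGroup.ext_hom
    intro a
    rw [MonoidHom.comp_apply, ShX_of, ShX_of, ShX_of]
    congr 2
    simp only
    ring
  exact DFunLike.congr_fun this x

theorem ShX_zero (x : FreeGroup X0) : ShX 0 x = x := by
  have : ShX 0 = MonoidHom.id _ := by
    apply FreeGroup.ext_hom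
    intro a
    rw [ShX_of]
    simp
  rw [this]; rfl

/-- the action of `ℤ` on `F0` -/
def actF : Multiplicative ℤ →* MulAut (FreeGroup X0) where
  toFun k := MonoidHom.toMulEquiv (ShX (Multiplicative.toAdd k)) (ShX (-Multiplicative.toAdd k))
    (by ext1 a; rw [MonoidHom.comp_apply, ShX_ShX, neg_add_cancel, ShX_zero]; rfl)
    (by ext1 a; rw [MonoidHom.comp_apply, ShX_ShX, add_neg_cancel, ShX_zero]; rfl)
  map_one' := by
    ext1 a
    change ShX 0 a = a
    rw [ShX_zero]
  map_mul' j k := by
    ext1 a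
    change ShX (Multiplicative.toAdd (j * k)) a = ShX _ (ShX _ a)
    rw [ShX_ShX]; rfl

theorem actF_apply (k : Multiplicative ℤ) (x : FreeGroup X0) :
    actF k x = ShX (Multiplicative.toAdd k) x := rfl

/-- the group `P` -/
abbrev P0 : Type := SemidirectProduct (FreeGroup X0) (Multiplicative ℤ) actF

section Malnormal

/-- numbering of the letters `some (n, i)` -/
def code (m : ℕ → ℕ) (x : ℕ × ℤ) : ℤ :=
  if x.2 = (m x.1 : ℤ) - 1 then (x.1 : ℤ) else -1 - (Encodable.encode x : ℤ)

theorem code_inj (m : ℕ → ℕ) : Function.Injective (code m) := by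
  rintro ⟨n, i⟩ ⟨n', i'⟩ h
  rw [code, code] at h
  simp only at h
  split_ifs at h with h1 h2 h2
  · have : n = n' := by exact_mod_cast h
    subst this
    rw [h1, h2]
  · exfalso; omega
  · exfalso; omega
  · have h3 : (Encodable.encode (n, i) : ℤ) = Encodable.encode (n', i') := by omega
    have h4 : Encodable.encode (n, i) = Encodable.encode (n', i') := by exact_mod_cast h3
    exact Encodable.encode_injective h4

/-- letter map killing the second type -/
def fA (m : ℕ → ℕ) : Al → X0
  | none => (0, 2)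
  | some x => (code m x, 0)

/-- letter map killing the first type -/
def fB (m : ℕ → ℕ) : Al → X0
  | none => (0, 2)
  | some x => (-code m x, 1)

theorem fA_inj (m : ℕ → ℕ) : Function.Injective (fA m) := by
  intro a b h
  rcases a with _ | a <;> rcases b with _ | b
  · rfl
  · simp only [fA, Prod.mk.injEq] at h
    exact absurd h.2 (by decide)
  · simp only [fA, Prod.mk.injEq] at h
    exact absurd h.2 (by decide)
  · simp only [fA, Prod.mk.injEq] at h
    rw [code_inj m h.1]

/-- the embedding before the change of basis -/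
noncomputable def iot (m : ℕ → ℕ) : FreeGroup Al →* FreeGroup X0 :=
  FreeGroup.lift (fun a => match a with
    | none => of ((0, 2) : X0)
    | some x => of ((code m x, 0) : X0) * of ((-code m x, 1) : X0))

theorem iot_none (m : ℕ → ℕ) : iot m (of none) = of ((0, 2) : X0) := by simp [iot]

theorem iot_some (m : ℕ → ℕ) (x : ℕ × ℤ) :
    iot m (of (some x)) = of ((code m x, 0) : X0) * of ((-code m x, 1) : X0) := by simp [iot]

/-- the automorphism `θ` -/
noncomputable def tht : FreeGroup X0 →* FreeGroup X0 :=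
  FreeGroup.lift (fun a => if a.2 = 0 then of ((a.1, 0) : X0) * of ((-a.1, 1) : X0) else of a)

/-- its inverse -/
noncomputable def thti : FreeGroup X0 →* FreeGroup X0 :=
  FreeGroup.lift (fun a => if a.2 = 0 then of ((a.1, 0) : X0) * (of ((-a.1, 1) : X0))⁻¹ else of a)

theorem thti_tht (x : FreeGroup X0) : thti (tht x) = x := by
  have : thti.comp tht = MonoidHom.id _ := by
    apply FreeGroup.ext_hom
    intro a
    rcases a with ⟨i, c⟩
    rw [MonoidHom.comp_apply]
    by_cases h : c = 0
    · subst h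
      simp [tht, thti]
    · simp [tht, thti, h]
  exact DFunLike.congr_fun this x

theorem tht_thti (x : FreeGroup X0) : tht (thti x) = x := by
  have : tht.comp thti = MonoidHom.id _ := by
    apply FreeGroup.ext_hom
    intro a
    rcases a with ⟨i, c⟩
    rw [MonoidHom.comp_apply]
    by_cases h : c = 0
    · subst h
      simp [tht, thti]
    · simp [tht, thti, h]
  exact DFunLike.congr_fun this x

theorem iot_eq (m : ℕ → ℕ) (x : FreeGroup Al) : iot m x = tht (FreeGroup.map (fA m) x) := by
  have : iot m = tht.comp (FreeGroup.map (fA m)) := by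
    apply FreeGroup.ext_hom
    intro a
    rw [MonoidHom.comp_apply, FreeGroup.map.of]
    rcases a with _ | a
    · rw [iot_none]
      simp [tht, fA]
    · rw [iot_some]
      simp [tht, fA]
  exact DFunLike.congr_fun this x

theorem iot_inj (m : ℕ → ℕ) : Function.Injective (iot m) := by
  intro x y h
  rw [iot_eq, iot_eq] at h
  have h1 := congrArg thti h
  rw [thti_tht, thti_tht] at h1
  exact FreeGroup.map_injective (fA_inj m) h1

theorem killB_iot (m : ℕ → ℕ) (x : FreeGroup Al) :
    kill {a : X0 | a.2 ≠ 1} (iot m x) = FreeGroup.map (fA m) x := by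
  have : (kill {a : X0 | a.2 ≠ 1}).comp (iot m) = FreeGroup.map (fA m) := by
    apply FreeGroup.ext_hom
    intro a
    rw [MonoidHom.comp_apply, FreeGroup.map.of]
    rcases a with _ | a
    · rw [iot_none, kill_of_mem (by simp)]; rfl
    · rw [iot_some, map_mul, kill_of_mem (by simp), kill_of_not_mem (by simp), mul_one]; rfl
  exact DFunLike.congr_fun this x

theorem killA_iot (m : ℕ → ℕ) (x : FreeGroup Al) :
    kill {a : X0 | a.2 ≠ 0} (iot m x) = FreeGroup.map (fB m) x := by
  have : (kill {a : X0 | a.2 ≠ 0}).comp (iot m) = FreeGroup.map (fB m) := by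
    apply FreeGroup.ext_hom
    intro a
    rw [MonoidHom.comp_apply, FreeGroup.map.of]
    rcases a with _ | a
    · rw [iot_none, kill_of_mem (by simp)]; rfl
    · rw [iot_some, map_mul, kill_of_not_mem (by simp), kill_of_mem (by simp), one_mul]; rfl
  exact DFunLike.congr_fun this x

theorem kill_ShX (c : Fin 3) (k : ℤ) (x : FreeGroup X0) :
    kill {a : X0 | a.2 ≠ c} (ShX k x) = ShX k (kill {a : X0 | a.2 ≠ c} x) := by
  have : (kill {a : X0 | a.2 ≠ c}).comp (ShX k) = (ShX k).comp (kill {a : X0 | a.2 ≠ c}) := by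
    apply FreeGroup.ext_hom
    intro a
    rw [MonoidHom.comp_apply, MonoidHom.comp_apply, ShX_of]
    by_cases h : a.2 = c
    · rw [kill_of_not_mem (by simpa using h), kill_of_not_mem (by simpa using h), map_one]
    · rw [kill_of_mem (by simpa using h), kill_of_mem (by simpa using h), ShX_of]
  exact DFunLike.congr_fun this x

/-- the reflection of the letters -/
def refl0 (a : X0) : X0 := (-a.1, if a.2 = 0 then 1 else if a.2 = 1 then 0 else a.2)

theorem map_refl0_fA (m : ℕ → ℕ) (x : FreeGroup Al) :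
    FreeGroup.map refl0 (FreeGroup.map (fA m) x) = FreeGroup.map (fB m) x := by
  rw [FreeGroup.map.comp]
  congr 2
  funext a
  rcases a with _ | a
  · simp [refl0, fA, fB]
  · simp [refl0, fA, fB]

theorem map_refl0_ShX (k : ℤ) (x : FreeGroup X0) :
    FreeGroup.map refl0 (ShX k x) = ShX (-k) (FreeGroup.map refl0 x) := by
  rw [ShX, ShX, FreeGroup.map.comp, FreeGroup.map.comp]
  congr 2
  funext a
  simp only [Function.comp, refl0, shX_apply]
  congr 1
  ring

/-- no element is conjugate to its shift -/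
theorem eq_one_of_conj_ShX {k : ℤ} (hk : k ≠ 0) {h : FreeGroup X0}
    (hc : ∃ y, y⁻¹ * h * y = ShX k h) : h = 1 := by
  have hiter : ∀ n : ℕ, ∃ y, y⁻¹ * h * y = ShX (n * k) h := by
    intro n
    induction n with
    | zero => exact ⟨1, by simp [ShX_zero]⟩
    | succ n ih =>
      obtain ⟨y, hy⟩ := ih
      obtain ⟨y', hy'⟩ := hc
      refine ⟨y' * ShX k y, ?_⟩
      have h1 : (y' * ShX k y)⁻¹ * h * (y' * ShX k y) = (ShX k y)⁻¹ * (y'⁻¹ * h * y') * ShX k y := by
        group
      rw [h1, hy', ← map_inv, ← map_mul, ← map_mul, hy, ShX_ShX]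
      congr 1
      push_cast
      ring_nf
  obtain ⟨M, hM⟩ : ∃ M : ℕ, ∀ a ∈ h.toWord, a.1.1.natAbs ≤ M := by
    refine ⟨(h.toWord.map (fun a => a.1.1.natAbs)).sum, fun a ha => ?_⟩
    exact List.single_le_sum (by simp) _ (List.mem_map.2 ⟨a, ha, rfl⟩)
  obtain ⟨y, hy⟩ := hiter (2 * M + 1)
  let D1 : Set X0 := {a | a.1.natAbs ≤ M}
  let D2 : Set X0 := {a | (a.1 - ((2 * M + 1 : ℕ) : ℤ) * k).natAbs ≤ M}
  have h1 : h ∈ FD D1 := mem_FD_iff.2 hM
  have h2 : ShX (((2 * M + 1 : ℕ) : ℤ) * k) h ∈ FD D2 := by
    apply map_mem_FD (shX _).injective (D := D1) (E := D2) _ h1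
    intro a ha
    simp only [shX_apply, D2, Set.mem_ofPred_eq, add_sub_cancel_right]
    exact ha
  rw [← hy] at h2
  apply eq_one_of_conj_disjoint h1 h2
  ext a
  simp only [D1, D2, Set.mem_inter_iff, Set.mem_ofPred_eq, Set.mem_empty_iff_false, iff_false,
    not_and]
  intro h3 h4
  have h5 : (((2 * M + 1 : ℕ) : ℤ) * k).natAbs ≤ 2 * M := by omega
  rw [Int.natAbs_mul, Int.natAbs_natCast] at h5
  have h6 : 1 ≤ k.natAbs := by omega
  nlinarith

theorem iot_maln (m : ℕ → ℕ) {w w' : FreeGroup Al} {f : FreeGroup X0} {k : ℤ} (hw : w ≠ 1)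
    (h : f⁻¹ * iot m w * f = ShX k (iot m w')) : k = 0 ∧ ∃ y, f = iot m y := by
  have hk : k = 0 := by
    by_contra hk
    have h1 := congrArg (kill {a : X0 | a.2 ≠ 1}) h
    rw [map_mul, map_mul, map_inv, kill_ShX, killB_iot, killB_iot] at h1
    have h2 := congrArg (kill {a : X0 | a.2 ≠ 0}) h
    rw [map_mul, map_mul, map_inv, kill_ShX, killA_iot, killA_iot] at h2
    have h3 := congrArg (FreeGroup.map refl0) h1
    rw [map_mul, map_mul, map_inv, map_refl0_ShX, map_refl0_fA, map_refl0_fA] at h3
    set g1 := kill {a : X0 | a.2 ≠ 0} f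
    set g2 := FreeGroup.map refl0 (kill {a : X0 | a.2 ≠ 1} f)
    set H := FreeGroup.map (fB m) w' with hH
    have h4 : H = 1 := by
      apply eq_one_of_conj_ShX (k := k + k) (by omega)
      refine ⟨ShX k (g2⁻¹ * g1), ?_⟩
      have h5 : FreeGroup.map (fB m) w = g2 * ShX (-k) H * g2⁻¹ := by
        rw [← h3]; group
      rw [h5] at h2
      have h6 : ShX k ((g2⁻¹ * g1)⁻¹ * ShX (-k) H * (g2⁻¹ * g1)) = ShX k (ShX k H) := by
        rw [← h2]; congr 1; group
      rw [map_mul, map_mul, map_inv, ShX_ShX, add_neg_cancel, ShX_zero, ShX_ShX] at h6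
      exact h6
    have h7 : FreeGroup.map (fB m) w = 1 := by
      have : FreeGroup.map (fB m) w = g2 * ShX (-k) H * g2⁻¹ := by
        rw [← h3]; group
      rw [this, h4, map_one]; group
    have h8 : FreeGroup.map (fA m) w = 1 := by
      have h9 : FreeGroup.map refl0 (FreeGroup.map (fA m) w) = 1 := by rw [map_refl0_fA, h7]
      have hinj : Function.Injective refl0 := by
        intro a b hab
        rcases a with ⟨i, c⟩
        rcases b with ⟨j, d⟩
        simp only [refl0, Prod.mk.injEq] at hab
        have h10 : i = j := by omega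
        subst h10
        have : c = d := by
          have := hab.2
          revert this
          fin_cases c <;> fin_cases d <;> simp
        rw [this]
      exact FreeGroup.map_injective hinj (by rw [h9, map_one])
    exact hw (FreeGroup.map_injective (fA_inj m) (by rw [h8, map_one]))
  refine ⟨hk, ?_⟩
  subst hk
  rw [ShX_zero, iot_eq, iot_eq] at h
  have h1 := congrArg thti h
  rw [map_mul, map_mul, map_inv, thti_tht, thti_tht] at h1
  have h2 : thti f ∈ FD (Set.range (fA m)) := by
    apply FD_malnormal' (map_mem_FD_range (fA_inj m) w)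
    · intro h3
      exact hw (FreeGroup.map_injective (fA_inj m) (by rw [h3, map_one]))
    · rw [h1]
      exact map_mem_FD_range (fA_inj m) w'
  obtain ⟨y, hy⟩ := exists_map_of_mem_FD h2
  refine ⟨y, ?_⟩
  rw [iot_eq, hy, tht_thti]

end Malnormal

section Beta

/-- the word `(n,0) (n,1) ... (n,j-1)` -/
def Wd (n : ℕ) : ℕ → FreeGroup Al
  | 0 => 1
  | j + 1 => Wd n j * of (some (n, (j : ℤ)))

/-- the change of basis -/
noncomputable def bet (m : ℕ → ℕ) : FreeGroup Al →* FreeGroup Al :=
  FreeGroup.lift (fun a => match a with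
    | none => of none
    | some (n, i) => if i = (m n : ℤ) - 1 then (Wd n (m n - 1))⁻¹ * of (some (n, i)) else
        of (some (n, i)))

/-- its inverse -/
noncomputable def beti (m : ℕ → ℕ) : FreeGroup Al →* FreeGroup Al :=
  FreeGroup.lift (fun a => match a with
    | none => of none
    | some (n, i) => if i = (m n : ℤ) - 1 then (Wd n (m n - 1)) * of (some (n, i)) else
        of (some (n, i)))

theorem bet_none (m : ℕ → ℕ) : bet m (of none) = of none := by simp [bet]

theorem bet_last (m : ℕ → ℕ) (n : ℕ) {i : ℤ} (h : i = (m n : ℤ) - 1) :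
    bet m (of (some (n, i))) = (Wd n (m n - 1))⁻¹ * of (some (n, i)) := by
  simp [bet, h]

theorem bet_other (m : ℕ → ℕ) (n : ℕ) {i : ℤ} (h : i ≠ (m n : ℤ) - 1) :
    bet m (of (some (n, i))) = of (some (n, i)) := by
  simp [bet, h]

theorem beti_none (m : ℕ → ℕ) : beti m (of none) = of none := by simp [beti]

theorem beti_last (m : ℕ → ℕ) (n : ℕ) {i : ℤ} (h : i = (m n : ℤ) - 1) :
    beti m (of (some (n, i))) = (Wd n (m n - 1)) * of (some (n, i)) := by
  simp [beti, h]

theorem beti_other (m : ℕ → ℕ) (n : ℕ) {i : ℤ} (h : i ≠ (m n : ℤ) - 1) :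
    beti m (of (some (n, i))) = of (some (n, i)) := by
  simp [beti, h]

theorem bet_Wd (m : ℕ → ℕ) (n : ℕ) : ∀ j, j < m n → bet m (Wd n j) = Wd n j := by
  intro j
  induction j with
  | zero => intro _; exact map_one _
  | succ j ih =>
    intro hj
    rw [Wd, map_mul, ih (by omega), bet_other m n (by omega)]

theorem beti_Wd (m : ℕ → ℕ) (n : ℕ) : ∀ j, j < m n → beti m (Wd n j) = Wd n j := by
  intro j
  induction j with
  | zero => intro _; exact map_one _
  | succ j ih =>
    intro hj
    rw [Wd, map_mul, ih (by omega), beti_other m n (by omega)]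

variable {m : ℕ → ℕ} (hm : ∀ n, 1 ≤ m n)

include hm

theorem beti_bet (x : FreeGroup Al) : beti m (bet m x) = x := by
  have : (beti m).comp (bet m) = MonoidHom.id _ := by
    apply FreeGroup.ext_hom
    intro a
    rw [MonoidHom.comp_apply]
    rcases a with _ | ⟨n, i⟩
    · rw [bet_none, beti_none]; rfl
    · by_cases h : i = (m n : ℤ) - 1
      · have := hm n
        rw [bet_last m n h, map_mul, map_inv, beti_Wd m n _ (by omega), beti_last m n h]
        simp
      · rw [bet_other m n h, beti_other m n h]; rfl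
  exact DFunLike.congr_fun this x

theorem bet_beti (x : FreeGroup Al) : bet m (beti m x) = x := by
  have : (bet m).comp (beti m) = MonoidHom.id _ := by
    apply FreeGroup.ext_hom
    intro a
    rw [MonoidHom.comp_apply]
    rcases a with _ | ⟨n, i⟩
    · rw [beti_none, bet_none]; rfl
    · by_cases h : i = (m n : ℤ) - 1
      · have := hm n
        rw [beti_last m n h, map_mul, bet_Wd m n _ (by omega), bet_last m n h]
        simp
      · rw [beti_other m n h, bet_other m n h]; rfl
  exact DFunLike.congr_fun this x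

theorem bet_inj : Function.Injective (bet m) :=
  Function.LeftInverse.injective (beti_bet hm)

theorem bet_Wd_full (n : ℕ) : bet m (Wd n (m n)) = of (some (n, (m n : ℤ) - 1)) := by
  have h1 := hm n
  obtain ⟨k, hk⟩ : ∃ k, m n = k + 1 := ⟨m n - 1, by omega⟩
  have h2 : Wd n (m n) = Wd n (m n - 1) * of (some (n, (m n : ℤ) - 1)) := by
    rw [hk]
    simp only [Wd, Nat.add_sub_cancel]
    congr 4
    push_cast; ring
  rw [h2, map_mul, bet_Wd m n _ (by omega), bet_last m n rfl]
  group

omit hm in
/-- the embedding `Φ0` -/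
noncomputable def Ph0 (m : ℕ → ℕ) : FreeGroup Al →* FreeGroup X0 := (iot m).comp (bet m)

theorem Ph0_inj : Function.Injective (Ph0 m) := (iot_inj m).comp (bet_inj hm)

omit hm in
theorem Ph0_none : Ph0 m (of none) = of ((0, 2) : X0) := by
  rw [Ph0, MonoidHom.comp_apply, bet_none, iot_none]

theorem Ph0_Wd (n : ℕ) : Ph0 m (Wd n (m n)) = of (((n : ℤ), 0) : X0) * of ((-(n : ℤ), 1) : X0) := by
  rw [Ph0, MonoidHom.comp_apply, bet_Wd_full hm, iot_some]
  have : code m (n, (m n : ℤ) - 1) = n := by simp [code]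
  rw [this]

theorem Ph0_maln {w w' : FreeGroup Al} {f : FreeGroup X0} {k : ℤ} (hw : w ≠ 1)
    (h : f⁻¹ * Ph0 m w * f = ShX k (Ph0 m w')) : k = 0 ∧ ∃ y, f = Ph0 m y := by
  have h1 : bet m w ≠ 1 := by
    intro h1
    exact hw (bet_inj hm (by rw [h1, map_one]))
  obtain ⟨h2, y, hy⟩ := iot_maln m h1 h
  refine ⟨h2, beti m y, ?_⟩
  rw [Ph0, MonoidHom.comp_apply, bet_beti hm, hy]

end Beta

end Morse284
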