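import Pool.Agent.Morse284.Defs

/-!
The Cayley graph as a metric space.
-/

namespace Morse284

variable {G : Type} [Group G]

namespace CayPt

variable {E : FGen G}

theorem ddR_tri (E : FGen G) (g h k : G) :
    (wl E.S (g⁻¹ * k) : ℝ) ≤ wl E.S (g⁻¹ * h) + wl E.S (h⁻¹ * k) := by
  exact_mod_cast E.dd_tri g h k

theorem ddR_comm (E : FGen G) (g h : G) : (wl E.S (g⁻¹ * h) : ℝ) = wl E.S (h⁻¹ * g) := by
  exact_mod_cast E.dd_comm g h

theorem ddR_nonneg (E : FGen G) (g : G) : (0 : ℝ) ≤ wl E.S g := Nat.cast_nonneg _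

theorem step (p : CayPt E) : (wl E.S (p.v⁻¹ * (p.v * p.s)) : ℝ) ≤ 1 := by
  rw [inv_mul_cancel_left]
  rcases p.hs with h | ⟨h, _⟩
  · exact_mod_cast wl_gen_le (Or.inl h)
  · rw [h, wl_one]; simp

theorem step' (p : CayPt E) : (wl E.S ((p.v * p.s)⁻¹ * p.v) : ℝ) ≤ 1 := by
  rw [ddR_comm]; exact p.step

theorem toV_le (p : CayPt E) (w w' : G) : toV p w ≤ toV p w' + wl E.S (w'⁻¹ * w) := by
  have h1 := ddR_tri E p.v w' w
  have h2 := ddR_tri E (p.v * p.s) w' w
  unfold toV
  rw [← min_add_add_right]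
  apply min_le_min <;> linarith

theorem toV_nonneg (p : CayPt E) (w : G) : 0 ≤ toV p w := by
  have h1 := ddR_nonneg E (p.v⁻¹ * w)
  have h2 := ddR_nonneg E ((p.v * p.s)⁻¹ * w)
  have h3 := p.x0
  have h4 := p.x1
  apply le_min <;> linarith

theorem far_nonneg (p q : CayPt E) : 0 ≤ far p q := by
  have h1 := toV_nonneg p q.v
  have h2 := toV_nonneg p (q.v * q.s)
  have h3 := q.x0
  have h4 := q.x1
  apply le_min <;> linarith

theorem toV_le1 (p : CayPt E) (w : G) : toV p w ≤ p.x + wl E.S (p.v⁻¹ * w) := min_le_left _ _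

theorem toV_le2 (p : CayPt E) (w : G) :
    toV p w ≤ (1 - p.x) + wl E.S ((p.v * p.s)⁻¹ * w) := min_le_right _ _

/-- the distance is at most the length of any path through a vertex -/
theorem far_le (p q : CayPt E) (w : G) : far p q ≤ toV p w + toV q w := by
  have h1 := toV_le p q.v w
  have h2 := toV_le p (q.v * q.s) w
  have h3 : far p q ≤ toV p w + (q.x + wl E.S (q.v⁻¹ * w)) := by
    apply (min_le_left _ _).trans
    rw [ddR_comm E q.v w]; linarith
  have h4 : far p q ≤ toV p w + ((1 - q.x) + wl E.S ((q.v * q.s)⁻¹ * w)) := by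
    apply (min_le_right _ _).trans
    rw [ddR_comm E (q.v * q.s) w]; linarith
  have h5 : far p q - toV p w ≤ toV q w := by apply le_min <;> linarith
  linarith

theorem le_far_symm (p q : CayPt E) : far q p ≤ far p q := by
  apply le_min
  · have h1 := far_le q p q.v
    have h2 := toV_le1 q q.v
    rw [inv_mul_cancel, wl_one] at h2
    push_cast at h2
    linarith
  · have h1 := far_le q p (q.v * q.s)
    have h2 := toV_le2 q (q.v * q.s)
    rw [inv_mul_cancel, wl_one] at h2
    push_cast at h2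
    linarith

theorem far_comm (p q : CayPt E) : far p q = far q p :=
  le_antisymm (le_far_symm q p) (le_far_symm p q)

theorem far_tri (p q r : CayPt E) : far p r ≤ far p q + far q r := by
  rw [far_comm q r]
  have a1 := far_le p r q.v
  have a2 := far_le p r (q.v * q.s)
  have b1 := toV_le r q.v (q.v * q.s)
  have b2 := toV_le r (q.v * q.s) q.v
  have c1 := q.step
  have c2 := q.step'
  have d1 := q.x0
  have d2 := q.x1
  have e1 : far p r - (toV p q.v + q.x) ≤ far r q := by apply le_min <;> linarith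
  have e2 : far p r - (toV p (q.v * q.s) + (1 - q.x)) ≤ far r q := by apply le_min <;> linarith
  have e3 : far p r - far r q ≤ far p q := by apply le_min <;> linarith
  linarith

theorem toV_same {p q : CayPt E} (h : p.v = q.v ∧ p.s = q.s) (w : G) :
    toV p w ≤ |p.x - q.x| + toV q w := by
  have h1 := le_abs_self (p.x - q.x)
  have h2 := neg_le_abs (p.x - q.x)
  unfold toV
  rw [h.1, h.2, ← min_add_add_left]
  apply min_le_min <;> linarith

theorem far_same {p q : CayPt E} (h : p.v = q.v ∧ p.s = q.s) (r : CayPt E) :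
    far p r ≤ |p.x - q.x| + far q r := by
  have h1 := toV_same h r.v
  have h2 := toV_same h (r.v * r.s)
  unfold far
  rw [← min_add_add_left]
  apply min_le_min <;> linarith

theorem cdist_le_far (p q : CayPt E) : cdist p q ≤ far p q := by
  unfold cdist
  split_ifs
  · exact min_le_right _ _
  · exact le_rfl

theorem cdist_le_same {p q : CayPt E} (h : p.v = q.v ∧ p.s = q.s) : cdist p q ≤ |p.x - q.x| := by
  unfold cdist
  rw [if_pos h]
  exact min_le_left _ _

theorem cdist_cases (p q : CayPt E) :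
    cdist p q = far p q ∨ ((p.v = q.v ∧ p.s = q.s) ∧ cdist p q = |p.x - q.x|) := by
  unfold cdist
  split_ifs with h
  · rcases min_choice |p.x - q.x| (far p q) with h1 | h1
    · exact Or.inr ⟨h, h1⟩
    · exact Or.inl h1
  · exact Or.inl rfl

theorem cdist_self (p : CayPt E) : cdist p p = 0 := by
  apply le_antisymm
  · have := cdist_le_same (p := p) (q := p) ⟨rfl, rfl⟩
    simpa using this
  · rcases cdist_cases p p with h | ⟨_, h⟩
    · rw [h]; exact far_nonneg _ _
    · rw [h]; exact abs_nonneg _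

theorem cdist_comm (p q : CayPt E) : cdist p q = cdist q p := by
  unfold cdist
  rw [far_comm p q, abs_sub_comm, eq_comm (a := p.v), eq_comm (a := p.s)]

theorem cdist_tri (p q r : CayPt E) : cdist p r ≤ cdist p q + cdist q r := by
  rcases cdist_cases p q with h1 | ⟨h1, h1'⟩
  · rcases cdist_cases q r with h2 | ⟨h2, h2'⟩
    · rw [h1, h2]; exact (cdist_le_far _ _).trans (far_tri _ _ _)
    · rw [h1, h2']
      apply (cdist_le_far _ _).trans
      have := far_same (p := r) (q := q) ⟨h2.1.symm, h2.2.symm⟩ p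
      rw [far_comm p r, far_comm p q, abs_sub_comm]
      linarith
  · rcases cdist_cases q r with h2 | ⟨h2, h2'⟩
    · rw [h1', h2]
      exact (cdist_le_far _ _).trans (far_same h1 r)
    · rw [h1', h2']
      exact (cdist_le_same ⟨h1.1.trans h2.1, h1.2.trans h2.2⟩).trans (abs_sub_le _ _ _)

noncomputable instance : PseudoMetricSpace (CayPt E) where
  dist := cdist
  dist_self := cdist_self
  dist_comm := cdist_comm
  dist_triangle := cdist_tri

theorem dist_def (p q : CayPt E) : dist p q = cdist p q := rfl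

theorem dist_vtx_left (p : CayPt E) : dist p (vtx p.v) ≤ p.x := by
  apply (cdist_le_far _ _).trans
  apply (min_le_left _ _).trans
  have := toV_le1 p p.v
  rw [inv_mul_cancel, wl_one] at this
  push_cast at this
  change toV p p.v + 0 ≤ _
  linarith

theorem dist_vtx_right (p : CayPt E) : dist p (vtx (p.v * p.s)) ≤ 1 - p.x := by
  apply (cdist_le_far _ _).trans
  apply (min_le_left _ _).trans
  have := toV_le2 p (p.v * p.s)
  rw [inv_mul_cancel, wl_one] at this
  push_cast at this
  change toV p (p.v * p.s) + 0 ≤ _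
  linarith

theorem toV_vtx (g h : G) : toV (vtx g : CayPt E) h = wl E.S (g⁻¹ * h) := by
  unfold toV vtx
  simp only [mul_one, zero_add, sub_zero]
  apply min_eq_left
  linarith

theorem dist_vtx_vtx (g h : G) : dist (vtx g : CayPt E) (vtx h) = E.dd g h := by
  have hf : far (vtx g : CayPt E) (vtx h) = wl E.S (g⁻¹ * h) := by
    have e : (vtx h : CayPt E).v = h := rfl
    have e' : (vtx h : CayPt E).s = 1 := rfl
    have e'' : (vtx h : CayPt E).x = 0 := rfl
    unfold far
    rw [e, e', e'', mul_one, toV_vtx, add_zero, sub_zero]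
    apply min_eq_left
    linarith
  rw [dist_def]
  unfold cdist
  split_ifs with h1
  · have h2 : g = h := h1.1
    subst h2
    rw [hf, inv_mul_cancel, wl_one, E.dd_self]
    simp [vtx]
  · rw [hf]; rfl

/-- edge paths -/
theorem exists_edge {g h : G} (H : E.dd g h ≤ 1) : ∃ e : ℝ → CayPt E,
    (∀ x ∈ Set.Icc (0 : ℝ) 1, ∀ y ∈ Set.Icc (0 : ℝ) 1, dist (e x) (e y) ≤ |x - y|) ∧
    dist (e 0) (vtx g) = 0 ∧ dist (e 1) (vtx h) = 0 := by
  classical
  rcases eq_of_wl_le_one E.gen H with h1 | h1 | h1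
  · rw [inv_mul_eq_one] at h1
    subst h1
    refine ⟨fun _ => vtx g, ?_, ?_, ?_⟩
    · intro x _ y _
      rw [dist_self]; exact abs_nonneg _
    · rw [dist_self]
    · rw [dist_self]
  · have hc : ∀ x : ℝ, 0 ≤ max 0 (min x 1) ∧ max 0 (min x 1) ≤ 1 := by
      intro x
      exact ⟨le_max_left _ _, max_le zero_le_one (min_le_right _ _)⟩
    have hc' : ∀ x ∈ Set.Icc (0 : ℝ) 1, max 0 (min x 1) = x := by
      intro x hx
      rw [min_eq_left hx.2, max_eq_right hx.1]
    refine ⟨fun x => ⟨g, g⁻¹ * h, max 0 (min x 1), (hc x).1, (hc x).2, Or.inl h1⟩, ?_, ?_, ?_⟩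
    · intro x hx y hy
      have := cdist_le_same (E := E)
        (p := ⟨g, g⁻¹ * h, max 0 (min x 1), (hc x).1, (hc x).2, Or.inl h1⟩)
        (q := ⟨g, g⁻¹ * h, max 0 (min y 1), (hc y).1, (hc y).2, Or.inl h1⟩) ⟨rfl, rfl⟩
      simp only [hc' x hx, hc' y hy] at this
      simp only [hc' x hx, hc' y hy]
      exact this
    · apply le_antisymm _ dist_nonneg
      have := dist_vtx_left (E := E)
        ⟨g, g⁻¹ * h, max 0 (min 0 1), (hc 0).1, (hc 0).2, Or.inl h1⟩
      simpa using this
    · apply le_antisymm _ dist_nonneg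
      have := dist_vtx_right (E := E)
        ⟨g, g⁻¹ * h, max 0 (min 1 1), (hc 1).1, (hc 1).2, Or.inl h1⟩
      simpa using this
  · have h1 : h⁻¹ * g ∈ E.S := by
      have e : h⁻¹ * g = (g⁻¹ * h)⁻¹ := by group
      rw [e]; exact h1
    have hc : ∀ x : ℝ, 0 ≤ max 0 (min (1 - x) 1) ∧ max 0 (min (1 - x) 1) ≤ 1 := by
      intro x
      exact ⟨le_max_left _ _, max_le zero_le_one (min_le_right _ _)⟩
    have hc' : ∀ x ∈ Set.Icc (0 : ℝ) 1, max 0 (min (1 - x) 1) = 1 - x := by
      intro x hx
      rw [min_eq_left (by linarith [hx.1]), max_eq_right (by linarith [hx.2])]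
    refine ⟨fun x => ⟨h, h⁻¹ * g, max 0 (min (1 - x) 1), (hc x).1, (hc x).2, Or.inl h1⟩,
      ?_, ?_, ?_⟩
    · intro x hx y hy
      have := cdist_le_same (E := E)
        (p := ⟨h, h⁻¹ * g, max 0 (min (1 - x) 1), (hc x).1, (hc x).2, Or.inl h1⟩)
        (q := ⟨h, h⁻¹ * g, max 0 (min (1 - y) 1), (hc y).1, (hc y).2, Or.inl h1⟩) ⟨rfl, rfl⟩
      simp only [hc' x hx, hc' y hy] at this
      simp only [hc' x hx, hc' y hy]
      rw [show (1 - x) - (1 - y) = -(x - y) by ring, abs_neg] at this
      exact this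
    · apply le_antisymm _ dist_nonneg
      have := dist_vtx_right (E := E)
        ⟨h, h⁻¹ * g, max 0 (min (1 - 0) 1), (hc 0).1, (hc 0).2, Or.inl h1⟩
      simpa using this
    · apply le_antisymm _ dist_nonneg
      have := dist_vtx_left (E := E)
        ⟨h, h⁻¹ * g, max 0 (min (1 - 1) 1), (hc 1).1, (hc 1).2, Or.inl h1⟩
      simpa using this

end CayPt

end Morse284
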