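import Pool.Agent.Morse284.LemE2

/-!
The discrete local-to-global theorem.
-/

namespace Morse284

variable {G : Type} [Group G]

namespace DataE

variable {E : FGen G} (D : DataE E)

include D in
/-- discrete Morse local-to-global property -/
theorem core (K : ℕ) (N : ℕ → ℕ) : ∃ (L K' : ℕ) (N' : ℕ → ℕ), ∀ (p : ℕ → G) (n : ℕ), E.Unit1 p →
    (∀ a b, a ≤ b → b ≤ n → b ≤ a + L → E.QG K p a b ∧ E.Mor N p a b) →
    E.QG K' p 0 n ∧ E.Mor N' p 0 n := by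
  obtain ⟨B, hB⟩ : ∃ B, B = DataA.bA K N := ⟨_, rfl⟩
  obtain ⟨ℓ0, hℓ0⟩ := D.lemE K N B
  obtain ⟨N', hN'⟩ := D.toTreeD.mor_of B (ℓ0 + 1) (by omega)
  refine ⟨(2 * B + 2) + (ℓ0 + 1) * (B + 1), B + 1, N', ?_⟩
  intro p n hp hloc
  have hHM : ∀ a b, a ≤ b → b ≤ n → b ≤ a + ((2 * B + 2) + (ℓ0 + 1) * (B + 1)) →
      E.HM K N p a b := by
    intro a b h1 h2 h3
    exact ⟨(hloc a b h1 h2 h3).1, fun i j h4 h5 h6 => (hloc i j h5 (by omega) (by omega)).2⟩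
  have hret : D.toTreeD.Ret B p 0 n := by
    apply D.toTreeD.ret_global hp (L := (2 * B + 2) + (ℓ0 + 1) * (B + 1)) (by omega)
    intro i k h1 h2 h3
    have := DataA.lemA D.toDataA hp (a := i) (b := i + k) (by omega)
      (hHM i (i + k) (by omega) h1 (by omega)) h3
    omega
  refine ⟨TreeD.Ret.qg hp hret, ?_⟩
  apply hN' p 0 n hp hret
  intro i j τ l _ hij hjn hs r hr g hg
  by_contra hg1
  have h1 := hs.time_le (hret.mono (Nat.zero_le i) hjn) (ℓ0 + 1) r hr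
  have h2 := hs.mono_le (ℓ0 + 1) r hr
  have h3 := hs.le_b (l - (r + (ℓ0 + 1))) (r + (ℓ0 + 1)) (by omega)
  have := hℓ0 p (τ r) (τ (r + (ℓ0 + 1))) (fun i => τ (r + i)) (ℓ0 + 1) g hp
    (hHM _ _ (by omega) (by omega) (by omega)) (hret.mono (by omega) (by omega)) (hs.sub hr) hg1 hg
  omega

end DataE

end Morse284
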