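import Pool.Agent.Morse284.WordLen

/-!
Definitions for the main theorem: quasi-geodesics, Morse property, the Morse local-to-global
property of a metric space, the Cayley graph as a metric space, Morse elements and translation
lengths.
-/

namespace Morse284

open Filter Topology NNReal

section Metric

variable {X : Type} [PseudoMetricSpace X]

/-- the restriction of `f` to `[a, b]` is a `(k, c)`-quasi-geodesic -/
def QGeo (k c : ℝ) (f : ℝ → X) (a b : ℝ) : Prop :=
  ∀ s ∈ Set.Icc a b, ∀ t ∈ Set.Icc a b,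
    |s - t| / k - c ≤ dist (f s) (f t) ∧ dist (f s) (f t) ≤ k * |s - t| + c

/-- the restriction of `f` to `[a, b]` is `M`-Morse: every `(k, c)`-quasi-geodesic with both end
points on it stays in its `M k c`-neighbourhood, for all `k ≥ 1` and `c ≥ 0` -/
def MorseOn (M : ℝ → ℝ → ℝ≥0) (f : ℝ → X) (a b : ℝ) : Prop :=
  ∀ k c : ℝ, 1 ≤ k → 0 ≤ c → ∀ (h : ℝ → X) (a' b' : ℝ), a' ≤ b' → QGeo k c h a' b' →
    h a' ∈ f '' Set.Icc a b → h b' ∈ f '' Set.Icc a b →
    ∀ t ∈ Set.Icc a' b', ∃ s ∈ Set.Icc a b, dist (h t) (f s) ≤ M k c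

variable (X) in
/-- the Morse local-to-global property of a metric space: for every gauge `M` and all `k ≥ 1`,
`c ≥ 0` there are `L ≥ 0`, a gauge `M'` and `k' ≥ 1`, `c' ≥ 0` such that every map
`[a, b] → X` whose restrictions to all subintervals of length at most `L` are `M`-Morse
`(k, c)`-quasi-geodesics is itself an `M'`-Morse `(k', c')`-quasi-geodesic -/
def MLTG : Prop :=
  ∀ (M : ℝ → ℝ → ℝ≥0) (k c : ℝ), 1 ≤ k → 0 ≤ c →
    ∃ (L : ℝ) (M' : ℝ → ℝ → ℝ≥0) (k' c' : ℝ), 0 ≤ L ∧ 1 ≤ k' ∧ 0 ≤ c' ∧
      ∀ (f : ℝ → X) (a b : ℝ), a ≤ b →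
        (∀ s t : ℝ, a ≤ s → s ≤ t → t ≤ b → t - s ≤ L → QGeo k c f s t ∧ MorseOn M f s t) →
        QGeo k' c' f a b ∧ MorseOn M' f a b

end Metric

section Cayley

variable {G : Type} [Group G]

/-- Points of the Cayley graph of `G` with respect to the finite generating set `E.S`, before
identification: `(v, s, x)` with `s ∈ E.S` and `0 ≤ x ≤ 1` is the point at distance `x` from `v`
on the edge of length one from `v` to `v * s`; the triple `(v, 1, 0)` is the vertex `v`. -/
structure CayPt (E : FGen G) where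
  v : G
  s : G
  x : ℝ
  x0 : 0 ≤ x
  x1 : x ≤ 1
  hs : s ∈ E.S ∨ s = 1 ∧ x = 0

namespace CayPt

variable {E : FGen G}

/-- the vertex `g` -/
def vtx (g : G) : CayPt E := ⟨g, 1, 0, le_rfl, zero_le_one, Or.inr ⟨rfl, rfl⟩⟩

/-- the length of a shortest path in the graph from the point `p` to the vertex `w` -/
noncomputable def toV (p : CayPt E) (w : G) : ℝ :=
  min (p.x + wl E.S (p.v⁻¹ * w)) ((1 - p.x) + wl E.S ((p.v * p.s)⁻¹ * w))

/-- the length of a shortest path from `p` to `q` that passes through an end point of the edge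
of `p` and an end point of the edge of `q` -/
noncomputable def far (p q : CayPt E) : ℝ :=
  min (toV p q.v + q.x) (toV p (q.v * q.s) + (1 - q.x))

open Classical in
/-- the path metric of the graph -/
noncomputable def cdist (p q : CayPt E) : ℝ :=
  if p.v = q.v ∧ p.s = q.s then min |p.x - q.x| (far p q) else far p q

end CayPt

end Cayley

end Morse284
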