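import Pool.Agent.Morse284.Grp

/-!
The concrete group satisfies the assumptions of the discrete local-to-global theorem.
-/

namespace Morse284

open FreeGroup (of)

namespace Blk

variable (b : Blk)

theorem zeH_of (q : Q0) : b.zeH (b.ofQ q) = q.2 := b.toZ_of _ _ _ q
theorem zeH_t : b.zeH b.tt = 1 := b.toZ_t _ _ _
theorem psH_of (q : Q0) : b.psH (b.ofQ q) = 1 := b.toZ_of _ _ _ q
theorem psH_t : b.psH b.tt = Multiplicative.ofAdd 1 := b.toZ_t _ _ _
theorem upH_of (q : Q0) : b.upH (b.ofQ q) = q.1.right := b.toZ_of _ _ _ q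
theorem upH_t : b.upH b.tt = 1 := b.toZ_t _ _ _
theorem etH_of (q : Q0) : b.etH (b.ofQ q) = etP q.1 := b.toZ_of _ _ _ q
theorem etH_t : b.etH b.tt = 1 := b.toZ_t _ _ _

theorem etH_letter (i : ℤ) (c : Fin 3) :
    b.etH (b.ofQ (SemidirectProduct.inl (of ((i, c) : X0)), 1)) =
      if c = 2 then Multiplicative.ofAdd 1 else 1 := by
  rw [etH_of]
  change etP (SemidirectProduct.inl _) = _
  rw [etP, SemidirectProduct.lift_inl]
  simp [etF]

theorem etH_u : b.etH b.gu = 1 := by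
  rw [gu, etH_of]
  change etP (SemidirectProduct.inr _) = _
  rw [etP, SemidirectProduct.lift_inr]
  rfl

theorem etH_z : b.etH b.gz = 1 := by
  rw [gz, etH_of]
  exact map_one _

theorem of_none_mem {m : ℕ → ℕ} : (of (none : Al)) ∈ FD (DA m) := by
  apply of_mem_FD
  intro n i h
  simp at h

theorem Ph_none : b.Ph (of none) = b.ge := by
  change b.ofQ (SemidirectProduct.inl (Ph0 b.m (of none)), 1) = _
  rw [Ph0_none]; rfl

theorem t_ge : b.tt * b.ge = b.ge * b.tt := by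
  have := b.t_Ph (of none) of_none_mem
  rwa [Sh_of, Ph_none] at this

theorem gz_comm (q : Q0) : b.ofQ q * b.gz = b.gz * b.ofQ q := by
  rw [gz, ← map_mul, ← map_mul]
  congr 1
  rcases q with ⟨p, k⟩
  rw [Prod.mk_mul_mk, Prod.mk_mul_mk, mul_one, one_mul, mul_comm]

theorem maln_aux {w w' : FreeGroup Al} {q : Q0} (hw : w ≠ 1)
    (h : (b.ofQ q)⁻¹ * b.Ph w * b.ofQ q = b.Ph w') :
    ∃ y, ∃ s : ℤ, b.ofQ q = b.Ph y * b.gz ^ s := by
  have h1 : q⁻¹ * b.PhQ w * q = b.PhQ w' := by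
    apply b.ofQ_inj
    rw [map_mul, map_mul, map_inv]
    exact h
  rcases q with ⟨p, k⟩
  rw [PhQ_apply, PhQ_apply, Prod.inv_mk, Prod.mk_mul_mk, Prod.mk_mul_mk, Prod.mk.injEq] at h1
  have h2 := h1.1
  have hp : p = SemidirectProduct.inl p.left * SemidirectProduct.inr p.right :=
    (SemidirectProduct.inl_left_mul_inr_right p).symm
  have h3 : (SemidirectProduct.inl ((p.left)⁻¹ * Ph0 b.m w * p.left) : P0) =
      SemidirectProduct.inl (actF p.right (Ph0 b.m w')) := by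
    rw [SemidirectProduct.inl_aut, ← h2, map_mul, map_mul, map_inv]
    conv_rhs => rw [hp]
    rw [map_inv]
    group
    simp
  have h4 := SemidirectProduct.inl_injective h3
  rw [actF_apply] at h4
  obtain ⟨h5, y, hy⟩ := Ph0_maln b.one hw h4
  refine ⟨y, Multiplicative.toAdd k, ?_⟩
  rw [gz_zpow]
  change _ = b.ofQ (SemidirectProduct.inl (Ph0 b.m y), 1) * _
  rw [← map_mul, Prod.mk_mul_mk, mul_one, one_mul, ofAdd_toAdd, ← hy]
  congr 2
  conv_lhs => rw [hp]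
  have h6 : p.right = 1 := by
    rw [← ofAdd_toAdd p.right, h5]; rfl
  rw [h6, map_one, mul_one]

theorem cross_aux (u : ℤˣ) (q : Q0)
    (h : b.tt ^ (-(u : ℤ)) * b.ofQ q * b.tt ^ (u : ℤ) ∈ bs b.φ) :
    ∃ w ∈ FD (dm b.m u), b.ofQ q = b.Ph w := by
  have h1 : q ∈ HNNExtension.toSubgroup b.A b.B (-u) := by
    apply mem_toSubgroup_of_conj (φ := b.φ)
    rw [Units.val_neg, neg_neg]
    exact h
  rcases Int.units_eq_one_or u with rfl | rfl
  · rw [HNNExtension.toSubgroup_neg_one] at h1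
    obtain ⟨w1, ⟨w, hw, rfl⟩, rfl⟩ := h1
    refine ⟨Sh 1 w, ?_, rfl⟩
    rw [dm, if_pos rfl]
    exact b.Sh_mem_DB hw
  · rw [neg_neg, HNNExtension.toSubgroup_one] at h1
    obtain ⟨w, hw, rfl⟩ := h1
    refine ⟨w, ?_, rfl⟩
    rw [dm, if_neg (by decide)]
    exact hw

theorem crossΦ_aux (u : ℤˣ) (w : FreeGroup Al) (hw : w ∈ FD (dm b.m u)) :
    b.tt ^ (-(u : ℤ)) * b.Ph w * b.tt ^ (u : ℤ) = b.Ph (Sh (-(u : ℤ)) w) := by
  rcases Int.units_eq_one_or u with rfl | rfl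
  · rw [dm, if_pos rfl] at hw
    have h1 := b.t_Ph (Sh (-1) w) (b.Sh_mem_DA hw)
    rw [Sh_Sh] at h1
    have h2 : (1 : ℤ) + -1 = 0 := by ring
    rw [h2, Sh_zero] at h1
    simp only [Units.val_one, zpow_neg, zpow_one]
    rw [mul_assoc, ← h1, ← mul_assoc, inv_mul_cancel, one_mul]
  · rw [dm, if_neg (by decide)] at hw
    have h1 := b.t_Ph w hw
    simp only [Units.val_neg, Units.val_one, neg_neg, zpow_neg, zpow_one]
    rw [h1, mul_assoc, mul_inv_cancel, mul_one]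

/-- the data of the group `G` -/
noncomputable def DD : DataE b.EE where
  Q := bs b.φ
  t := b.tt
  hS := by
    rintro s (rfl | rfl | rfl | rfl | rfl | rfl)
    · exact Or.inl ⟨_, rfl⟩
    · exact Or.inl ⟨_, rfl⟩
    · exact Or.inl ⟨_, rfl⟩
    · exact Or.inl ⟨_, rfl⟩
    · exact Or.inl ⟨_, rfl⟩
    · exact Or.inr rfl
  br := br_hnn
  P := (b.ofQ.comp (MonoidHom.inl P0 (Multiplicative ℤ))).range
  z := b.gz
  e := b.ge
  ρ := b.rho
  ζ g := Multiplicative.toAdd (b.zeH g)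
  η g := Multiplicative.toAdd (b.etH g)
  PQ := by
    rintro _ ⟨x, rfl⟩
    exact ⟨_, rfl⟩
  zQ := ⟨_, rfl⟩
  zcomm := by
    rintro _ ⟨q, rfl⟩
    exact b.gz_comm q
  split := by
    rintro _ ⟨q, rfl⟩
    refine ⟨b.ofQ (q.1, 1), ⟨q.1, rfl⟩, Multiplicative.toAdd q.2, ?_⟩
    rw [gz_zpow, ← map_mul, Prod.mk_mul_mk, mul_one, one_mul, ofAdd_toAdd]
    rfl
  ρP := by
    rintro _ ⟨x, rfl⟩
    exact b.rho_of _
  ρz := by
    rw [gz, rho_of]
    exact map_one _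
  ζ_mul g h := by rw [map_mul]; rfl
  η_mul g h := by rw [map_mul]; rfl
  ζz := by
    rw [gz, zeH_of]; rfl
  hz := by
    rintro s (rfl | rfl | rfl | rfl | rfl | rfl)
    · right; exact ⟨by rw [ga, zeH_of]; rfl, by rw [ga, rho_of]⟩
    · right; exact ⟨by rw [gb, zeH_of]; rfl, by rw [gb, rho_of]⟩
    · right; exact ⟨by rw [ge, zeH_of]; rfl, by rw [ge, rho_of]⟩
    · right; exact ⟨by rw [gu, zeH_of]; rfl, by rw [gu, rho_of]⟩
    · left; rfl
    · right; exact ⟨by rw [zeH_t]; rfl, by rw [rho_t]⟩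
  zS := by simp [EE, SS]
  eS := by simp [EE, SS]
  eP := ⟨_, rfl⟩
  ηe := by
    rw [ge, etH_letter]; rfl
  ηz := by rw [etH_z]; rfl
  hηζ := by
    rintro s (rfl | rfl | rfl | rfl | rfl | rfl)
    · rw [ga, etH_letter, zeH_of]; simp
    · rw [gb, etH_letter, zeH_of]; simp
    · rw [ge, etH_letter, zeH_of]; simp
    · rw [etH_u, gu, zeH_of]; simp
    · rw [etH_z, gz, zeH_of]; simp
    · rw [etH_t, zeH_t]; simp
  m := b.m
  Φ := b.Ph
  Φinj := b.Ph_inj
  ΦP := by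
    intro w
    exact ⟨SemidirectProduct.inl (Ph0 b.m w), rfl⟩
  Φe := b.Ph_none
  ηt := by rw [etH_t]; rfl
  et := b.t_ge.symm
  tS := by simp [EE, SS]
  maln := by
    rintro w w' _ hw ⟨q, rfl⟩ h
    exact b.maln_aux hw h
  cross := by
    rintro u _ ⟨q, rfl⟩ h
    exact b.cross_aux u q h
  crossΦ := b.crossΦ_aux

end Blk

end Morse284
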