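import Pool.Agent.Morse284.Axis
import Pool.Agent.Morse284.Inst

/-!
The Morse elements of the concrete group, in the discrete setting.
-/

namespace Morse284

open FreeGroup (of)

section Abstract

variable {G : Type} [Group G]

theorem exists_isWord_of_mem {T : Set G} {g : G} (hg : g ∈ Subgroup.closure T) :
    ∃ l : List G, IsWord T l ∧ l.prod = g := by
  induction hg using Subgroup.closure_induction with
  | mem x hx => exact ⟨[x], by intro y hy; rw [List.mem_singleton] at hy; rw [hy]; exact Or.inl hx,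
      by simp⟩
  | one => exact ⟨[], by intro y hy; simp at hy, rfl⟩
  | mul x y _ _ hx hy =>
    obtain ⟨l1, h1, rfl⟩ := hx
    obtain ⟨l2, h2, rfl⟩ := hy
    refine ⟨l1 ++ l2, ?_, by simp⟩
    intro z hz
    rcases List.mem_append.1 hz with h | h
    · exact h1 z h
    · exact h2 z h
  | inv x _ hx =>
    obtain ⟨l1, h1, rfl⟩ := hx
    refine ⟨(l1.map (·⁻¹)).reverse, ?_, by rw [List.prod_inv_reverse]⟩
    intro z hz
    rw [List.mem_reverse, List.mem_map] at hz
    obtain ⟨y, hy, rfl⟩ := hz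
    rw [inv_inv]
    exact (h1 y hy).symm

/-- a path inside a subgroup -/
theorem exists_path_in (E : FGen G) (Q : Subgroup G) {T : Set G} (hT : T ⊆ E.S) (hTQ : T ⊆ Q)
    {x : G} (hx : x ∈ Subgroup.closure T) : ∃ (d : ℕ) (ξ : ℕ → G), ξ 0 = 1 ∧ ξ d = x ∧
      (∀ i, E.dd (ξ i) (ξ (i + 1)) ≤ 1) ∧ ∀ i, i ≤ d → ξ i ∈ Q := by
  obtain ⟨l, h1, h2⟩ := exists_isWord_of_mem hx
  refine ⟨l.length, fun i => (l.take i).prod, by simp, ?_, ?_, ?_⟩
  · simp only [List.take_length]; exact h2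
  · intro i
    simp only
    by_cases hi : i < l.length
    · rw [List.take_succ_eq_append_getElem hi, List.prod_append]
      simp only [List.prod_cons, List.prod_nil, mul_one]
      rw [E.dd_self_mul]
      apply E.len_gen
      rcases h1 _ (List.getElem_mem hi) with h | h
      · exact Or.inl (hT h)
      · exact Or.inr (hT h)
    · rw [List.take_of_length_le (by omega), List.take_of_length_le (by omega), E.dd_self]
      omega
  · intro i _
    apply Subgroup.list_prod_mem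
    intro y hy
    rcases h1 y (List.mem_of_mem_take hy) with h | h
    · exact hTQ h
    · have := inv_mem (S := Subgroup G) (hTQ h)
      rwa [inv_inv] at this

/-- discrete version of being Morse, for the positive powers -/
def DMorse (E : FGen G) (g : G) : Prop :=
  ∃ N : ℕ → ℕ, ∀ n : ℕ, ∃ α : ℕ → G, E.Unit1 α ∧ α 0 = 1 ∧ α (E.len (g ^ n)) = g ^ n ∧
    E.Mor2 N α (E.len (g ^ n))

theorem geodesic_low (E : FGen G) {α : ℕ → G} (h1 : E.Unit1 α) {l : ℕ}
    (hl : E.dd (α 0) (α l) = l) {i k : ℕ} (hik : i + k ≤ l) : E.dd (α i) (α (i + k)) = k := by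
  have g1 := h1.dd_le' (a := 0) (b := i) (by omega)
  have g2 := h1.dd_le' (a := i + k) (b := l) hik
  have g3 := E.dd_tri (α 0) (α i) (α l)
  have g4 := E.dd_tri (α i) (α (i + k)) (α l)
  have g5 := h1.dd_le i k
  omega

theorem DMorse.pow {E : FGen G} {g : G} (h : DMorse E g) (k : ℕ) : DMorse E (g ^ k) := by
  obtain ⟨N, hN⟩ := h
  refine ⟨N, ?_⟩
  intro n
  obtain ⟨α, h1, h2, h3, h4⟩ := hN (k * n)
  rw [pow_mul] at h3 h4
  exact ⟨α, h1, h2, h3, h4⟩

namespace DataF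

variable {E : FGen G} (D : DataF E)

theorem dmorse {x : G} {T : Set G} (hT : T ⊆ E.S) (hTQ : T ⊆ D.Q)
    (hx : x ∈ Subgroup.closure T) {ℓ : ℕ} (hℓ : 1 ≤ ℓ)
    (htw : TW1 D.Q ℓ (fun i => (x * D.t) ^ i)) : DMorse E (x * D.t) := by
  obtain ⟨d, ξ, hξ0, hξd, hξ1, hξQ⟩ := exists_path_in E D.Q hT hTQ hx
  obtain ⟨K, N, hKN⟩ := D.axis_mor hξ0 hξd hξ1 hξQ hℓ htw
  refine ⟨FGen.tsN K N, ?_⟩
  intro n
  obtain ⟨h1, h2, h3⟩ := hKN n
  obtain ⟨α, k1, k2, k3⟩ := E.exists_path ((x * D.t) ^ n)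
  refine ⟨α, k3, k1, k2 _ le_rfl, ?_⟩
  have hax0 : D.axp x ξ d 0 = 1 := by
    rw [axp]; simp [hξ0]
  have haxn : D.axp x ξ d ((d + 1) * n) = (x * D.t) ^ n := by
    rw [axp, Nat.mul_div_cancel_left _ (by omega), Nat.mul_mod_right, hξ0, mul_one]
  apply FGen.geo_mor h1 h2 h3 _ (fun t _ => k3 t)
  · rw [k1, hax0]
  · rw [k2 _ le_rfl, haxn]
  · intro i k hik
    have := geodesic_low E k3 (l := E.len ((x * D.t) ^ n)) (by
      rw [k1, k2 _ le_rfl, E.dd_one_left]) hik
    omega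

end DataF

end Abstract

namespace Blk

variable (b : Blk)

/-- the full data -/
noncomputable def DF : DataF b.EE where
  toDataE := b.DD
  ψ g := Multiplicative.toAdd (b.psH g)
  ψ_mul g h := by rw [map_mul]; rfl
  ψt := by
    change Multiplicative.toAdd (b.psH b.tt) = 1
    rw [psH_t]; rfl
  ψQ := by
    rintro _ ⟨q, rfl⟩
    have := b.psH_of q
    change Multiplicative.toAdd (b.psH (b.ofQ q)) = 0
    rw [this]; rfl

/-- the elements `g_n` -/
noncomputable def gn (n : ℕ) : b.GG := b.Ph (of (some (n, (0 : ℤ)))) * b.tt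

/-- the element `u t` -/
noncomputable def g0 : b.GG := b.gu * b.tt

theorem SQ_SS : b.SQ ⊆ b.EE.S := by
  rintro s (rfl | rfl | rfl | rfl | rfl) <;> simp [EE, SS]

theorem SQ_Q : b.SQ ⊆ b.DF.Q := by
  rintro s (rfl | rfl | rfl | rfl | rfl) <;> exact ⟨_, rfl⟩

theorem tw_gn (n : ℕ) : TW1 b.DF.Q (b.m n + 1) (fun i => (b.gn n) ^ i) :=
  b.DF.tw_gn n (b.one n)

theorem dmorse_gn (n : ℕ) : DMorse b.EE (b.gn n) :=
  b.DF.dmorse (x := b.Ph (of (some (n, (0 : ℤ))))) b.SQ_SS b.SQ_Q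
    (b.ofQ_mem (b.PhQ (of (some (n, (0 : ℤ)))))) (ℓ := b.m n + 1) (by omega) (b.tw_gn n)

theorem upH_Ph (w : FreeGroup Al) : b.upH (b.Ph w) = 1 := by
  change b.upH (b.ofQ (b.PhQ w)) = 1
  rw [upH_of, PhQ_apply]
  rfl

theorem upH_z : b.upH b.gz = 1 := by
  rw [gz, upH_of]; rfl

theorem upH_u : b.upH b.gu = Multiplicative.ofAdd 1 := by
  rw [gu, upH_of]; rfl

theorem tw_g0 : TW1 b.DF.Q 2 (fun i => (b.g0) ^ i) := by
  intro g hg
  by_contra hg1
  have hxQ : b.gu ∈ b.DF.Q := ⟨_, rfl⟩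
  obtain ⟨p', s, q, h1, h2, h3⟩ := b.DF.exists_valid_seq (γ := fun r => (b.g0) ^ r * b.gu)
    (u := fun _ => 1) (x := fun _ => b.gu) (l := 2) (by
      intro r _
      simp only [Units.val_one, zpow_one]
      rw [pow_succ, g0]
      change _ = _ * b.tt * _
      group)
    (fun _ _ => hxQ) hg1 (by
      intro r hr
      have h4 := hg r hr
      have h5 : Co b.DF.Q ((b.g0) ^ r) ((b.g0) ^ r * b.gu) := by
        rw [Co, inv_mul_cancel_left]; exact hxQ
      have h6 : Co b.DF.Q (g * (b.g0) ^ r) (g * ((b.g0) ^ r * b.gu)) := h5.mul_left g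
      exact (h5.symm.trans h4).trans h6)
  have h4 := h1 0 (by omega)
  change b.gu = b.Ph _ * b.gz ^ _ at h4
  have h5 := congrArg b.upH h4
  rw [map_mul, map_zpow, upH_Ph, upH_z, upH_u, one_zpow, one_mul] at h5
  have := congrArg Multiplicative.toAdd h5
  simp at this

theorem dmorse_g0 : DMorse b.EE b.g0 :=
  b.DF.dmorse (x := b.gu) b.SQ_SS b.SQ_Q (Subgroup.subset_closure (by simp [SQ])) (ℓ := 2)
    (by omega) b.tw_g0

/-- the length of the powers of `g_n`, lower bound -/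
theorem len_gn (n k : ℕ) : k + k / (b.m n + 1) ≤ b.EE.len ((b.gn n) ^ k) :=
  b.DF.len_pow (x := b.Ph (of (some (n, (0 : ℤ))))) ⟨_, rfl⟩ (by omega) (b.tw_gn n) k

theorem tt_pow_Ph (n j : ℕ) : j < b.m n →
    b.tt ^ j * b.Ph (of (some (n, (0 : ℤ)))) = b.Ph (of (some (n, (j : ℤ)))) * b.tt ^ j := by
  induction j with
  | zero => intro _; simp
  | succ j ih =>
    intro hj
    have h1 : of (some (n, (j : ℤ))) ∈ FD (DA b.m) := by
      apply of_mem_FD
      intro n' i h
      simp only [Option.some.injEq, Prod.mk.injEq] at h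
      obtain ⟨rfl, rfl⟩ := h
      omega
    have h2 := b.t_Ph _ h1
    rw [Sh_of] at h2
    rw [pow_succ', mul_assoc, ih (by omega), ← mul_assoc, h2, mul_assoc]
    congr 3

theorem gn_pow (n j : ℕ) : j ≤ b.m n → (b.gn n) ^ j = b.Ph (Wd n j) * b.tt ^ j := by
  induction j with
  | zero => intro _; simp [Wd]
  | succ j ih =>
    intro hj
    rw [pow_succ, ih (by omega), gn, Wd, map_mul, pow_succ]
    have := b.tt_pow_Ph n j (by omega)
    rw [mul_assoc, ← mul_assoc (b.tt ^ j), this]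
    group

theorem len_pow_le {x : b.GG} (hx : x ∈ b.EE.S) (k : ℤ) : b.EE.len (x ^ k) ≤ k.natAbs := by
  have h1 : ∀ n : ℕ, b.EE.len (x ^ n) ≤ n := by
    intro n
    induction n with
    | zero => rw [pow_zero, b.EE.len_one]
    | succ n ih =>
      rw [pow_succ]
      have := b.EE.len_mul (x ^ n) x
      have := b.EE.len_gen (s := x) (Or.inl hx)
      omega
  rcases Int.eq_nat_or_neg k with ⟨m, rfl | rfl⟩
  · rw [zpow_natCast]; simpa using h1 m
  · rw [zpow_neg, zpow_natCast, b.EE.len_inv]; simpa using h1 m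

theorem len_Wd (n : ℕ) : b.EE.len (b.Ph (Wd n (b.m n))) ≤ 4 * n + 2 := by
  have h1 : b.Ph (Wd n (b.m n)) =
      b.ofQ (SemidirectProduct.inl (of (((n : ℤ), 0) : X0)), 1) *
        b.ofQ (SemidirectProduct.inl (of ((-(n : ℤ), 1) : X0)), 1) := by
    change b.ofQ (SemidirectProduct.inl (Ph0 b.m (Wd n (b.m n))), 1) = _
    rw [Ph0_Wd b.one, ← map_mul, Prod.mk_mul_mk, map_mul, mul_one]
  rw [h1, b.inl_letter (n : ℤ) 0, b.inl_letter (-(n : ℤ)) 1]
  have ha : b.EE.len b.ga ≤ 1 := b.EE.len_gen (Or.inl (by simp [EE, SS]))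
  have hb : b.EE.len b.gb ≤ 1 := b.EE.len_gen (Or.inl (by simp [EE, SS]))
  have hu : b.gu ∈ b.EE.S := by simp [EE, SS]
  have l1 := b.len_pow_le hu (n : ℤ)
  have l2 := b.len_pow_le hu (-(n : ℤ))
  have l3 := b.len_pow_le hu (-(-(n : ℤ)))
  have e1 := b.EE.len_mul (b.gu ^ (n : ℤ) * b.ga * b.gu ^ (-(n : ℤ)))
    (b.gu ^ (-(n : ℤ)) * b.gb * b.gu ^ (-(-(n : ℤ))))
  have e2 := b.EE.len_mul (b.gu ^ (n : ℤ) * b.ga) (b.gu ^ (-(n : ℤ)))
  have e3 := b.EE.len_mul (b.gu ^ (n : ℤ)) b.ga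
  have e4 := b.EE.len_mul (b.gu ^ (-(n : ℤ)) * b.gb) (b.gu ^ (-(-(n : ℤ))))
  have e5 := b.EE.len_mul (b.gu ^ (-(n : ℤ))) b.gb
  rw [Int.natAbs_natCast] at l1
  rw [Int.natAbs_neg, Int.natAbs_natCast] at l2
  rw [Int.natAbs_neg, Int.natAbs_neg, Int.natAbs_natCast] at l3
  change b.EE.len (b.gu ^ (n : ℤ) * b.ga * b.gu ^ (-(n : ℤ)) *
    (b.gu ^ (-(n : ℤ)) * b.gb * b.gu ^ (-(-(n : ℤ))))) ≤ _
  omega

/-- the length of the power `m n` of `g_n`, upper bound -/
theorem len_gn_le (n : ℕ) : b.EE.len ((b.gn n) ^ (b.m n)) ≤ b.m n + (4 * n + 2) := by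
  rw [b.gn_pow n _ le_rfl]
  have h1 := b.EE.len_mul (b.Ph (Wd n (b.m n))) (b.tt ^ b.m n)
  have h2 := b.len_Wd n
  have h3 := b.len_pow_le (x := b.tt) (by simp [EE, SS]) (b.m n : ℤ)
  rw [zpow_natCast, Int.natAbs_natCast] at h3
  omega

/-- the length of the powers of `u t` -/
theorem len_g0 (k : ℕ) : b.EE.len (b.g0 ^ k) = 2 * k := by
  apply le_antisymm
  · induction k with
    | zero => rw [pow_zero, b.EE.len_one]
    | succ k ih =>
      rw [pow_succ]
      have h1 := b.EE.len_mul (b.g0 ^ k) b.g0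
      have h2 : b.EE.len b.g0 ≤ 2 := by
        have h3 := b.EE.len_mul b.gu b.tt
        have h4 : b.EE.len b.gu ≤ 1 := b.EE.len_gen (Or.inl (by simp [EE, SS]))
        have h5 : b.EE.len b.tt ≤ 1 := b.EE.len_gen (Or.inl (by simp [EE, SS]))
        rw [g0]; omega
      omega
  · have h1 : ∀ g, (Multiplicative.toAdd (b.psH g)).natAbs +
        (Multiplicative.toAdd (b.upH g)).natAbs ≤ b.EE.len g := by
      intro g
      apply b.EE.le_len (fun g => (Multiplicative.toAdd (b.psH g)).natAbs +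
        (Multiplicative.toAdd (b.upH g)).natAbs)
      · simp
      · intro g s hs
        simp only [map_mul, toAdd_mul]
        have h2 : ∀ s ∈ b.EE.S, (Multiplicative.toAdd (b.psH s)).natAbs +
            (Multiplicative.toAdd (b.upH s)).natAbs ≤ 1 := by
          rintro s (rfl | rfl | rfl | rfl | rfl | rfl)
          · rw [ga, psH_of, upH_of]; simp
          · rw [gb, psH_of, upH_of]; simp
          · rw [ge, psH_of, upH_of]; simp
          · rw [gu, psH_of, upH_of]; simp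
          · rw [gz, psH_of, upH_of]; simp
          · rw [psH_t, upH_t]; simp
        rcases hs with hs | hs
        · have := h2 s hs
          omega
        · have := h2 _ hs
          rw [map_inv b.psH, map_inv b.upH, toAdd_inv, toAdd_inv] at this
          omega
    have h2 := h1 (b.g0 ^ k)
    have h3 : b.psH b.gu = 1 := by rw [gu, psH_of]
    rw [map_pow b.psH, map_pow b.upH, g0, map_mul b.psH, map_mul b.upH, psH_t, upH_t, upH_u, h3,
      one_mul, mul_one, toAdd_pow, toAdd_ofAdd] at h2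
    have e : (k • (1 : ℤ)).natAbs = k := by simp
    rw [e] at h2
    rw [g0]
    omega

end Blk

end Morse284
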