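import Pool.Agent.Morse284.Geo

/-!
The Morse elements of the concrete group and their translation lengths.
-/

namespace Morse284

open Filter Topology

theorem exists_transl {G : Type} [Group G] (E : FGen G) (g : G) : ∃ τ : ℝ,
    Tendsto (fun n : ℕ => (wl E.S (g ^ n) : ℝ) / n) atTop (𝓝 τ) ∧
    ∀ n : ℕ, n ≠ 0 → τ ≤ (wl E.S (g ^ n) : ℝ) / n := by
  have hsub : Subadditive (fun n : ℕ => (wl E.S (g ^ n) : ℝ)) := by
    intro m n
    simp only
    rw [pow_add]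
    exact_mod_cast E.len_mul (g ^ m) (g ^ n)
  have hbdd : BddBelow (Set.range fun n : ℕ => (wl E.S (g ^ n) : ℝ) / n) := by
    refine ⟨0, ?_⟩
    rintro _ ⟨n, rfl⟩
    positivity
  exact ⟨hsub.lim, hsub.tendsto_lim hbdd, fun n hn => hsub.lim_le_div hbdd hn⟩

namespace Blk

variable (b : Blk)

theorem psH_len (g : b.GG) : (Multiplicative.toAdd (b.psH g)).natAbs ≤ b.EE.len g := by
  apply b.EE.le_len (fun g => (Multiplicative.toAdd (b.psH g)).natAbs)
  · simp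
  · intro g s hs
    simp only [map_mul, toAdd_mul]
    have h2 : ∀ s ∈ b.EE.S, (Multiplicative.toAdd (b.psH s)).natAbs ≤ 1 := by
      rintro s (rfl | rfl | rfl | rfl | rfl | rfl)
      · rw [ga, psH_of]; simp
      · rw [gb, psH_of]; simp
      · rw [ge, psH_of]; simp
      · rw [gu, psH_of]; simp
      · rw [gz, psH_of]; simp
      · rw [psH_t]; simp
    rcases hs with hs | hs
    · have := h2 s hs
      omega
    · have := h2 _ hs
      rw [map_inv b.psH, toAdd_inv] at this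
      omega

theorem undist {g : b.GG} {j : ℤ} (hj : j ≠ 0) (h : b.psH g = Multiplicative.ofAdd j) (n : ℤ) :
    n.natAbs ≤ 1 * b.EE.len (g ^ n) := by
  have h1 := b.psH_len (g ^ n)
  rw [map_zpow b.psH, h, toAdd_zpow, toAdd_ofAdd, smul_eq_mul, Int.natAbs_mul] at h1
  have h2 : 1 ≤ j.natAbs := by omega
  have h3 : n.natAbs * 1 ≤ n.natAbs * j.natAbs := Nat.mul_le_mul_left _ h2
  omega

theorem psH_gn (n : ℕ) : b.psH (b.gn n) = Multiplicative.ofAdd 1 := by
  have h1 : b.psH (b.Ph (FreeGroup.of (some (n, (0 : ℤ))))) = 1 := b.psH_of _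
  rw [gn, map_mul b.psH, h1, psH_t, one_mul]

theorem psH_g0 : b.psH b.g0 = Multiplicative.ofAdd 1 := by
  have h1 : b.psH b.gu = 1 := b.psH_of _
  rw [g0, map_mul b.psH, h1, psH_t, one_mul]

theorem morse_g0 : MorseElt b.EE b.g0 :=
  b.dmorse_g0.morseElt 1 (b.undist one_ne_zero b.psH_g0)

theorem morse_gn (n : ℕ) : MorseElt b.EE ((b.gn n) ^ 2) :=
  ((b.dmorse_gn n).pow 2).morseElt 1 (b.undist (j := 2) two_ne_zero (by
    rw [map_pow b.psH, psH_gn]; rfl))

theorem two_mem : (2 : ℝ) ∈ TS b.EE := by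
  refine ⟨b.g0, b.morse_g0, ?_⟩
  apply tendsto_const_nhds.congr'
  filter_upwards [eventually_ne_atTop 0] with n hn
  have h1 : (wl b.EE.S (b.g0 ^ n) : ℝ) = 2 * n := by exact_mod_cast b.len_g0 n
  have h2 : (n : ℝ) ≠ 0 := by exact_mod_cast hn
  rw [h1]
  field_simp

theorem exists_mem (n : ℕ) : ∃ τ ∈ TS b.EE, 2 < τ ∧ τ ≤ 2 + (8 * n + 4) / b.m n := by
  obtain ⟨τ, h1, h2⟩ := exists_transl b.EE ((b.gn n) ^ 2)
  refine ⟨τ, ⟨_, b.morse_gn n, h1⟩, ?_, ?_⟩
  · have hm0 : (0 : ℝ) < b.m n + 1 := by positivity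
    have h3 : 2 + 1 / ((b.m n : ℝ) + 1) ≤ τ := by
      apply ge_of_tendsto h1
      filter_upwards [eventually_ge_atTop (b.m n + 1)] with k hk
      have hk0 : (0 : ℝ) < k := by
        have : 0 < k := by omega
        exact_mod_cast this
      have h4 := b.len_gn n (2 * k)
      rw [pow_mul] at h4
      have h5 : k ≤ (b.m n + 1) * (2 * k / (b.m n + 1)) := by
        have h6 := Nat.div_add_mod (2 * k) (b.m n + 1)
        have h7 := Nat.mod_lt (2 * k) (show 0 < b.m n + 1 by omega)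
        omega
      have h5' : (k : ℝ) ≤ (b.m n + 1) * ((2 * k / (b.m n + 1) : ℕ) : ℝ) := by exact_mod_cast h5
      have h4' : (2 * k : ℝ) + ((2 * k / (b.m n + 1) : ℕ) : ℝ) ≤
          (wl b.EE.S (((b.gn n) ^ 2) ^ k) : ℝ) := by exact_mod_cast h4
      rw [le_div_iff₀ hk0]
      have h8 : 1 / ((b.m n : ℝ) + 1) * k ≤ ((2 * k / (b.m n + 1) : ℕ) : ℝ) := by
        rw [one_div, inv_mul_le_iff₀ hm0]; exact h5'
      linarith
    have : 0 < 1 / ((b.m n : ℝ) + 1) := by positivity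
    linarith
  · have hm1 : (0 : ℝ) < b.m n := by
      have : 0 < b.m n := b.one n
      exact_mod_cast this
    have h3 := h2 (b.m n) (by have := b.one n; omega)
    apply h3.trans
    rw [div_le_iff₀ hm1, add_mul, div_mul_cancel₀ _ hm1.ne']
    have h4 := b.len_gn_le n
    have h5 : b.EE.len (((b.gn n) ^ 2) ^ b.m n) ≤ 2 * (b.m n + (4 * n + 2)) := by
      rw [← pow_mul, Nat.mul_comm, pow_mul, pow_two]
      have := b.EE.len_mul (b.gn n ^ b.m n) (b.gn n ^ b.m n)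
      omega
    have h6 : (wl b.EE.S (((b.gn n) ^ 2) ^ b.m n) : ℝ) ≤ 2 * (b.m n + (4 * n + 2)) := by
      exact_mod_cast h5
    linarith

end Blk

/-- block lengths -/
def blk0 : Blk := ⟨fun n => (n + 2) ^ 2, fun n => by
  have : 2 * 2 ≤ (n + 2) * (n + 2) := Nat.mul_le_mul (by omega) (by omega)
  rw [pow_two]
  omega⟩

theorem not_isolated (ε : ℝ) (hε : 0 < ε) : ∃ τ ∈ TS blk0.EE, τ ≠ 2 ∧ |τ - 2| < ε := by
  obtain ⟨n, hn⟩ := exists_nat_gt (8 / ε)
  obtain ⟨τ, h1, h2, h3⟩ := blk0.exists_mem n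
  refine ⟨τ, h1, h2.ne', ?_⟩
  rw [abs_of_pos (by linarith)]
  have h4 : ((blk0.m n : ℕ) : ℝ) = ((n : ℝ) + 2) ^ 2 := by
    change (((n + 2) ^ 2 : ℕ) : ℝ) = _
    push_cast; ring
  rw [h4] at h3
  have hn0 : (0 : ℝ) ≤ n := Nat.cast_nonneg _
  have h5 : (8 * (n : ℝ) + 4) / ((n : ℝ) + 2) ^ 2 < ε := by
    rw [div_lt_iff₀ (by positivity)]
    rw [div_lt_iff₀ hε] at hn
    nlinarith
  linarith

theorem mltg_blk (b : Blk) : MLTG (Cay b.EE) := (cayModel b.EE).mltg b.DD.core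

end Morse284
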