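import Mathlib

/-!
Free group lemmas: sub-free-groups on a set of letters, killing letters, conjugacy minimal elements.
-/

namespace Morse284

open FreeGroup hiding map_mul map_inv map_one norm_eq_zero

section Kill

variable {α : Type}

open Classical in
/-- The endomorphism of a free group killing all letters outside `D`. -/
noncomputable def kill (D : Set α) : FreeGroup α →* FreeGroup α :=
  FreeGroup.lift (fun a => if a ∈ D then FreeGroup.of a else 1)

/-- The subgroup of the elements fixed by `kill D`, that is the words with letters in `D`. -/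
noncomputable def FD (D : Set α) : Subgroup (FreeGroup α) :=
  (kill D).eqLocus (MonoidHom.id _)

theorem mem_FD {D : Set α} {x : FreeGroup α} : x ∈ FD D ↔ kill D x = x := Iff.rfl

theorem kill_of_mem {D : Set α} {a : α} (h : a ∈ D) : kill D (of a) = of a := by
  simp [kill, h]

theorem kill_of_not_mem {D : Set α} {a : α} (h : a ∉ D) : kill D (of a) = 1 := by
  simp [kill, h]

theorem kill_kill (D E : Set α) (x : FreeGroup α) : kill D (kill E x) = kill (D ∩ E) x := by
  have : (kill D).comp (kill E) = kill (D ∩ E) := by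
    apply FreeGroup.ext_hom
    intro a
    by_cases h1 : a ∈ E
    · by_cases h2 : a ∈ D
      · simp [MonoidHom.comp_apply, kill_of_mem h1, kill_of_mem h2,
          kill_of_mem (D := D ∩ E) (a := a) ⟨h2, h1⟩]
      · simp [MonoidHom.comp_apply, kill_of_mem h1, kill_of_not_mem h2,
          kill_of_not_mem (D := D ∩ E) (a := a) (fun h => h2 h.1)]
    · simp [MonoidHom.comp_apply, kill_of_not_mem h1,
        kill_of_not_mem (D := D ∩ E) (a := a) (fun h => h1 h.2)]
  exact DFunLike.congr_fun this x

theorem kill_mem (D : Set α) (x : FreeGroup α) : kill D x ∈ FD D := by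
  rw [mem_FD, kill_kill, Set.inter_self]

theorem kill_comm (D E : Set α) (x : FreeGroup α) : kill D (kill E x) = kill E (kill D x) := by
  rw [kill_kill, kill_kill, Set.inter_comm]

theorem kill_mem_of_mem {D E : Set α} {x : FreeGroup α} (h : x ∈ FD E) : kill D x ∈ FD E := by
  rw [mem_FD, kill_comm, mem_FD.1 h]

theorem kill_eq_one_of_disjoint {D E : Set α} {x : FreeGroup α} (h : x ∈ FD E)
    (hd : D ∩ E = ∅) : kill D x = 1 := by
  rw [← mem_FD.1 h, kill_kill, hd]
  have : kill (∅ : Set α) = 1 := by
    apply FreeGroup.ext_hom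
    intro a
    simp [kill]
  rw [this]; rfl

/-- an element supported in `E` and conjugate to an element supported in a disjoint set is
trivial -/
theorem eq_one_of_conj_disjoint {D E : Set α} {x y : FreeGroup α} (hx : x ∈ FD D)
    (hy : y⁻¹ * x * y ∈ FD E) (hd : D ∩ E = ∅) : x = 1 := by
  have h1 := kill_eq_one_of_disjoint (D := D) hy hd
  rw [map_mul, map_mul, map_inv, mem_FD.1 hx] at h1
  have : x = kill D y * ((kill D y)⁻¹ * x * kill D y) * (kill D y)⁻¹ := by group
  rw [this, h1]; group

variable [DecidableEq α]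

omit [DecidableEq α] in
open Classical in
theorem kill_mk (D : Set α) (L : List (α × Bool)) :
    kill D (mk L) = mk (L.filter (fun x => decide (x.1 ∈ D))) := by
  induction L with
  | nil => simp [← one_eq_mk]
  | cons a L ih =>
    have h1 : (mk (a :: L) : FreeGroup α) = mk [a] * mk L := by rw [mul_mk]; rfl
    rw [h1, map_mul, ih]
    rcases a with ⟨a, b⟩
    by_cases ha : a ∈ D
    · rw [List.filter_cons_of_pos (by simpa using ha)]
      have : kill D (mk [(a, b)]) = mk [(a, b)] := by
        cases b
        · have : (mk [(a, false)] : FreeGroup α) = (of a)⁻¹ := by simp [of, inv_mk, invRev]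
          rw [this, map_inv, kill_of_mem ha]
        · exact kill_of_mem ha
      rw [this, mul_mk]; rfl
    · rw [List.filter_cons_of_neg (by simpa using ha)]
      have : kill D (mk [(a, b)]) = 1 := by
        cases b
        · have : (mk [(a, false)] : FreeGroup α) = (of a)⁻¹ := by simp [of, inv_mk, invRev]
          rw [this, map_inv, kill_of_not_mem ha, inv_one]
        · exact kill_of_not_mem ha
      rw [this, one_mul]

theorem norm_kill_le (D : Set α) (x : FreeGroup α) : FreeGroup.norm (kill D x) ≤ FreeGroup.norm x := by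
  classical
  conv_lhs => rw [← mk_toWord (x := x), kill_mk]
  exact norm_mk_le.trans (List.length_filter_le _ _)

theorem mem_FD_iff {D : Set α} {x : FreeGroup α} : x ∈ FD D ↔ ∀ a ∈ x.toWord, a.1 ∈ D := by
  classical
  constructor
  · intro h
    have h1 : FreeGroup.norm (kill D x) = FreeGroup.norm x := by rw [mem_FD.1 h]
    conv_lhs at h1 => rw [← mk_toWord (x := x), kill_mk]
    have h2 : FreeGroup.norm (mk (x.toWord.filter (fun x => decide (x.1 ∈ D))) : FreeGroup α) ≤
      (x.toWord.filter (fun x => decide (x.1 ∈ D))).length := norm_mk_le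
    have h3 := List.length_filter_le (fun x => decide (x.1 ∈ D)) x.toWord
    have h4 : (x.toWord.filter (fun x => decide (x.1 ∈ D))).length = x.toWord.length := by
      have : FreeGroup.norm x = x.toWord.length := rfl
      omega
    have h5 := List.length_filter_eq_length_iff.1 h4
    intro a ha
    simpa using h5 a ha
  · intro h
    rw [mem_FD]
    conv_lhs => rw [← mk_toWord (x := x), kill_mk]
    rw [List.filter_eq_self.2 (by simpa using h), mk_toWord]

theorem mem_FD_of_norm_kill {D : Set α} {x : FreeGroup α} (h : FreeGroup.norm (kill D x) = FreeGroup.norm x) :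
    x ∈ FD D := by
  classical
  conv_lhs at h => rw [← mk_toWord (x := x), kill_mk]
  have h2 : FreeGroup.norm (mk (x.toWord.filter (fun x => decide (x.1 ∈ D))) : FreeGroup α) ≤
      (x.toWord.filter (fun x => decide (x.1 ∈ D))).length := norm_mk_le
  have h3 := List.length_filter_le (fun x => decide (x.1 ∈ D)) x.toWord
  have h4 : (x.toWord.filter (fun x => decide (x.1 ∈ D))).length = x.toWord.length := by
    have : FreeGroup.norm x = x.toWord.length := rfl
    omega
  have h5 := List.length_filter_eq_length_iff.1 h4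
  rw [mem_FD_iff]
  intro a ha
  simpa using h5 a ha

theorem FD_mono {D E : Set α} (h : D ⊆ E) : FD D ≤ FD E := by
  intro x hx
  rw [mem_FD_iff] at hx ⊢
  exact fun a ha => h (hx a ha)

omit [DecidableEq α] in
theorem of_mem_FD {D : Set α} {a : α} (h : a ∈ D) : of a ∈ FD D := kill_of_mem h

/-- the first letter of a nontrivial word can be split off -/
theorem exists_head {x : FreeGroup α} (hx : x ≠ 1) : ∃ a : α × Bool, ∃ L : List (α × Bool),
    x.toWord = a :: L ∧ x = mk [a] * mk L ∧ (mk L : FreeGroup α).toWord = L := by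
  have h1 : x.toWord ≠ [] := fun h => hx (toWord_eq_nil_iff.1 h)
  obtain ⟨a, L, hL⟩ := List.exists_cons_of_ne_nil h1
  refine ⟨a, L, hL, ?_, ?_⟩
  · rw [mul_mk]
    conv_lhs => rw [← mk_toWord (x := x), hL]
    rfl
  · rw [toWord_mk]
    have h2 : FreeGroup.IsReduced x.toWord := isReduced_toWord
    rw [hL] at h2
    exact FreeGroup.IsReduced.reduce_eq (List.isChain_cons.1 h2).2

theorem mk_singleton_mem_FD {D : Set α} {a : α × Bool} (h : a.1 ∈ D) :
    (mk [a] : FreeGroup α) ∈ FD D := by
  rw [mem_FD_iff]
  intro b hb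
  rw [toWord_mk, reduce_singleton, List.mem_singleton] at hb
  rw [hb]; exact h

/-- Malnormality of the subgroup generated by a subset of the letters. -/
theorem FD_malnormal {D : Set α} : ∀ (n : ℕ) (c y : FreeGroup α), FreeGroup.norm y ≤ n → c ∈ FD D → c ≠ 1 →
    y⁻¹ * c * y ∈ FD D → y ∈ FD D := by
  intro n
  induction n with
  | zero =>
    intro c y hn hc hc1 h
    rw [Nat.le_zero, FreeGroup.norm_eq_zero] at hn
    rw [hn]; exact one_mem _
  | succ n ih =>
    intro c y hn hc hc1 h
    by_cases hy : y = 1
    · rw [hy]; exact one_mem _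
    obtain ⟨a, L, hL, hyL, hLr⟩ := exists_head hy
    by_cases ha : a.1 ∈ D
    · have hmem := mk_singleton_mem_FD (D := D) ha
      have hnorm : FreeGroup.norm (mk L : FreeGroup α) ≤ n := by
        have h1 : FreeGroup.norm (mk L : FreeGroup α) = L.length := by
          rw [FreeGroup.norm, hLr]
        have h2 : FreeGroup.norm y = L.length + 1 := by rw [FreeGroup.norm, hL]; rfl
        omega
      have := ih ((mk [a])⁻¹ * c * mk [a]) (mk L) hnorm
        (mul_mem (mul_mem (inv_mem hmem) hc) hmem)
        (by
          intro h1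
          apply hc1
          have : c = mk [a] * ((mk [a])⁻¹ * c * mk [a]) * (mk [a])⁻¹ := by group
          rw [this, h1]; group)
        (by
          have : (mk L)⁻¹ * ((mk [a])⁻¹ * c * mk [a]) * mk L = y⁻¹ * c * y := by
            rw [hyL]; group
          rw [this]; exact h)
      rw [hyL]
      exact mul_mem hmem this
    · exfalso
      -- the word of `y⁻¹ * c * y` is the concatenation
      have hred : FreeGroup.IsReduced (invRev y.toWord ++ c.toWord ++ y.toWord) := by
        have h1 : FreeGroup.IsReduced (c.toWord ++ y.toWord) := by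
          rw [FreeGroup.IsReduced, List.isChain_append]
          refine ⟨isReduced_toWord, isReduced_toWord, ?_⟩
          intro x hx z hz hxz
          exfalso
          have hx' : x ∈ c.toWord := List.mem_of_mem_getLast? hx
          have := mem_FD_iff.1 hc x hx'
          rw [hL] at hz
          simp only [List.head?_cons, Option.mem_def, Option.some.injEq] at hz
          rw [hxz, ← hz] at this
          exact ha this
        have h2 : FreeGroup.IsReduced (invRev y.toWord ++ c.toWord) := by
          rw [FreeGroup.IsReduced, List.isChain_append]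
          refine ⟨?_, isReduced_toWord, ?_⟩
          · have : FreeGroup.IsReduced (y⁻¹).toWord := isReduced_toWord
            rw [toWord_inv] at this
            exact this
          intro x hx z hz hxz
          exfalso
          have hz' : z ∈ c.toWord := List.mem_of_mem_head? hz
          have := mem_FD_iff.1 hc z hz'
          rw [hL, invRev] at hx
          simp only [List.map_cons, List.reverse_cons, List.getLast?_append, List.getLast?_singleton,
            Option.some_or, Option.mem_def, Option.some.injEq] at hx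
          rw [← hxz, ← hx] at this
          exact ha this
        exact h2.append_overlap h1 (fun h => hc1 (toWord_eq_nil_iff.1 h))
      have hword : (y⁻¹ * c * y).toWord = invRev y.toWord ++ c.toWord ++ y.toWord := by
        have : y⁻¹ * c * y = mk (invRev y.toWord ++ c.toWord ++ y.toWord) := by
          rw [← mul_mk, ← mul_mk, ← inv_mk, mk_toWord, mk_toWord]
        rw [this, toWord_mk, hred.reduce_eq]
      have := mem_FD_iff.1 h a (by rw [hword, hL]; simp)
      exact ha this

theorem FD_malnormal' {D : Set α} {c y : FreeGroup α} (hc : c ∈ FD D) (hc1 : c ≠ 1)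
    (h : y⁻¹ * c * y ∈ FD D) : y ∈ FD D :=
  FD_malnormal (FreeGroup.norm y) c y le_rfl hc hc1 h

/-- conjugacy minimal elements -/
def CMin (c : FreeGroup α) : Prop := ∀ y : FreeGroup α, FreeGroup.norm c ≤ FreeGroup.norm (y⁻¹ * c * y)

theorem exists_CMin (x : FreeGroup α) : ∃ c q : FreeGroup α, CMin c ∧ x = q⁻¹ * c * q := by
  classical
  let S : Set ℕ := {n | ∃ y : FreeGroup α, FreeGroup.norm (y⁻¹ * x * y) = n}
  have hS : S.Nonempty := ⟨_, 1, rfl⟩
  obtain ⟨y, hy⟩ := Nat.sInf_mem hS
  refine ⟨y⁻¹ * x * y, y⁻¹, ?_, by group⟩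
  intro z
  have h1 : z⁻¹ * (y⁻¹ * x * y) * z = (y * z)⁻¹ * x * (y * z) := by group
  rw [hy, h1]
  exact Nat.sInf_le ⟨y * z, rfl⟩

theorem CMin.mem {D : Set α} {c q : FreeGroup α} (hc : CMin c) (hc1 : c ≠ 1)
    (h : q⁻¹ * c * q ∈ FD D) : c ∈ FD D ∧ q ∈ FD D := by
  have h1 : (kill D q)⁻¹ * kill D c * kill D q = q⁻¹ * c * q := by
    have := mem_FD.1 h
    rwa [map_mul, map_mul, map_inv] at this
  set g := q * (kill D q)⁻¹ with hg
  have h2 : g⁻¹ * c * g = kill D c := by
    have : g⁻¹ * c * g = kill D q * (q⁻¹ * c * q) * (kill D q)⁻¹ := by rw [hg]; group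
    rw [this, ← h1]; group
  have h3 : FreeGroup.norm c ≤ FreeGroup.norm (kill D c) := by rw [← h2]; exact hc g
  have h4 : c ∈ FD D := mem_FD_of_norm_kill (le_antisymm (norm_kill_le D c) h3)
  refine ⟨h4, ?_⟩
  have h5 : g ∈ FD D := FD_malnormal' h4 hc1 (by rw [h2]; exact kill_mem D c)
  have h6 : q = g * kill D q := by rw [hg]; group
  rw [h6]
  exact mul_mem h5 (kill_mem D q)

end Kill

section Map

variable {α β : Type} [DecidableEq α] [DecidableEq β]

theorem toWord_map {f : α → β} (hf : Function.Injective f) (x : FreeGroup α) :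
    (map f x).toWord = x.toWord.map (fun a => (f a.1, a.2)) := by
  have h1 : map f x = mk (x.toWord.map (fun a => (f a.1, a.2))) := by
    conv_lhs => rw [← mk_toWord (x := x)]
    rw [map.mk]
  rw [h1, toWord_mk, FreeGroup.IsReduced.reduce_eq]
  rw [FreeGroup.IsReduced, List.isChain_map]
  have h2 : FreeGroup.IsReduced x.toWord := isReduced_toWord
  rw [FreeGroup.IsReduced] at h2
  exact h2.imp (fun a b hab h => hab (hf h))

theorem norm_map {f : α → β} (hf : Function.Injective f) (x : FreeGroup α) :
    FreeGroup.norm (map f x) = FreeGroup.norm x := by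
  rw [FreeGroup.norm, toWord_map hf, List.length_map]; rfl

theorem map_mem_FD {f : α → β} (hf : Function.Injective f) {D : Set α} {E : Set β}
    (h : ∀ a ∈ D, f a ∈ E) {x : FreeGroup α} (hx : x ∈ FD D) : map f x ∈ FD E := by
  rw [mem_FD_iff, toWord_map hf]
  intro b hb
  obtain ⟨a, ha, rfl⟩ := List.mem_map.1 hb
  exact h _ (mem_FD_iff.1 hx a ha)

theorem map_mem_FD_range {f : α → β} (hf : Function.Injective f) (x : FreeGroup α) :
    map f x ∈ FD (Set.range f) := by
  rw [mem_FD_iff, toWord_map hf]
  intro b hb
  obtain ⟨a, ha, rfl⟩ := List.mem_map.1 hb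
  exact ⟨_, rfl⟩

omit [DecidableEq α] in
theorem exists_map_of_mem_FD {f : α → β} {x : FreeGroup β}
    (hx : x ∈ FD (Set.range f)) : ∃ y : FreeGroup α, map f y = x := by
  have h1 : ∀ L : List (β × Bool), (∀ a ∈ L, a.1 ∈ Set.range f) →
      ∃ y : FreeGroup α, map f y = mk L := by
    intro L
    induction L with
    | nil => intro _; exact ⟨1, by rw [map_one]; rfl⟩
    | cons a L ih =>
      intro h
      obtain ⟨y, hy⟩ := ih (fun b hb => h b (List.mem_cons_of_mem _ hb))
      obtain ⟨b, hb⟩ := h a List.mem_cons_self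
      refine ⟨mk [(b, a.2)] * y, ?_⟩
      rw [map_mul, hy, map.mk, mul_mk]
      simp [hb]
  obtain ⟨y, hy⟩ := h1 x.toWord (mem_FD_iff.1 hx)
  exact ⟨y, by rw [hy, mk_toWord]⟩

theorem CMin.map_equiv {f : α ≃ β} {c : FreeGroup α} (hc : CMin c) : CMin (map f c) := by
  intro y
  obtain ⟨z, rfl⟩ := map_surjective f.surjective y
  rw [← map_inv, ← map_mul, ← map_mul, norm_map f.injective, norm_map f.injective]
  exact hc z

end Map

section Suffix

variable {α : Type} [DecidableEq α]

/-- the last `n` letters of the reduced word -/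
def suf (n : ℕ) (x : FreeGroup α) : List (α × Bool) := x.toWord.drop (FreeGroup.norm x - n)

theorem suf_length {n : ℕ} {x : FreeGroup α} (h : n ≤ FreeGroup.norm x) : (suf n x).length = n := by
  rw [suf, List.length_drop]
  have : x.toWord.length = FreeGroup.norm x := rfl
  omega

theorem suf_mem {n : ℕ} {x : FreeGroup α} {a : α × Bool} (h : a ∈ suf n x) : a ∈ x.toWord :=
  List.mem_of_mem_drop h

theorem mk_suf_mem_FD {D : Set α} {n : ℕ} {x : FreeGroup α} (h : x ∈ FD D) :
    (mk (suf n x) : FreeGroup α) ∈ FD D := by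
  rw [mem_FD_iff]
  intro a ha
  rw [toWord_mk] at ha
  have : a ∈ suf n x := by
    have h1 := (reduce.red (L := suf n x)).sublist
    exact h1.subset ha
  exact mem_FD_iff.1 h a (suf_mem this)

theorem mk_suf_of_le {n : ℕ} {x : FreeGroup α} (h : FreeGroup.norm x ≤ n) :
    (mk (suf n x) : FreeGroup α) = x := by
  rw [suf, Nat.sub_eq_zero_of_le h, List.drop_zero, mk_toWord]

/-- left multiplication by one letter -/
theorem toWord_letter_mul (a : α × Bool) (x : FreeGroup α) :
    (∃ L, x.toWord = (a.1, !a.2) :: L ∧ (mk [a] * x).toWord = L) ∨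
      (mk [a] * x).toWord = a :: x.toWord := by
  have h1 : (mk [a] * x).toWord = reduce (a :: x.toWord) := by
    rw [toWord_mul, toWord_mk, reduce_singleton]; rfl
  rw [h1]
  have h2 := reduce.cons a (L := x.toWord)
  rw [reduce_toWord] at h2
  cases hx : x.toWord with
  | nil => right; rw [reduce_singleton]
  | cons b L =>
    rw [hx] at h2
    simp only at h2
    by_cases hab : a.1 = b.1 ∧ a.2 = !b.2
    · left
      refine ⟨L, ?_, ?_⟩
      · rcases a with ⟨a1, a2⟩
        rcases b with ⟨b1, b2⟩
        simp only at hab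
        rw [hab.1, hab.2]; simp
      · rw [h2, if_pos hab]
    · right
      rw [h2, if_neg hab]

theorem suf_letter_mul {n : ℕ} (a : α × Bool) (x : FreeGroup α) (h : n + 1 ≤ FreeGroup.norm x) :
    suf n (mk [a] * x) = suf n x := by
  rcases toWord_letter_mul a x with ⟨L, hL1, hL2⟩ | h1
  · have h3 : FreeGroup.norm x = L.length + 1 := by rw [FreeGroup.norm, hL1]; rfl
    have h4 : FreeGroup.norm (mk [a] * x) = L.length := by rw [FreeGroup.norm, hL2]
    rw [suf, suf, h3, h4, hL1, hL2]
    have : L.length + 1 - n = (L.length - n) + 1 := by omega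
    rw [this, List.drop_succ_cons]
  · have h4 : FreeGroup.norm (mk [a] * x) = FreeGroup.norm x + 1 := by rw [FreeGroup.norm, h1]; rfl
    rw [suf, suf, h4, h1]
    have : FreeGroup.norm x + 1 - n = (FreeGroup.norm x - n) + 1 := by omega
    rw [this, List.drop_succ_cons]

theorem norm_letter_mul (a : α × Bool) (x : FreeGroup α) :
    FreeGroup.norm x ≤ FreeGroup.norm (mk [a] * x) + 1 := by
  rcases toWord_letter_mul a x with ⟨L, hL1, hL2⟩ | h1
  · have h3 : FreeGroup.norm x = L.length + 1 := by rw [FreeGroup.norm, hL1]; rfl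
    have h4 : FreeGroup.norm (mk [a] * x) = L.length := by rw [FreeGroup.norm, hL2]
    omega
  · have h4 : FreeGroup.norm (mk [a] * x) = FreeGroup.norm x + 1 := by rw [FreeGroup.norm, h1]; rfl
    omega

theorem suf_mul_aux (L : List (α × Bool)) : ∀ (n : ℕ) (x : FreeGroup α),
    n + L.length ≤ FreeGroup.norm x → suf n (mk L * x) = suf n x ∧ FreeGroup.norm x ≤ FreeGroup.norm (mk L * x) + L.length := by
  induction L with
  | nil =>
    intro n x h
    have : (mk [] : FreeGroup α) * x = x := by
      rw [← one_eq_mk, one_mul]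
    rw [this]; simp
  | cons a L ih =>
    intro n x h
    have h0 : (mk (a :: L) : FreeGroup α) * x = mk [a] * (mk L * x) := by
      rw [← mul_assoc, mul_mk]; rfl
    rw [List.length_cons] at h
    obtain ⟨h1, h2⟩ := ih n x (by omega)
    rw [h0]
    have h3 := norm_letter_mul a (mk L * x)
    refine ⟨?_, ?_⟩
    · rw [suf_letter_mul a _ (by omega), h1]
    · rw [List.length_cons]; omega

theorem suf_mul {n : ℕ} (p x : FreeGroup α) (h : n + FreeGroup.norm p ≤ FreeGroup.norm x) :
    suf n (p * x) = suf n x := by
  have := (suf_mul_aux p.toWord n x h).1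
  rwa [mk_toWord] at this

/-- suffixes of a common word differ by few letters -/
theorem suf_split {n m : ℕ} (x : FreeGroup α) (h : n ≤ m) (hm : m ≤ FreeGroup.norm x) :
    ∃ L : List (α × Bool), L.length = m - n ∧ (∀ a ∈ L, a ∈ x.toWord) ∧
      suf m x = L ++ suf n x := by
  refine ⟨(suf m x).take (m - n), ?_, ?_, ?_⟩
  · rw [List.length_take, suf_length hm]; omega
  · intro a ha
    exact suf_mem (List.mem_of_mem_take ha)
  · have : suf n x = (suf m x).drop (m - n) := by
      rw [suf, suf, List.drop_drop]
      congr 1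
      omega
    rw [this, List.take_append_drop]

end Suffix

end Morse284
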