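import Pool.Agent.Morse284.Disc2
import Pool.Agent.Morse284.Defs

/-!
From the discrete local-to-global property of a group to the property of a metric space
coarsely identified with the group.
-/

namespace Morse284

open NNReal

variable {G : Type} [Group G] {X : Type} [PseudoMetricSpace X]

/-- a coarse identification of a metric space with a group -/
structure Model (E : FGen G) (X : Type) [PseudoMetricSpace X] where
  ι : G → X
  π : X → G
  hι : ∀ g h, dist (ι g) (ι h) = E.dd g h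
  hπ : ∀ x, dist x (ι (π x)) ≤ 1

/-- constant of the discretised test path -/
noncomputable def mtK (R k c : ℝ) : ℕ := ⌈k * (2 * (R + 1) + c) + 1 + k + c + 2 * (R + 1)⌉₊

/-- the transferred gauge -/
noncomputable def mtM (R : ℝ) (N : ℕ → ℕ) (k c : ℝ) : ℝ≥0 :=
  Real.toNNReal (k + c + (R + 1) + N (mtK R k c) + R)

namespace Model

variable {E : FGen G} (Y : Model E X)

theorem morseOn {R : ℝ} (hR : 0 ≤ R) {N : ℕ → ℕ} {p : ℕ → G} {n : ℕ}
    (hM : E.Mor2 N p n) {f : ℝ → X} {a b : ℝ}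
    (h1 : ∀ s ∈ Set.Icc a b, ∃ j, j ≤ n ∧ dist (f s) (Y.ι (p j)) ≤ R)
    (h2 : ∀ j, j ≤ n → ∃ s ∈ Set.Icc a b, dist (Y.ι (p j)) (f s) ≤ R) :
    MorseOn (mtM R N) f a b := by
  rintro k c hk hc h a' b' hab hQ ⟨s1, hs1, e1⟩ ⟨s2, hs2, e2⟩ t ht
  obtain ⟨j1, hj1, d1⟩ := h1 s1 hs1
  obtain ⟨j2, hj2, d2⟩ := h1 s2 hs2
  obtain ⟨m, hmdef⟩ : ∃ m, m = ⌈b' - a'⌉₊ := ⟨_, rfl⟩
  have hm : b' - a' ≤ m := by rw [hmdef]; exact Nat.le_ceil _
  have hm' : (m : ℝ) < b' - a' + 1 := by rw [hmdef]; exact Nat.ceil_lt_add_one (by linarith)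
  let u : ℕ → ℝ := fun i => min (a' + i) b'
  have hu : ∀ i, u i ∈ Set.Icc a' b' := by
    intro i
    refine ⟨le_min ?_ hab, min_le_right _ _⟩
    have : (0 : ℝ) ≤ i := Nat.cast_nonneg i
    linarith
  have hu0 : u 0 = a' := by simp [u, hab]
  have hum : u m = b' := by
    have : b' ≤ a' + m := by linarith
    simp [u, this]
  have hul : ∀ i l, i + l ≤ m → (l : ℝ) - 1 ≤ u (i + l) - u i ∧ u (i + l) - u i ≤ l ∧
      0 ≤ u (i + l) - u i := by
    intro i l hil
    have c1 : ((i + l : ℕ) : ℝ) = i + l := by push_cast; ring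
    have c2 : ((i + l : ℕ) : ℝ) ≤ m := by exact_mod_cast hil
    have c3 : (0 : ℝ) ≤ l := Nat.cast_nonneg l
    have c4 : (0 : ℝ) ≤ i := Nat.cast_nonneg i
    simp only [u]
    rw [c1] at *
    rcases le_total (a' + (i + l)) b' with g | g
    · rw [min_eq_left g, min_eq_left (by linarith)]
      refine ⟨by linarith, by linarith, by linarith⟩
    · rw [min_eq_right g]
      have := min_le_left (a' + (i : ℝ)) b'
      have h3 := min_le_right (a' + (i : ℝ)) b'
      refine ⟨by linarith, ?_, by linarith⟩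
      rcases le_total (a' + (i : ℝ)) b' with g' | g'
      · rw [min_eq_left g']; linarith
      · rw [min_eq_right g']; linarith
  rcases Nat.eq_zero_or_pos m with hm0 | hm0
  · have : t = a' := by
      rw [hm0] at hm
      have := ht.1
      have := ht.2
      simp at hm
      linarith
    refine ⟨s1, hs1, ?_⟩
    rw [this, e1, dist_self]
    exact NNReal.coe_nonneg _
  let q : ℕ → G := fun i => if i = 0 then p j1 else if i = m then p j2 else Y.π (h (u i))
  have q0 : q 0 = p j1 := by simp [q]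
  have qm : q m = p j2 := by
    have : m ≠ 0 := by omega
    simp [q, this]
  have hq : ∀ i, i ≤ m → dist (h (u i)) (Y.ι (q i)) ≤ R + 1 := by
    intro i hi
    by_cases hi0 : i = 0
    · rw [hi0, q0, hu0, ← e1]; linarith
    · by_cases him : i = m
      · rw [him, qm, hum, ← e2]; linarith
      · have : q i = Y.π (h (u i)) := by simp [q, hi0, him]
        rw [this]
        have := Y.hπ (h (u i))
        linarith
  have hK : k * (2 * (R + 1) + c) + 1 + k + c + 2 * (R + 1) ≤ (mtK R k c : ℝ) := Nat.le_ceil _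
  have hkR : 0 ≤ k * (2 * (R + 1) + c) := by positivity
  have hT : E.Test (mtK R k c) m q := by
    intro i l hil
    obtain ⟨g1, g2⟩ := hQ (u (i + l)) (hu _) (u i) (hu _)
    obtain ⟨v1, v2, v3⟩ := hul i l hil
    rw [abs_of_nonneg v3] at g1 g2
    have w1 := hq i (by omega)
    have w2 := hq (i + l) hil
    have w3 := Y.hι (q i) (q (i + l))
    have w4 : dist (Y.ι (q i)) (Y.ι (q (i + l))) ≤
        dist (h (u (i + l))) (h (u i)) + 2 * (R + 1) := by
      have := dist_triangle4 (Y.ι (q i)) (h (u i)) (h (u (i + l))) (Y.ι (q (i + l)))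
      rw [dist_comm (Y.ι (q i)) (h (u i)), dist_comm (h (u i)) (h (u (i + l)))] at this
      linarith
    have w5 : dist (h (u (i + l))) (h (u i)) ≤
        dist (Y.ι (q i)) (Y.ι (q (i + l))) + 2 * (R + 1) := by
      have := dist_triangle4 (h (u (i + l))) (Y.ι (q (i + l))) (Y.ι (q i)) (h (u i))
      rw [dist_comm (Y.ι (q i)) (h (u i)), dist_comm (Y.ι (q (i + l))) (Y.ι (q i))] at this
      linarith
    rw [w3] at w4 w5
    have c3 : (0 : ℝ) ≤ l := Nat.cast_nonneg l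
    have c5 : (0 : ℝ) ≤ E.dd (q i) (q (i + l)) := Nat.cast_nonneg _
    constructor
    · have : (E.dd (q i) (q (i + l)) : ℝ) ≤ mtK R k c * l + mtK R k c := by
        have x1 : k * (u (i + l) - u i) ≤ k * l := by
          apply mul_le_mul_of_nonneg_left v2; linarith
        have x2 : k * l ≤ mtK R k c * l := by
          apply mul_le_mul_of_nonneg_right _ c3; linarith
        linarith
      exact_mod_cast this
    · have : (l : ℝ) ≤ mtK R k c * E.dd (q i) (q (i + l)) + mtK R k c := by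
        have x1 : (u (i + l) - u i) / k ≤ E.dd (q i) (q (i + l)) + (2 * (R + 1) + c) := by
          linarith
        rw [div_le_iff₀ (by linarith)] at x1
        have x2 : k * E.dd (q i) (q (i + l)) ≤ mtK R k c * E.dd (q i) (q (i + l)) := by
          apply mul_le_mul_of_nonneg_right _ c5; linarith
        nlinarith
      exact_mod_cast this
  have ht0 : 0 ≤ t - a' := by linarith [ht.1]
  have hi : ⌊t - a'⌋₊ ≤ m := by
    have : (⌊t - a'⌋₊ : ℝ) ≤ m := (Nat.floor_le ht0).trans (by linarith [ht.2])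
    exact_mod_cast this
  obtain ⟨s, hs, hs'⟩ := hM _ m q hT j1 j2 hj1 hj2 q0 qm ⌊t - a'⌋₊ hi
  obtain ⟨s', hs1', hs2'⟩ := h2 s hs
  refine ⟨s', hs1', ?_⟩
  have y1 : u ⌊t - a'⌋₊ = a' + ⌊t - a'⌋₊ := by
    have := Nat.floor_le ht0
    simp only [u]
    rw [min_eq_left (by linarith [ht.2])]
  have y2 : |t - u ⌊t - a'⌋₊| ≤ 1 := by
    rw [y1, abs_le]
    have := Nat.floor_le ht0
    have := Nat.lt_floor_add_one (t - a')
    constructor <;> linarith
  have y3 := (hQ t ht (u ⌊t - a'⌋₊) (hu _)).2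
  have y4 : k * |t - u ⌊t - a'⌋₊| ≤ k * 1 := mul_le_mul_of_nonneg_left y2 (by linarith)
  have y5 := hq _ hi
  have y6 := Y.hι (q ⌊t - a'⌋₊) (p s)
  have y7 : (E.dd (q ⌊t - a'⌋₊) (p s) : ℝ) ≤ N (mtK R k c) := by exact_mod_cast hs'
  have y8 := dist_triangle4 (h t) (h (u ⌊t - a'⌋₊)) (Y.ι (q ⌊t - a'⌋₊)) (Y.ι (p s))
  have y9 := dist_triangle (h t) (Y.ι (p s)) (f s')
  rw [mtM]
  refine le_trans ?_ (Real.le_coe_toNNReal _)
  linarith

end Model

theorem exists_index {θ : ℕ → ℝ} {a b : ℕ} (hab : a ≤ b) (hθ : ∀ j, θ (j + 1) ≤ θ j + 1) {t : ℝ}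
    (h1 : θ a ≤ t) (h2 : t ≤ θ b) : ∃ j, a ≤ j ∧ j ≤ b ∧ θ j ≤ t ∧ t ≤ θ j + 1 := by
  induction b, hab using Nat.le_induction with
  | base => exact ⟨a, le_rfl, le_rfl, h1, by linarith⟩
  | succ b hab ih =>
    by_cases h : t ≤ θ b
    · obtain ⟨j, g1, g2, g3, g4⟩ := ih h
      exact ⟨j, g1, by omega, g3, g4⟩
    · push Not at h
      exact ⟨b, hab, by omega, h.le, h2.trans (hθ b)⟩

namespace Model

variable {E : FGen G} (Y : Model E X)

/-- discrete Morse property of the discretisation on a window -/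
theorem disc_mor {M : ℝ → ℝ → ℝ≥0} {f : ℝ → X} {θ : ℕ → ℝ} {p : ℕ → G} {R D : ℕ} {k c : ℝ}
    (hk : 1 ≤ k) (hkc : k + c ≤ D) (hθ : ∀ j, θ (j + 1) ≤ θ j + 1)
    (hmono : ∀ i j, i ≤ j → θ i ≤ θ j) (hθp : ∀ j, dist (f (θ j)) (Y.ι (p j)) ≤ R) {a1 b1 : ℕ}
    (hab : a1 ≤ b1) (hQ : QGeo k c f (θ a1) (θ b1)) (hM : MorseOn M f (θ a1) (θ b1)) :
    E.Mor (fun K => ⌈(M (K + 1) (2 * K + 2 * R + 1) : ℝ)⌉₊ + (2 * R + D)) p a1 b1 := by
  intro K m r hr i j hi hij hj h0 hm t ht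
  rcases Nat.eq_zero_or_pos m with hm0 | hm0
  · have : t = 0 := by omega
    refine ⟨i, hi, by omega, ?_⟩
    rw [this, h0, E.dd_self]; exact Nat.zero_le _
  have hmR : (0 : ℝ) < m := by exact_mod_cast hm0
  let h : ℝ → X := fun x => if x = 0 then f (θ i) else if x = m then f (θ j) else Y.ι (r ⌊x⌋₊)
  have e0 : h 0 = f (θ i) := by simp [h]
  have em : h m = f (θ j) := by simp [h, hmR.ne']
  have hR0 : (0 : ℝ) ≤ R := Nat.cast_nonneg _
  have hK0 : (0 : ℝ) ≤ K := Nat.cast_nonneg _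
  have hh : ∀ x ∈ Set.Icc (0 : ℝ) m, dist (h x) (Y.ι (r ⌊x⌋₊)) ≤ R := by
    intro x hx
    by_cases hx0 : x = 0
    · rw [hx0, e0, Nat.floor_zero, h0]; exact hθp i
    · by_cases hxm : x = m
      · rw [hxm, em, Nat.floor_natCast, hm]; exact hθp j
      · have : h x = Y.ι (r ⌊x⌋₊) := by simp [h, hx0, hxm]
        rw [this, dist_self]; exact hR0
  have hstep : ∀ x ∈ Set.Icc (0 : ℝ) m, ∀ y ∈ Set.Icc (0 : ℝ) m, x ≤ y →
      (E.dd (r ⌊x⌋₊) (r ⌊y⌋₊) : ℝ) ≤ K * (y - x) + 2 * K ∧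
      (y - x) ≤ (K + 1) * E.dd (r ⌊x⌋₊) (r ⌊y⌋₊) + (K + 1) := by
    intro x hx y hy hxy
    have f1 : ⌊x⌋₊ ≤ ⌊y⌋₊ := Nat.floor_mono hxy
    have f2 : ⌊y⌋₊ ≤ m := by
      have : (⌊y⌋₊ : ℝ) ≤ m := (Nat.floor_le hy.1).trans hy.2
      exact_mod_cast this
    obtain ⟨g1, g2⟩ := hr ⌊x⌋₊ (⌊y⌋₊ - ⌊x⌋₊) (by omega)
    have e : ⌊x⌋₊ + (⌊y⌋₊ - ⌊x⌋₊) = ⌊y⌋₊ := by omega
    rw [e] at g1 g2
    have g1' : (E.dd (r ⌊x⌋₊) (r ⌊y⌋₊) : ℝ) ≤ K * ((⌊y⌋₊ : ℝ) - ⌊x⌋₊) + K := by
      rw [← Nat.cast_sub f1]; exact_mod_cast g1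
    have g2' : ((⌊y⌋₊ : ℝ) - ⌊x⌋₊) ≤ K * E.dd (r ⌊x⌋₊) (r ⌊y⌋₊) + K := by
      rw [← Nat.cast_sub f1]; exact_mod_cast g2
    have x1 := Nat.floor_le hx.1
    have x2 := Nat.lt_floor_add_one x
    have y1 := Nat.floor_le hy.1
    have y2 := Nat.lt_floor_add_one y
    have c5 : (0 : ℝ) ≤ E.dd (r ⌊x⌋₊) (r ⌊y⌋₊) := Nat.cast_nonneg _
    constructor
    · have : K * ((⌊y⌋₊ : ℝ) - ⌊x⌋₊) ≤ K * ((y - x) + 1) :=
        mul_le_mul_of_nonneg_left (by linarith) hK0
      linarith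
    · linarith
  have hQh : QGeo (K + 1 : ℝ) (2 * K + 2 * R + 1) h 0 m := by
    have key : ∀ x ∈ Set.Icc (0 : ℝ) m, ∀ y ∈ Set.Icc (0 : ℝ) m, x ≤ y →
        |x - y| / (K + 1) - (2 * K + 2 * R + 1) ≤ dist (h x) (h y) ∧
        dist (h x) (h y) ≤ (K + 1) * |x - y| + (2 * K + 2 * R + 1) := by
      intro x hx y hy hxy
      obtain ⟨s1, s2⟩ := hstep x hx y hy hxy
      have t1 := hh x hx
      have t2 := hh y hy
      have t3 := Y.hι (r ⌊x⌋₊) (r ⌊y⌋₊)
      have t4 := dist_triangle4 (h x) (Y.ι (r ⌊x⌋₊)) (Y.ι (r ⌊y⌋₊)) (h y)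
      have t5 := dist_triangle4 (Y.ι (r ⌊x⌋₊)) (h x) (h y) (Y.ι (r ⌊y⌋₊))
      rw [dist_comm (Y.ι (r ⌊y⌋₊)) (h y)] at t4
      rw [dist_comm (Y.ι (r ⌊x⌋₊)) (h x)] at t5
      have a1 : |x - y| = y - x := by rw [abs_sub_comm, abs_of_nonneg (by linarith)]
      rw [a1]
      constructor
      · have : (y - x) / (K + 1) ≤ E.dd (r ⌊x⌋₊) (r ⌊y⌋₊) + 1 := by
          rw [div_le_iff₀ (by linarith)]; linarith
        linarith
      · linarith
    intro x hx y hy
    rcases le_total x y with hxy | hxy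
    · exact key x hx y hy hxy
    · have := key y hy x hx hxy
      rw [abs_sub_comm, dist_comm] at this
      exact this
  obtain ⟨s, hs, hs'⟩ := hM (K + 1) (2 * K + 2 * R + 1) (by linarith) (by positivity) h 0 m hmR.le
    hQh ⟨θ i, ⟨hmono _ _ hi, hmono _ _ (by omega)⟩, e0.symm⟩
    ⟨θ j, ⟨hmono _ _ (by omega), hmono _ _ hj⟩, em.symm⟩ t
    ⟨Nat.cast_nonneg _, by exact_mod_cast ht⟩
  obtain ⟨j', g1, g2, g3, g4⟩ := exists_index hab hθ hs.1 hs.2
  refine ⟨j', g1, g2, ?_⟩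
  have z1 := hh t ⟨Nat.cast_nonneg _, by exact_mod_cast ht⟩
  rw [Nat.floor_natCast] at z1
  have z2 := (hQ s hs (θ j') ⟨hmono _ _ g1, hmono _ _ g2⟩).2
  have z3 : |s - θ j'| ≤ 1 := by
    rw [abs_le]; constructor <;> linarith
  have z4 : k * |s - θ j'| ≤ k * 1 := mul_le_mul_of_nonneg_left z3 (by linarith)
  have z5 := hθp j'
  have z6 := Y.hι (r t) (p j')
  have z7 := dist_triangle4 (Y.ι (r t)) (h t) (f s) (f (θ j'))
  have z8 := dist_triangle (Y.ι (r t)) (f (θ j')) (Y.ι (p j'))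
  rw [dist_comm (Y.ι (r t)) (h t)] at z7
  have z9 := Nat.le_ceil (M (K + 1) (2 * K + 2 * R + 1) : ℝ)
  have : (E.dd (r t) (p j') : ℝ) ≤
      ((⌈(M (K + 1) (2 * K + 2 * R + 1) : ℝ)⌉₊ + (2 * R + D) : ℕ) : ℝ) := by
    push_cast
    linarith
  exact_mod_cast this

include Y in
/-- the transfer theorem -/
theorem mltg (core : ∀ (K : ℕ) (N : ℕ → ℕ), ∃ (L K' : ℕ) (N' : ℕ → ℕ), ∀ (p : ℕ → G) (n : ℕ),
      E.Unit1 p → (∀ a b, a ≤ b → b ≤ n → b ≤ a + L → E.QG K p a b ∧ E.Mor N p a b) →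
      E.QG K' p 0 n ∧ E.Mor N' p 0 n) : MLTG X := by
  intro M k c hk hc
  obtain ⟨D, hDdef⟩ : ∃ D, D = ⌈k + c⌉₊ + 2 := ⟨_, rfl⟩
  have hD : k + c + 2 ≤ D := by
    rw [hDdef]; push_cast; linarith [Nat.le_ceil (k + c)]
  have hD0 : 0 < D := by omega
  have hDR : (0 : ℝ) < D := by exact_mod_cast hD0
  obtain ⟨K0, hK0def⟩ : ∃ K0, K0 = ⌈(D : ℝ) * (k * (2 * D + 2 + c) + 2)⌉₊ + ⌈(D : ℝ) * k⌉₊ :=
    ⟨_, rfl⟩
  have hK0a : (D : ℝ) * (k * (2 * D + 2 + c) + 2) ≤ K0 := by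
    rw [hK0def]; push_cast
    have := Nat.le_ceil ((D : ℝ) * (k * (2 * D + 2 + c) + 2))
    have h3 : (0 : ℝ) ≤ (⌈(D : ℝ) * k⌉₊ : ℝ) := Nat.cast_nonneg _
    linarith
  have hK0b : (D : ℝ) * k ≤ K0 := by
    rw [hK0def]; push_cast
    have := Nat.le_ceil ((D : ℝ) * k)
    have h3 : (0 : ℝ) ≤ (⌈(D : ℝ) * (k * (2 * D + 2 + c) + 2)⌉₊ : ℝ) := Nat.cast_nonneg _
    linarith
  obtain ⟨L, K', N', hcore⟩ := core K0
    (fun K => ⌈(M (K + 1) (2 * K + 2 * ((D + 1 : ℕ) : ℝ) + 1) : ℝ)⌉₊ + (2 * (D + 1) + D))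
  refine ⟨L + 1, mtM (2 * D + 1) N', D + K' + 1, 10 * D + 10, by positivity, ?_, by positivity, ?_⟩
  · have : (0 : ℝ) ≤ K' := Nat.cast_nonneg _
    linarith
  intro f a b hab hloc
  -- the discretisation
  let θ : ℕ → ℝ := fun j => min (a + ((j / D : ℕ) : ℝ)) b
  have hθI : ∀ j, θ j ∈ Set.Icc a b := by
    intro j
    refine ⟨le_min ?_ hab, min_le_right _ _⟩
    have : (0 : ℝ) ≤ ((j / D : ℕ) : ℝ) := Nat.cast_nonneg _
    linarith
  have hmono : ∀ i j, i ≤ j → θ i ≤ θ j := by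
    intro i j hij
    apply min_le_min_right
    have : ((i / D : ℕ) : ℝ) ≤ ((j / D : ℕ) : ℝ) := by
      exact_mod_cast Nat.div_le_div_right hij
    linarith
  have hθ1 : ∀ j, θ (j + 1) ≤ θ j + 1 := by
    intro j
    have h1 : (j + 1) / D ≤ j / D + 1 := by
      calc (j + 1) / D ≤ (j + D) / D := Nat.div_le_div_right (by omega)
        _ = j / D + 1 := Nat.add_div_right _ hD0
    have h2 : (((j + 1) / D : ℕ) : ℝ) ≤ ((j / D : ℕ) : ℝ) + 1 := by exact_mod_cast h1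
    simp only [θ]
    rw [← min_add_add_right]
    apply min_le_min <;> linarith
  have hθk : ∀ i l, θ (i + l) ≤ θ i + l := by
    intro i l
    induction l with
    | zero => simp
    | succ l ih =>
      have := hθ1 (i + l)
      rw [← Nat.add_assoc]
      push_cast
      linarith
  let r : ℕ → G := fun i => Y.π (f (min (a + i) b))
  have hnear : ∀ s ∈ Set.Icc a b, ∀ t ∈ Set.Icc a b, s ≤ t → t ≤ s + 1 →
      dist (f s) (f t) ≤ k + c := by
    intro s hs t ht h1 h2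
    have h3 : (0 : ℝ) ≤ L := Nat.cast_nonneg _
    obtain ⟨h4, _⟩ := hloc s t hs.1 h1 ht.2 (by linarith)
    have h5 := (h4 s ⟨le_rfl, h1⟩ t ⟨h1, le_rfl⟩).2
    have h6 : |s - t| ≤ 1 := by rw [abs_le]; constructor <;> linarith
    have h7 : k * |s - t| ≤ k * 1 := mul_le_mul_of_nonneg_left h6 (by linarith)
    linarith
  have hr : ∀ i, E.dd (r i) (r (i + 1)) ≤ D := by
    intro i
    have i0 : (0 : ℝ) ≤ i := Nat.cast_nonneg _
    have c1 : (((i + 1 : ℕ)) : ℝ) = i + 1 := by push_cast; ring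
    have h1 := hnear (min (a + i) b) ⟨le_min (by linarith) hab, min_le_right _ _⟩
      (min (a + (i + 1 : ℕ)) b) ⟨le_min (by linarith) hab, min_le_right _ _⟩
      (min_le_min_right _ (by linarith)) (by
        rw [← min_add_add_right]
        apply min_le_min <;> linarith)
    have h2 := Y.hπ (f (min (a + i) b))
    have h3 := Y.hπ (f (min (a + (i + 1 : ℕ)) b))
    have h4 := Y.hι (r i) (r (i + 1))
    have h5 := dist_triangle4 (Y.ι (r i)) (f (min (a + i) b)) (f (min (a + (i + 1 : ℕ)) b))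
      (Y.ι (r (i + 1)))
    rw [dist_comm (Y.ι (r i)) (f (min (a + i) b))] at h5
    have h6 : dist (f (min (a + i) b)) (Y.ι (r i)) ≤ 1 := h2
    have h7 : dist (f (min (a + (i + 1 : ℕ)) b)) (Y.ι (r (i + 1))) ≤ 1 := h3
    have : (E.dd (r i) (r (i + 1)) : ℝ) ≤ D := by linarith
    exact_mod_cast this
  obtain ⟨p, hp1, hp2, hp3⟩ := E.exists_interp hD0 hr
  have hθp : ∀ j, dist (f (θ j)) (Y.ι (p j)) ≤ ((D + 1 : ℕ) : ℝ) := by
    intro j
    have h1 : dist (f (θ j)) (Y.ι (r (j / D))) ≤ 1 := Y.hπ (f (θ j))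
    have h2 := Y.hι (r (j / D)) (p j)
    have h3 : (E.dd (r (j / D)) (p j) : ℝ) ≤ D := by
      have := (hp3 j).trans (Nat.mod_lt j hD0).le
      exact_mod_cast this
    have h4 := dist_triangle (f (θ j)) (Y.ι (r (j / D))) (Y.ι (p j))
    push_cast
    linarith
  obtain ⟨n, hn⟩ : ∃ n, n = D * ⌈b - a⌉₊ := ⟨_, rfl⟩
  have hθ0 : θ 0 = a := by simp [θ, hab]
  have hθn : θ n = b := by
    have h1 : n / D = ⌈b - a⌉₊ := by rw [hn, Nat.mul_div_cancel_left _ hD0]
    have h2 := Nat.le_ceil (b - a)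
    simp only [θ, h1]
    rw [min_eq_right (by linarith)]
  have hθlow : ∀ i l, i + l ≤ n → (l : ℝ) ≤ D * (θ (i + l) - θ i + 2) := by
    intro i l hil
    have h1 : θ i ≤ a + ((i / D : ℕ) : ℝ) := min_le_left _ _
    have h2 : a + (((i + l) / D : ℕ) : ℝ) - 1 ≤ θ (i + l) := by
      apply le_min
      · linarith
      · have h3 : (i + l) / D ≤ ⌈b - a⌉₊ := by
          have := Nat.div_le_div_right (c := D) hil
          rwa [hn, Nat.mul_div_cancel_left _ hD0] at this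
        have h4 : (((i + l) / D : ℕ) : ℝ) ≤ (⌈b - a⌉₊ : ℝ) := by exact_mod_cast h3
        have h5 : (⌈b - a⌉₊ : ℝ) < b - a + 1 := Nat.ceil_lt_add_one (by linarith)
        linarith
    have h3 : i + l < D * ((i + l) / D + 1) := by
      have := Nat.div_add_mod (i + l) D
      have := Nat.mod_lt (i + l) hD0
      rw [Nat.mul_add]
      omega
    have h4 : D * (i / D) ≤ i := Nat.mul_div_le i D
    have h3' : (i : ℝ) + l ≤ D * ((((i + l) / D : ℕ) : ℝ) + 1) := by exact_mod_cast h3.le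
    have h4' : (D : ℝ) * ((i / D : ℕ) : ℝ) ≤ i := by exact_mod_cast h4
    have h5 : (D : ℝ) * ((((i + l) / D : ℕ) : ℝ) - ((i / D : ℕ) : ℝ) + 1) ≤
        D * (θ (i + l) - θ i + 2) := mul_le_mul_of_nonneg_left (by linarith) hDR.le
    nlinarith
  obtain ⟨hG1, hG2⟩ := hcore p n hp1 (by
    intro a1 b1 h1 h2 h3
    have h4 : θ b1 - θ a1 ≤ L + 1 := by
      have := hθk a1 (b1 - a1)
      have e : a1 + (b1 - a1) = b1 := by omega
      rw [e] at this
      have h5 : ((b1 - a1 : ℕ) : ℝ) ≤ L := by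
        have : b1 - a1 ≤ L := by omega
        exact_mod_cast this
      linarith
    obtain ⟨h5, h6⟩ := hloc (θ a1) (θ b1) (hθI _).1 (hmono _ _ h1) (hθI _).2 h4
    constructor
    · intro i l hi hil
      have g1 := hθlow i l (by omega)
      have g2 := (h5 (θ (i + l)) ⟨hmono _ _ (by omega), hmono _ _ hil⟩ (θ i)
        ⟨hmono _ _ hi, hmono _ _ (by omega)⟩).1
      rw [abs_of_nonneg (by linarith [hmono i (i + l) (by omega)])] at g2
      have g3 := hθp i
      have g4 := hθp (i + l)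
      have g5 := Y.hι (p i) (p (i + l))
      have g6 := dist_triangle4 (f (θ (i + l))) (Y.ι (p (i + l))) (Y.ι (p i)) (f (θ i))
      rw [dist_comm (Y.ι (p i)) (f (θ i)), dist_comm (Y.ι (p (i + l))) (Y.ι (p i))] at g6
      push_cast at g3 g4
      have g7 : (θ (i + l) - θ i) / k ≤ E.dd (p i) (p (i + l)) + (2 * D + 2 + c) := by linarith
      rw [div_le_iff₀ (by linarith)] at g7
      have g8 : (D : ℝ) * (θ (i + l) - θ i + 2) ≤
          D * ((E.dd (p i) (p (i + l)) + (2 * D + 2 + c)) * k + 2) :=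
        mul_le_mul_of_nonneg_left (by linarith) hDR.le
      have c5 : (0 : ℝ) ≤ E.dd (p i) (p (i + l)) := Nat.cast_nonneg _
      have g9 : (D : ℝ) * k * E.dd (p i) (p (i + l)) ≤ K0 * E.dd (p i) (p (i + l)) :=
        mul_le_mul_of_nonneg_right hK0b c5
      have : (l : ℝ) ≤ K0 * E.dd (p i) (p (i + l)) + K0 := by nlinarith
      exact_mod_cast this
    · exact Y.disc_mor (R := D + 1) hk (by linarith) hθ1 hmono hθp h1 h5 h6)
  have hidx : ∀ s ∈ Set.Icc a b, ∃ j, j ≤ n ∧ θ j ≤ s ∧ s ≤ θ j + 1 := by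
    intro s hs
    obtain ⟨j, _, g2, g3, g4⟩ := exists_index (Nat.zero_le n) hθ1 (t := s)
      (by rw [hθ0]; exact hs.1) (by rw [hθn]; exact hs.2)
    exact ⟨j, g2, g3, g4⟩
  have hidx2 : ∀ s ∈ Set.Icc a b, ∀ j, θ j ≤ s → s ≤ θ j + 1 →
      dist (f s) (Y.ι (p j)) ≤ 2 * D + 1 := by
    intro s hs j h1 h2
    have h3 := hnear (θ j) (hθI j) s hs h1 h2
    have h4 := hθp j
    have h5 := dist_triangle (f s) (f (θ j)) (Y.ι (p j))
    rw [dist_comm (f s) (f (θ j))] at h5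
    push_cast at h4
    linarith
  constructor
  · have key : ∀ s ∈ Set.Icc a b, ∀ t ∈ Set.Icc a b, s ≤ t →
        |s - t| / (D + K' + 1) - (10 * D + 10) ≤ dist (f s) (f t) ∧
        dist (f s) (f t) ≤ (D + K' + 1) * |s - t| + (10 * D + 10) := by
      intro s hs t ht hst
      obtain ⟨i, i1, i2, i3⟩ := hidx s hs
      obtain ⟨j, j1, j2, j3⟩ := hidx t ht
      have d1 := hidx2 s hs i i2 i3
      have d2 := hidx2 t ht j j2 j3
      have d3 := Y.hι (p i) (p j)
      have d4 := dist_triangle4 (f s) (Y.ι (p i)) (Y.ι (p j)) (f t)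
      rw [dist_comm (Y.ι (p j)) (f t)] at d4
      have d5 := dist_triangle4 (Y.ι (p i)) (f s) (f t) (Y.ι (p j))
      rw [dist_comm (Y.ι (p i)) (f s)] at d5
      have a1 : |s - t| = t - s := by rw [abs_sub_comm, abs_of_nonneg (by linarith)]
      rw [a1]
      have K'0 : (0 : ℝ) ≤ K' := Nat.cast_nonneg _
      have hd0 : (0 : ℝ) ≤ E.dd (p i) (p j) := Nat.cast_nonneg _
      have hb : (E.dd (p i) (p j) : ℝ) ≤ D * ((t - s) + 3) ∧
          t - s ≤ (K' : ℝ) * E.dd (p i) (p j) + K' + 1 := by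
        rcases le_total i j with hij | hij
        · have e : i + (j - i) = j := by omega
          have g1 := hp1.dd_le' hij
          have g2 := hθlow i (j - i) (by omega)
          have g3 := hG1 i (j - i) (Nat.zero_le _) (by omega)
          have g4 := hθk i (j - i)
          rw [e] at g2 g3 g4
          have g1' : (E.dd (p i) (p j) : ℝ) ≤ ((j - i : ℕ) : ℝ) := by exact_mod_cast g1
          have g3' : ((j - i : ℕ) : ℝ) ≤ K' * E.dd (p i) (p j) + K' := by exact_mod_cast g3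
          have g5 : (D : ℝ) * (θ j - θ i + 2) ≤ D * ((t - s) + 3) :=
            mul_le_mul_of_nonneg_left (by linarith) hDR.le
          constructor
          · linarith
          · linarith
        · have e : j + (i - j) = i := by omega
          have g1 := hp1.dd_le' hij
          rw [E.dd_comm] at g1
          have g2 := hθlow j (i - j) (by omega)
          rw [e] at g2
          have g1' : (E.dd (p i) (p j) : ℝ) ≤ ((i - j : ℕ) : ℝ) := by exact_mod_cast g1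
          have g4 := hmono _ _ hij
          have g5 : (D : ℝ) * (θ i - θ j + 2) ≤ D * ((t - s) + 3) :=
            mul_le_mul_of_nonneg_left (by linarith) hDR.le
          constructor
          · linarith
          · nlinarith
      obtain ⟨hb1, hb2⟩ := hb
      have q1 : (0 : ℝ) < D + K' + 1 := by linarith
      constructor
      · have : (t - s) / (D + K' + 1) ≤ E.dd (p i) (p j) + 1 := by
          rw [div_le_iff₀ q1]
          nlinarith
        linarith
      · have : (D : ℝ) * (t - s) ≤ (D + K' + 1) * (t - s) := by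
          apply mul_le_mul_of_nonneg_right _ (by linarith); linarith
        nlinarith
    intro x hx y hy
    rcases le_total x y with hxy | hxy
    · exact key x hx y hy hxy
    · have := key y hy x hx hxy
      rw [abs_sub_comm, dist_comm] at this
      exact this
  · refine Y.morseOn (by positivity) hG2.mor2 ?_ ?_
    · intro s hs
      obtain ⟨j, j1, j2, j3⟩ := hidx s hs
      exact ⟨j, j1, hidx2 s hs j j2 j3⟩
    · intro j hj
      refine ⟨θ j, hθI j, ?_⟩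
      rw [dist_comm]
      have := hθp j
      push_cast at this
      linarith

end Model

end Morse284
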