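import Pool.Agent.Morse284.MainDefs
import Pool.Agent.Morse284.Transfer
import Pool.Agent.Morse284.Elts

/-!
Geodesics of the Cayley graph, and Morse elements.
-/

namespace Morse284

open Filter Topology NNReal

variable {G : Type} [Group G]

theorem Cay.dist_mk {E : FGen G} (p q : CayPt E) :
    dist (SeparationQuotient.mk p : Cay E) (SeparationQuotient.mk q) = dist p q := rfl

theorem Cay.dist_vtx (E : FGen G) (g h : G) : dist (Cay.vtx E g) (Cay.vtx E h) = E.dd g h :=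
  CayPt.dist_vtx_vtx g h

/-- the Cayley graph is modelled on the group -/
noncomputable def cayModel (E : FGen G) : Model E (Cay E) where
  ι := Cay.vtx E
  π x := (Function.surjInv SeparationQuotient.surjective_mk x).v
  hι := Cay.dist_vtx E
  hπ x := by
    obtain ⟨p, hp⟩ : ∃ p, p = Function.surjInv (SeparationQuotient.surjective_mk) x := ⟨_, rfl⟩
    have h1 : SeparationQuotient.mk p = x := by
      rw [hp]; exact Function.surjInv_eq _ x
    rw [← hp, ← h1]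
    exact (CayPt.dist_vtx_left p).trans p.x1

/-- realisation of a discrete geodesic -/
theorem real_geod (E : FGen G) {α : ℕ → G} (h1 : E.Unit1 α) {l : ℕ} (hl : E.dd (α 0) (α l) = l) :
    ∃ f : ℝ → Cay E, Geod f l ∧ (∀ j : ℕ, f j = Cay.vtx E (α j)) ∧
      ∀ s ∈ Set.Icc (0 : ℝ) l, ∃ j : ℕ, j ≤ l ∧ dist (f s) (Cay.vtx E (α j)) ≤ 1 := by
  choose e e1 e2 e3 using fun i => CayPt.exists_edge (E := E) (h1 i)
  let f : ℝ → Cay E := fun t => SeparationQuotient.mk (e ⌊t⌋₊ (t - ⌊t⌋₊))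
  have hfj : ∀ j : ℕ, f j = Cay.vtx E (α j) := by
    intro j
    have : dist (f j) (Cay.vtx E (α j)) = 0 := by
      simp only [f, Nat.floor_natCast, sub_self]
      exact e2 j
    exact dist_eq_zero.1 this
  have hfr : ∀ t : ℝ, 0 ≤ t → t - ⌊t⌋₊ ∈ Set.Icc (0 : ℝ) 1 := by
    intro t ht
    have a1 := Nat.floor_le ht
    have a2 := Nat.lt_floor_add_one t
    constructor <;> linarith
  have hlow : ∀ t : ℝ, 0 ≤ t → dist (f t) (Cay.vtx E (α ⌊t⌋₊)) ≤ t - ⌊t⌋₊ := by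
    intro t ht
    have a1 := e1 ⌊t⌋₊ (t - ⌊t⌋₊) (hfr t ht) 0 ⟨le_rfl, zero_le_one⟩
    have a2 := dist_triangle (e ⌊t⌋₊ (t - ⌊t⌋₊)) (e ⌊t⌋₊ 0) (CayPt.vtx (α ⌊t⌋₊))
    rw [e2] at a2
    rw [sub_zero, abs_of_nonneg (hfr t ht).1] at a1
    change dist (e ⌊t⌋₊ (t - ⌊t⌋₊)) (CayPt.vtx (α ⌊t⌋₊)) ≤ _
    linarith
  have hup : ∀ t : ℝ, 0 ≤ t → dist (f t) (Cay.vtx E (α (⌊t⌋₊ + 1))) ≤ ⌊t⌋₊ + 1 - t := by
    intro t ht
    have a1 := e1 ⌊t⌋₊ (t - ⌊t⌋₊) (hfr t ht) 1 ⟨zero_le_one, le_rfl⟩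
    have a2 := dist_triangle (e ⌊t⌋₊ (t - ⌊t⌋₊)) (e ⌊t⌋₊ 1) (CayPt.vtx (α (⌊t⌋₊ + 1)))
    rw [e3] at a2
    rw [abs_sub_comm, abs_of_nonneg (by linarith [(hfr t ht).2])] at a1
    change dist (e ⌊t⌋₊ (t - ⌊t⌋₊)) (CayPt.vtx (α (⌊t⌋₊ + 1))) ≤ _
    linarith
  have hlip : ∀ s t : ℝ, 0 ≤ s → s ≤ t → dist (f s) (f t) ≤ t - s := by
    intro s t hs hst
    have ht := hs.trans hst
    have hfl : ⌊s⌋₊ ≤ ⌊t⌋₊ := Nat.floor_mono hst
    rcases Nat.eq_or_lt_of_le hfl with h | h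
    · have a1 := e1 ⌊s⌋₊ (s - ⌊s⌋₊) (hfr s hs) (t - ⌊s⌋₊) (by rw [h]; exact hfr t ht)
      have a2 : |s - ⌊s⌋₊ - (t - ⌊s⌋₊)| = t - s := by
        rw [show s - ⌊s⌋₊ - (t - ⌊s⌋₊) = -(t - s) by ring, abs_neg, abs_of_nonneg (by linarith)]
      rw [a2] at a1
      have a3 : f t = SeparationQuotient.mk (e ⌊s⌋₊ (t - ⌊s⌋₊)) := by simp only [f, h]
      rw [a3]
      exact a1
    · have a1 := hup s hs
      have a2 := hlow t ht
      have a3 := Cay.dist_vtx E (α (⌊s⌋₊ + 1)) (α ⌊t⌋₊)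
      have a4 := h1.dd_le' (a := ⌊s⌋₊ + 1) (b := ⌊t⌋₊) h
      have a5 : (E.dd (α (⌊s⌋₊ + 1)) (α ⌊t⌋₊) : ℝ) ≤ ⌊t⌋₊ - (⌊s⌋₊ + 1) := by
        have : ((⌊t⌋₊ - (⌊s⌋₊ + 1) : ℕ) : ℝ) = (⌊t⌋₊ : ℝ) - (⌊s⌋₊ + 1) := by
          rw [Nat.cast_sub h]; push_cast; ring
        rw [← this]
        exact_mod_cast a4
      have a6 := dist_triangle4 (f s) (Cay.vtx E (α (⌊s⌋₊ + 1))) (Cay.vtx E (α ⌊t⌋₊)) (f t)
      rw [dist_comm (Cay.vtx E (α ⌊t⌋₊)) (f t)] at a6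
      linarith
  have hends : dist (f 0) (f l) = l := by
    have h0 := hfj 0
    rw [Nat.cast_zero] at h0
    rw [h0, hfj l, Cay.dist_vtx, hl]
  have hgeo : ∀ s t : ℝ, 0 ≤ s → s ≤ t → t ≤ l → dist (f s) (f t) = t - s := by
    intro s t hs hst htl
    apply le_antisymm (hlip s t hs hst)
    have a1 := hlip 0 s le_rfl hs
    have a2 := hlip t l (hs.trans hst) htl
    have a3 := dist_triangle4 (f 0) (f s) (f t) (f l)
    linarith
  refine ⟨f, ⟨Nat.cast_nonneg _, ?_⟩, hfj, ?_⟩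
  · intro s hs t ht
    rcases le_total s t with h | h
    · rw [hgeo s t hs.1 h ht.2, abs_sub_comm, abs_of_nonneg (by linarith)]
    · rw [dist_comm, hgeo t s ht.1 h hs.2, abs_of_nonneg (by linarith)]
  · intro s hs
    refine ⟨⌊s⌋₊, ?_, (hlow s hs.1).trans (hfr s hs.1).2⟩
    have : (⌊s⌋₊ : ℝ) ≤ l := (Nat.floor_le hs.1).trans hs.2
    exact_mod_cast this

/-- a discrete Morse geodesic gives a Morse geodesic -/
theorem real_morse (E : FGen G) {α : ℕ → G} (h1 : E.Unit1 α) {l : ℕ}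
    (hl : E.dd (α 0) (α l) = l) {N : ℕ → ℕ} (hN : E.Mor2 N α l) :
    ∃ (f : ℝ → Cay E) (l' : ℝ), Geod f l' ∧ f 0 = Cay.vtx E (α 0) ∧
      f l' = Cay.vtx E (α l) ∧ MorseOn (mtM 1 N) f 0 l' := by
  obtain ⟨f, g1, g2, g3⟩ := real_geod E h1 hl
  refine ⟨f, l, g1, ?_, g2 l, ?_⟩
  · have := g2 0
    rwa [Nat.cast_zero] at this
  · apply (cayModel E).morseOn zero_le_one hN
    · exact g3
    · intro j hj
      refine ⟨j, ⟨Nat.cast_nonneg _, by exact_mod_cast hj⟩, ?_⟩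
      rw [g2 j]
      change dist (Cay.vtx E (α j)) (Cay.vtx E (α j)) ≤ 1
      rw [dist_self]; exact zero_le_one

theorem DMorse.morseElt {E : FGen G} {g : G} (h : DMorse E g) (C : ℕ)
    (hC : ∀ n : ℤ, n.natAbs ≤ C * E.len (g ^ n)) : MorseElt E g := by
  obtain ⟨N, hN⟩ := h
  refine ⟨mtM 1 N, ⟨C, fun n => ⟨n, rfl, hC n⟩⟩, ?_⟩
  rintro _ ⟨i, rfl⟩ _ ⟨j, rfl⟩
  simp only
  rcases le_total i j with hij | hij
  · obtain ⟨n, hn⟩ : ∃ n : ℕ, (n : ℤ) = j - i := ⟨(j - i).toNat, by omega⟩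
    obtain ⟨α, a1, a2, a3, a4⟩ := hN n
    have e : g ^ i * g ^ n = g ^ j := by
      rw [← zpow_natCast, ← zpow_add, hn]; congr 1; ring
    have := real_morse E (α := fun t => g ^ i * α t) (l := E.len (g ^ n)) (by
      intro t
      simp only
      rw [E.dd_mul_left]; exact a1 t) (by
      rw [E.dd_mul_left, a2, a3, E.dd_one_left]) (a4.mul_left (g ^ i))
    simp only [a2, a3, mul_one, e] at this
    exact this
  · obtain ⟨n, hn⟩ : ∃ n : ℕ, (n : ℤ) = i - j := ⟨(i - j).toNat, by omega⟩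
    obtain ⟨α, a1, a2, a3, a4⟩ := hN n
    have e : g ^ j * g ^ n = g ^ i := by
      rw [← zpow_natCast, ← zpow_add, hn]; congr 1; ring
    have := real_morse E (α := fun t => g ^ j * α (E.len (g ^ n) - t)) (l := E.len (g ^ n)) (by
      intro t
      simp only
      rw [E.dd_mul_left]
      by_cases ht : t < E.len (g ^ n)
      · have := a1 (E.len (g ^ n) - (t + 1))
        have e2 : E.len (g ^ n) - (t + 1) + 1 = E.len (g ^ n) - t := by omega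
        rw [e2, E.dd_comm] at this
        exact this
      · have e2 : E.len (g ^ n) - t = E.len (g ^ n) - (t + 1) := by omega
        rw [e2, E.dd_self]; omega) (by
      rw [E.dd_mul_left, Nat.sub_zero, Nat.sub_self, a2, a3, E.dd_comm, E.dd_one_left])
      (a4.rev.mul_left (g ^ j))
    simp only [a2, a3, mul_one, e, Nat.sub_zero, Nat.sub_self] at this
    exact this

end Morse284
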