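import Pool.Agent.Morse284.Hnn
import Pool.Agent.Morse284.Base
import Pool.Agent.Morse284.Core

/-!
The concrete group.
-/

namespace Morse284

open FreeGroup (of)

/-- the group `Q` -/
abbrev Q0 : Type := P0 × Multiplicative ℤ

/-- block lengths: at least two -/
structure Blk where
  m : ℕ → ℕ
  two : ∀ n, 2 ≤ m n

namespace Blk

variable (b : Blk)

theorem one (n : ℕ) : 1 ≤ b.m n := by have := b.two n; omega

/-- the embedding in `Q0` -/
noncomputable def PhQ : FreeGroup Al →* Q0 :=
  (MonoidHom.inl P0 (Multiplicative ℤ)).comp (SemidirectProduct.inl.comp (Ph0 b.m))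

theorem PhQ_apply (w : FreeGroup Al) : b.PhQ w = (SemidirectProduct.inl (Ph0 b.m w), 1) := rfl

theorem PhQ_inj : Function.Injective b.PhQ := by
  intro x y h
  rw [PhQ_apply, PhQ_apply, Prod.mk.injEq] at h
  exact Ph0_inj b.one (SemidirectProduct.inl_injective h.1)

/-- the subgroup `A` -/
noncomputable def A : Subgroup Q0 := (FD (DA b.m)).map b.PhQ

/-- the subgroup `B` -/
noncomputable def B : Subgroup Q0 := ((FD (DA b.m)).map (Sh 1)).map b.PhQ

theorem Sh_injective (k : ℤ) : Function.Injective (Sh k) := FreeGroup.map_injective (sh_inj k)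

/-- the isomorphism of the associated subgroups -/
noncomputable def φ : b.A ≃* b.B :=
  (Subgroup.equivMapOfInjective (FD (DA b.m)) b.PhQ b.PhQ_inj).symm.trans
    ((Subgroup.equivMapOfInjective (FD (DA b.m)) (Sh 1) (Sh_injective 1)).trans
      (Subgroup.equivMapOfInjective _ b.PhQ b.PhQ_inj))

theorem φ_apply (w : FreeGroup Al) (hw : w ∈ FD (DA b.m)) :
    ((b.φ ⟨b.PhQ w, Subgroup.mem_map_of_mem _ hw⟩ : b.B) : Q0) = b.PhQ (Sh 1 w) := by
  have h1 : (Subgroup.equivMapOfInjective (FD (DA b.m)) b.PhQ b.PhQ_inj).symm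
      ⟨b.PhQ w, Subgroup.mem_map_of_mem _ hw⟩ = ⟨w, hw⟩ := by
    rw [MulEquiv.symm_apply_eq]
    rfl
  exact congrArg (fun x => ((Subgroup.equivMapOfInjective ((FD (DA b.m)).map (Sh 1)) b.PhQ b.PhQ_inj
    ((Subgroup.equivMapOfInjective (FD (DA b.m)) (Sh 1) (Sh_injective 1)) x) :
      ((FD (DA b.m)).map (Sh 1)).map b.PhQ) : Q0)) h1

/-- the group `G` -/
abbrev GG : Type := HNNExtension Q0 b.A b.B b.φ

/-- the stable letter -/
noncomputable def tt : b.GG := HNNExtension.t

/-- base elements -/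
noncomputable def ofQ : Q0 →* b.GG := HNNExtension.of

theorem ofQ_inj : Function.Injective b.ofQ := HNNExtension.of_injective b.φ

/-- the free subgroup in `G` -/
noncomputable def Ph : FreeGroup Al →* b.GG := b.ofQ.comp b.PhQ

theorem Ph_inj : Function.Injective b.Ph := b.ofQ_inj.comp b.PhQ_inj

theorem t_Ph (w : FreeGroup Al) (hw : w ∈ FD (DA b.m)) :
    b.tt * b.Ph w = b.Ph (Sh 1 w) * b.tt := by
  have := HNNExtension.t_mul_of (φ := b.φ) ⟨b.PhQ w, Subgroup.mem_map_of_mem _ hw⟩
  rw [b.φ_apply w hw] at this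
  exact this

theorem Sh_Sh (j k : ℤ) (x : FreeGroup Al) : Sh j (Sh k x) = Sh (j + k) x := by
  have : (Sh j).comp (Sh k) = Sh (j + k) := by
    apply FreeGroup.ext_hom
    intro a
    rw [MonoidHom.comp_apply, Sh_of, Sh_of, Sh_of, sh_sh]
  exact DFunLike.congr_fun this x

theorem Sh_zero (x : FreeGroup Al) : Sh 0 x = x := by
  have : Sh 0 = MonoidHom.id _ := by
    apply FreeGroup.ext_hom
    intro a
    rw [Sh_of, sh_zero]; rfl
  rw [this]; rfl

theorem Sh_mem_DB {w : FreeGroup Al} (hw : w ∈ FD (DA b.m)) : Sh 1 w ∈ FD (DB b.m) := by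
  apply map_mem_FD (sh_inj 1) _ hw
  intro a ha n i hai
  rcases a with _ | ⟨n', i'⟩
  · simp [sh] at hai
  · have := ha n' i' rfl
    simp only [sh, Option.some.injEq, Prod.mk.injEq] at hai
    obtain ⟨rfl, rfl⟩ := hai
    omega

theorem Sh_mem_DA {w : FreeGroup Al} (hw : w ∈ FD (DB b.m)) : Sh (-1) w ∈ FD (DA b.m) := by
  apply map_mem_FD (sh_inj (-1)) _ hw
  intro a ha n i hai
  rcases a with _ | ⟨n', i'⟩
  · simp [sh] at hai
  · have := ha n' i' rfl
    simp only [sh, Option.some.injEq, Prod.mk.injEq] at hai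
    obtain ⟨rfl, rfl⟩ := hai
    omega

/-- the generators -/
noncomputable def ga : b.GG := b.ofQ (SemidirectProduct.inl (of ((0, 0) : X0)), 1)
noncomputable def gb : b.GG := b.ofQ (SemidirectProduct.inl (of ((0, 1) : X0)), 1)
noncomputable def ge : b.GG := b.ofQ (SemidirectProduct.inl (of ((0, 2) : X0)), 1)
noncomputable def gu : b.GG := b.ofQ (SemidirectProduct.inr (Multiplicative.ofAdd 1), 1)
noncomputable def gz : b.GG := b.ofQ (1, Multiplicative.ofAdd 1)

/-- the generating set -/
def SS : Set b.GG := {b.ga, b.gb, b.ge, b.gu, b.gz, b.tt}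

theorem gu_zpow (k : ℤ) :
    b.gu ^ k = b.ofQ (SemidirectProduct.inr (Multiplicative.ofAdd k), 1) := by
  rw [gu, ← map_zpow, Prod.pow_mk, one_zpow]
  congr 2
  rw [← map_zpow (SemidirectProduct.inr : Multiplicative ℤ →* P0), ← ofAdd_zsmul]
  simp

theorem gz_zpow (k : ℤ) : b.gz ^ k = b.ofQ (1, Multiplicative.ofAdd k) := by
  rw [gz, ← map_zpow, Prod.pow_mk, one_zpow]
  congr 2
  rw [← ofAdd_zsmul]
  simp

theorem inl_letter (i : ℤ) (c : Fin 3) :
    b.ofQ (SemidirectProduct.inl (of ((i, c) : X0)), 1) =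
      b.gu ^ i * b.ofQ (SemidirectProduct.inl (of ((0, c) : X0)), 1) * b.gu ^ (-i) := by
  rw [gu_zpow, gu_zpow, ← map_mul, ← map_mul]
  congr 1
  rw [Prod.mk_mul_mk, Prod.mk_mul_mk, mul_one, mul_one]
  congr 1
  rw [ofAdd_neg, ← SemidirectProduct.inl_aut, actF_apply, ShX_of]
  simp

/-- the generators of the base -/
def SQ : Set b.GG := {b.ga, b.gb, b.ge, b.gu, b.gz}

theorem letter_mem (i : ℤ) (c : Fin 3) :
    b.ofQ (SemidirectProduct.inl (of ((i, c) : X0)), 1) ∈ Subgroup.closure b.SQ := by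
  have hu : b.gu ∈ Subgroup.closure b.SQ := Subgroup.subset_closure (by simp [SQ])
  rw [inl_letter]
  apply mul_mem (mul_mem (zpow_mem hu _) _) (zpow_mem hu _)
  apply Subgroup.subset_closure
  fin_cases c
  · left; rfl
  · right; left; rfl
  · right; right; left; rfl

theorem ofQ_mem (q : Q0) : b.ofQ q ∈ Subgroup.closure b.SQ := by
  have hu : b.gu ∈ Subgroup.closure b.SQ := Subgroup.subset_closure (by simp [SQ])
  have hz : b.gz ∈ Subgroup.closure b.SQ := Subgroup.subset_closure (by simp [SQ])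
  have hF : ∀ f : FreeGroup X0, b.ofQ (SemidirectProduct.inl f, 1) ∈ Subgroup.closure b.SQ := by
    intro f
    induction f using FreeGroup.induction_on with
    | C1 =>
      have : b.ofQ (SemidirectProduct.inl (1 : FreeGroup X0), 1) = 1 := by
        rw [map_one]; exact map_one _
      rw [this]; exact one_mem _
    | of x =>
      rcases x with ⟨i, c⟩
      exact b.letter_mem i c
    | inv_of x hx =>
      have : b.ofQ (SemidirectProduct.inl (of x)⁻¹, 1) =
          (b.ofQ (SemidirectProduct.inl (of x), 1))⁻¹ := by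
        rw [← map_inv, Prod.inv_mk, inv_one, map_inv]
      exact this ▸ inv_mem hx
    | mul x y hx hy =>
      have : b.ofQ (SemidirectProduct.inl (x * y), 1) =
          b.ofQ (SemidirectProduct.inl x, 1) * b.ofQ (SemidirectProduct.inl y, 1) := by
        rw [← map_mul, Prod.mk_mul_mk, map_mul, mul_one]
      rw [this]; exact mul_mem hx hy
  have : b.ofQ q = b.ofQ (SemidirectProduct.inl q.1.left, 1) *
      b.gu ^ (Multiplicative.toAdd q.1.right) * b.gz ^ (Multiplicative.toAdd q.2) := by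
    rw [gu_zpow, gz_zpow, ← map_mul, ← map_mul]
    congr 1
    rw [Prod.mk_mul_mk, Prod.mk_mul_mk, ofAdd_toAdd, ofAdd_toAdd,
      SemidirectProduct.inl_left_mul_inr_right, mul_one, mul_one, one_mul]
  rw [this]
  exact mul_mem (mul_mem (hF _) (zpow_mem hu _)) (zpow_mem hz _)

theorem closure_SS : Subgroup.closure b.SS = ⊤ := by
  have ht : b.tt ∈ Subgroup.closure b.SS := Subgroup.subset_closure (by simp [SS])
  have hle : Subgroup.closure b.SQ ≤ Subgroup.closure b.SS := by
    apply Subgroup.closure_mono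
    rintro s (rfl | rfl | rfl | rfl | rfl) <;> simp [SS]
  rw [eq_top_iff]
  intro g _
  induction g using HNNExtension.induction_on with
  | of g => exact hle (b.ofQ_mem g)
  | t => exact ht
  | mul x y hx hy => exact mul_mem (hx trivial) (hy trivial)
  | inv x hx => exact inv_mem (hx trivial)

/-- the finite generating set -/
def EE : FGen b.GG where
  S := b.SS
  fin := by
    rw [SS]
    exact Set.toFinite _
  gen := b.closure_SS

/-- retraction killing the centre of the base -/
noncomputable def rho : b.GG →* b.GG :=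
  HNNExtension.lift (b.ofQ.comp ((MonoidHom.inl P0 (Multiplicative ℤ)).comp
    (MonoidHom.fst P0 (Multiplicative ℤ)))) b.tt (by
    rintro ⟨a, w, hw, rfl⟩
    have h1 := b.φ_apply w hw
    rw [h1]
    exact b.t_Ph w hw)

theorem rho_of (q : Q0) : b.rho (b.ofQ q) = b.ofQ (q.1, 1) := HNNExtension.lift_of _ _ _ _

theorem rho_t : b.rho b.tt = b.tt := HNNExtension.lift_t _ _ _

/-- homomorphisms to the integers from a homomorphism on the base which is compatible -/
noncomputable def toZ (f : Q0 →* Multiplicative ℤ) (c : Multiplicative ℤ)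
    (h : ∀ w ∈ FD (DA b.m), f (b.PhQ (Sh 1 w)) = f (b.PhQ w)) : b.GG →* Multiplicative ℤ :=
  HNNExtension.lift f c (by
    rintro ⟨a, w, hw, rfl⟩
    have h1 := b.φ_apply w hw
    rw [h1, h w hw, mul_comm])

theorem toZ_of (f : Q0 →* Multiplicative ℤ) (c : Multiplicative ℤ) (h) (q : Q0) :
    b.toZ f c h (b.ofQ q) = f q := HNNExtension.lift_of _ _ _ _

theorem toZ_t (f : Q0 →* Multiplicative ℤ) (c : Multiplicative ℤ) (h) :
    b.toZ f c h b.tt = c := HNNExtension.lift_t _ _ _

/-- the exponent of `z` -/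
noncomputable def zeH : b.GG →* Multiplicative ℤ :=
  b.toZ (MonoidHom.snd _ _) 1 (fun _ _ => rfl)

/-- the exponent of `t` -/
noncomputable def psH : b.GG →* Multiplicative ℤ :=
  b.toZ 1 (Multiplicative.ofAdd 1) (fun _ _ => rfl)

/-- the exponent of `u` -/
noncomputable def upH : b.GG →* Multiplicative ℤ :=
  b.toZ (SemidirectProduct.rightHom.comp (MonoidHom.fst _ _)) 1 (fun _ _ => by
    rw [MonoidHom.comp_apply, MonoidHom.comp_apply, PhQ_apply, PhQ_apply]
    rfl)

/-- the exponent of the letters of the third type in `F0` -/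
noncomputable def etF : FreeGroup X0 →* Multiplicative ℤ :=
  FreeGroup.lift (fun a => if a.2 = 2 then Multiplicative.ofAdd 1 else 1)

theorem etF_ShX (k : ℤ) (x : FreeGroup X0) : etF (ShX k x) = etF x := by
  have : etF.comp (ShX k) = etF := by
    apply FreeGroup.ext_hom
    intro a
    rw [MonoidHom.comp_apply, ShX_of]
    simp [etF]
  exact DFunLike.congr_fun this x

/-- the exponent of `e` on `P0` -/
noncomputable def etP : P0 →* Multiplicative ℤ :=
  SemidirectProduct.lift etF 1 (by
    intro g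
    apply MonoidHom.ext
    intro x
    rw [MonoidHom.comp_apply, MonoidHom.comp_apply]
    change etF (actF g x) = _
    rw [actF_apply, etF_ShX]
    simp)

theorem etF_Ph0_some (x : ℕ × ℤ) : etF (Ph0 b.m (of (some x))) = 1 := by
  have h1 : ∀ y : ℕ × ℤ, etF (iot b.m (of (some y))) = 1 := by
    intro y
    rw [iot_some, map_mul]
    simp [etF]
  have h2 : ∀ n j, etF (iot b.m (Wd n j)) = 1 := by
    intro n j
    induction j with
    | zero => simp [Wd]
    | succ j ih => rw [Wd, map_mul, map_mul, ih, h1, one_mul]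
  rcases x with ⟨n, i⟩
  rw [Ph0, MonoidHom.comp_apply]
  by_cases h : i = (b.m n : ℤ) - 1
  · rw [bet_last b.m n h, map_mul, map_mul, map_inv, map_inv, h2, h1]; rfl
  · rw [bet_other b.m n h, h1]

theorem etF_Ph0_Sh (w : FreeGroup Al) : etF (Ph0 b.m (Sh 1 w)) = etF (Ph0 b.m w) := by
  have : (etF.comp (Ph0 b.m)).comp (Sh 1) = etF.comp (Ph0 b.m) := by
    apply FreeGroup.ext_hom
    intro a
    rw [MonoidHom.comp_apply, Sh_of, MonoidHom.comp_apply, MonoidHom.comp_apply]
    rcases a with _ | ⟨n, i⟩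
    · rfl
    · simp only [sh]
      rw [etF_Ph0_some, etF_Ph0_some]
  exact DFunLike.congr_fun this w

/-- the exponent of `e` -/
noncomputable def etH : b.GG →* Multiplicative ℤ :=
  b.toZ (etP.comp (MonoidHom.fst _ _)) 1 (fun w _ => by
    rw [MonoidHom.comp_apply, MonoidHom.comp_apply, PhQ_apply, PhQ_apply]
    change etP (SemidirectProduct.inl _) = etP (SemidirectProduct.inl _)
    rw [etP, SemidirectProduct.lift_inl, SemidirectProduct.lift_inl, etF_Ph0_Sh])

end Blk

end Morse284
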