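import Pool.Agent.Morse284.Tree

/-!
Britton's lemma for HNN extensions, in terms of non-backtracking sequences of cosets.
-/

namespace Morse284

open HNNExtension

variable {Q0 : Type} [Group Q0] {A B : Subgroup Q0} {φ : A ≃* B}

/-- the base group inside the HNN extension -/
def bs (φ : A ≃* B) : Subgroup (HNNExtension Q0 A B φ) :=
  (HNNExtension.of : Q0 →* HNNExtension Q0 A B φ).range

theorem of_mem_bs (x : Q0) : (HNNExtension.of x : HNNExtension Q0 A B φ) ∈ bs φ := ⟨x, rfl⟩

/-- elements of the base conjugated into the base by the stable letter -/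
theorem mem_toSubgroup_of_conj (u : ℤˣ) (x : Q0)
    (h : (t : HNNExtension Q0 A B φ) ^ (u : ℤ) * HNNExtension.of x * t ^ (-(u : ℤ)) ∈ bs φ) :
    x ∈ toSubgroup A B u := by
  by_contra hx
  let w : NormalWord.ReducedWord Q0 A B :=
    { head := 1
      toList := [(u, x), (-u, 1)]
      chain := by
        rw [List.isChain_cons_cons]
        exact ⟨fun h => absurd h hx, List.isChain_singleton _⟩ }
  have h1 : w.prod φ = (t : HNNExtension Q0 A B φ) ^ (u : ℤ) * HNNExtension.of x *
      t ^ (-(u : ℤ)) := by
    simp [NormalWord.ReducedWord.prod, w, mul_assoc]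
  have h2 := ReducedWord.toList_eq_nil_of_mem_of_range φ w (by rw [h1]; exact h)
  simp [w] at h2

theorem conj_of_mem_toSubgroup (u : ℤˣ) (x : Q0) (h : x ∈ toSubgroup A B u) :
    (t : HNNExtension Q0 A B φ) ^ (u : ℤ) * HNNExtension.of x * t ^ (-(u : ℤ)) ∈ bs φ := by
  rcases Int.units_eq_one_or u with rfl | rfl
  · have := equiv_eq_conj (φ := φ) ⟨x, h⟩
    simp only [Units.val_one, zpow_one, zpow_neg]
    rw [← this]
    exact of_mem_bs _
  · have := equiv_symm_eq_conj (φ := φ) ⟨x, h⟩
    simp only [Units.val_neg, Units.val_one, zpow_neg, zpow_one, neg_neg]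
    rw [← this]
    exact of_mem_bs _

theorem br_hnn (v : ℕ → HNNExtension Q0 A B φ) (l : ℕ) (hl : 0 < l) (hv : NB (bs φ) t v l) :
    ¬ Co (bs φ) (v 0) (v l) := by
  classical
  intro hco
  -- choose representatives
  have hadj : ∀ r, ∃ (y : Q0) (u : ℤˣ), r < l →
      Co (bs φ) (v r * HNNExtension.of y * t ^ (u : ℤ)) (v (r + 1)) := by
    intro r
    by_cases hr : r < l
    · obtain ⟨x, ⟨y, rfl⟩, u, hu⟩ := hv.1 r hr
      exact ⟨y, u, fun _ => hu⟩
    · exact ⟨1, 1, fun h => absurd h hr⟩
  choose y u hyu using hadj
  -- partial products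
  have hex : ∃ (x : ℕ → Q0) (W : ℕ → HNNExtension Q0 A B φ), W 0 = 1 ∧
      (∀ r, W (r + 1) = W r * HNNExtension.of (x r) * t ^ (u r : ℤ)) ∧
      ∀ r, r ≤ l → Co (bs φ) (v 0 * W r) (v r) := by
    -- corrections
    have hstep : ∀ (r : ℕ) (W : HNNExtension Q0 A B φ), ∃ x : Q0,
        (r < l → Co (bs φ) (v 0 * W) (v r) →
          Co (bs φ) (v 0 * (W * HNNExtension.of x * t ^ (u r : ℤ))) (v (r + 1))) := by
      intro r W
      by_cases hr : r < l
      · by_cases hc : Co (bs φ) (v 0 * W) (v r)
        · obtain ⟨q, hq⟩ := hc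
          refine ⟨q * y r, fun _ _ => ?_⟩
          have h1 := hyu r hr
          have h2 : v 0 * (W * HNNExtension.of (q * y r) * t ^ (u r : ℤ)) =
              v r * HNNExtension.of (y r) * t ^ (u r : ℤ) := by
            rw [map_mul, hq]; group
          rw [h2]; exact h1
        · exact ⟨1, fun _ h => absurd h hc⟩
      · exact ⟨1, fun h => absurd h hr⟩
    choose X hX using hstep
    let W : ℕ → HNNExtension Q0 A B φ := fun r =>
      Nat.rec 1 (fun r W => W * HNNExtension.of (X r W) * t ^ (u r : ℤ)) r
    refine ⟨fun r => X r (W r), W, rfl, fun r => rfl, ?_⟩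
    intro r
    induction r with
    | zero =>
      intro _
      have : v 0 * W 0 = v 0 := mul_one _
      rw [this]; exact Co.refl _
    | succ r ih =>
      intro hr
      exact hX r (W r) (by omega) (ih (by omega))
  obtain ⟨x, W, hW0, hWs, hWv⟩ := hex
  let f : ℕ → ℤˣ × Q0 := fun r => (u r, if r + 1 < l then x (r + 1) else 1)
  let w : NormalWord.ReducedWord Q0 A B :=
    { head := x 0
      toList := (List.range l).map f
      chain := by
        rw [List.isChain_iff_getElem]
        intro r hr
        rw [List.length_map, List.length_range] at hr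
        rw [List.getElem_map, List.getElem_map, List.getElem_range, List.getElem_range]
        intro hmem
        simp only [f, if_pos hr] at hmem ⊢
        by_contra hne
        have hu : u (r + 1) = - u r := by
          rcases Int.units_eq_one_or (u r) with h1 | h1 <;>
          rcases Int.units_eq_one_or (u (r + 1)) with h2 | h2
          · rw [h1, h2] at hne; exact absurd rfl hne
          · rw [h1, h2]
          · rw [h1, h2]; rfl
          · rw [h1, h2] at hne; exact absurd rfl hne
        apply hv.2 r (by omega)
        have h1 := hWv r (by omega)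
        have h2 := hWv (r + 2) (by omega)
        have h3 : W (r + 2) = W r * (HNNExtension.of (x r) *
            (t ^ (u r : ℤ) * HNNExtension.of (x (r + 1)) * t ^ (-(u r : ℤ)))) := by
          rw [hWs (r + 1), hWs r, hu, Units.val_neg]; group
        refine (h1.symm.trans ?_).trans h2
        rw [Co, h3]
        have e : (v 0 * W r)⁻¹ * (v 0 * (W r * (HNNExtension.of (x r) *
            (t ^ (u r : ℤ) * HNNExtension.of (x (r + 1)) * t ^ (-(u r : ℤ)))))) =
            HNNExtension.of (x r) *
            (t ^ (u r : ℤ) * HNNExtension.of (x (r + 1)) * t ^ (-(u r : ℤ))) := by group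
        rw [e]
        exact mul_mem (of_mem_bs _) (conj_of_mem_toSubgroup _ _ hmem) }
  have hprod : ∀ n, n < l → HNNExtension.of (x 0) *
      (((List.range n).map f).map (fun x => (t : HNNExtension Q0 A B φ) ^ (x.1 : ℤ) *
        HNNExtension.of x.2)).prod = W n * HNNExtension.of (x n) := by
    intro n
    induction n with
    | zero => intro _; simp [hW0]
    | succ n ih =>
      intro hn
      rw [List.range_succ, List.map_append, List.map_append, List.prod_append, ← mul_assoc,
        ih (by omega)]
      simp only [List.map_cons, List.map_nil, List.prod_cons, List.prod_nil, mul_one, f, if_pos hn]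
      rw [hWs n]; group
  have hprodl : w.prod φ = W l := by
    obtain ⟨n, rfl⟩ : ∃ n, l = n + 1 := ⟨l - 1, by omega⟩
    have h1 := hprod n (by omega)
    rw [NormalWord.ReducedWord.prod]
    simp only [w]
    rw [List.range_succ, List.map_append, List.map_append, List.prod_append, ← mul_assoc, h1]
    simp only [List.map_cons, List.map_nil, List.prod_cons, List.prod_nil, mul_one, f,
      if_neg (lt_irrefl (n + 1)), map_one]
    rw [hWs n]
  have hWl : W l ∈ bs φ := by
    have h1 := hWv l le_rfl
    have h2 := hco.trans h1.symm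
    rw [Co, ← mul_assoc, inv_mul_cancel, one_mul] at h2
    exact h2
  have := ReducedWord.toList_eq_nil_of_mem_of_range φ w (by rw [hprodl]; exact hWl)
  simp only [w, List.map_eq_nil_iff, List.range_eq_nil] at this
  omega

end Morse284
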