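import Pool.Agent.Morse284.LemD

/-!
General test paths, and the vertex groups: Morse quasi-geodesics with end points in the same coset
of the base group are short.
-/

namespace Morse284

variable {G : Type} [Group G]

namespace TreeD

variable {E : FGen G} (D : TreeD E)

/-- Bounded returns and trivial windows give the Morse property on the window. -/
theorem mor_of (B ℓ : ℕ) (hℓ : 1 ≤ ℓ) : ∃ N : ℕ → ℕ, ∀ (p : ℕ → G) (a b : ℕ), E.Unit1 p →
    D.Ret B p a b →
    (∀ i j τ l, a ≤ i → i ≤ j → j ≤ b → D.Spine p i j τ l → TW D.Q ℓ (fun r => p (τ r)) l) →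
    E.Mor N p a b := by
  choose N0 hN0 using fun K => D.morse_unit B ℓ K hℓ
  refine ⟨fun K => N0 ((2 * K + 1) * K + (2 * K + 1) * (K * (2 * (2 * K + 1)) + K) + (2 * K + 1)),
    ?_⟩
  intro p a b hp hret htw K m r hr i j hai hij hjb h0 hm t ht
  obtain ⟨Dd, hDd⟩ : ∃ Dd, Dd = 2 * K + 1 := ⟨_, rfl⟩
  beta_reduce
  rw [← hDd]
  have hDpos : 0 < Dd := by omega
  let r' : ℕ → G := fun i => r (min i m)
  have hr' : ∀ i, E.dd (r' i) (r' (i + 1)) ≤ Dd := by
    intro i
    by_cases h : i < m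
    · have := (hr i 1 (by omega)).1
      simp only [r', min_eq_left (by omega : i ≤ m), min_eq_left (by omega : i + 1 ≤ m)]
      omega
    · simp only [r', min_eq_right (by omega : m ≤ i), min_eq_right (by omega : m ≤ i + 1)]
      rw [E.dd_self]; omega
  obtain ⟨η, h1, h2, h3⟩ := E.exists_interp hDpos hr'
  have key : ∀ x k, x + k ≤ Dd * m → k ≤ (Dd * K + Dd * (K * (2 * Dd) + K) + Dd) *
      E.dd (η x) (η (x + k)) + (Dd * K + Dd * (K * (2 * Dd) + K) + Dd) := by
    intro x k hk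
    have e1 := Nat.div_add_mod x Dd
    have e2 := Nat.div_add_mod (x + k) Dd
    have l1 := Nat.mod_lt x hDpos
    have l2 := Nat.mod_lt (x + k) hDpos
    have q1 : x / Dd ≤ (x + k) / Dd := Nat.div_le_div_right (by omega)
    have q2 : (x + k) / Dd ≤ m := by
      have := Nat.div_le_div_right (c := Dd) hk
      rwa [Nat.mul_div_cancel_left _ hDpos] at this
    obtain ⟨d, hd⟩ : ∃ d, (x + k) / Dd = x / Dd + d := ⟨(x + k) / Dd - x / Dd, by omega⟩
    rw [hd] at e2 q2
    have g1 := (hr (x / Dd) d q2).2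
    have g2 := h3 x
    have g3 := h3 (x + k)
    rw [hd] at g3
    have r1 : r' (x / Dd) = r (x / Dd) := by
      simp only [r', min_eq_left (by omega : x / Dd ≤ m)]
    have r2 : r' (x / Dd + d) = r (x / Dd + d) := by
      simp only [r', min_eq_left q2]
    rw [r1] at g2
    rw [r2] at g3
    have g4 := E.dd_tri (r (x / Dd)) (η x) (r (x / Dd + d))
    have g5 := E.dd_tri (η x) (η (x + k)) (r (x / Dd + d))
    rw [E.dd_comm (η (x + k))] at g5
    have g6 : E.dd (r (x / Dd)) (r (x / Dd + d)) ≤ E.dd (η x) (η (x + k)) + 2 * Dd := by omega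
    have g7 : d ≤ K * (E.dd (η x) (η (x + k)) + 2 * Dd) + K := by
      have := Nat.mul_le_mul_left K g6
      omega
    have g8 : k ≤ Dd * d + Dd := by
      have : Dd * (x / Dd + d) = Dd * (x / Dd) + Dd * d := by ring
      omega
    have g9 : Dd * d ≤ Dd * (K * (E.dd (η x) (η (x + k)) + 2 * Dd) + K) :=
      Nat.mul_le_mul_left _ g7
    nlinarith [Nat.zero_le (Dd * (K * (2 * Dd) + K) * E.dd (η x) (η (x + k))),
      Nat.zero_le (Dd * E.dd (η x) (η (x + k))), Nat.zero_le (Dd * K)]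
  have htop : η (Dd * m) = p j := by
    rw [h2]
    simp only [r', min_self]
    exact hm
  have hbot : η 0 = p i := by
    have := h2 0
    rw [Nat.mul_zero] at this
    rw [this]
    simp only [r', Nat.zero_min]
    exact h0
  obtain ⟨s, hs1, hs2, hs3⟩ := hN0 _ p i j hp (hret.mono hai hjb)
    (fun τ l hs => htw i j τ l hai hij hjb hs) hij η (Dd * m) h1 key hbot htop (Dd * t)
    (Nat.mul_le_mul_left _ ht)
  refine ⟨s, by omega, by omega, ?_⟩
  rw [h2] at hs3
  simp only [r', min_eq_left ht] at hs3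
  exact hs3

end TreeD

/-- The data of the HNN extension, with the centre of the base group. -/
structure DataA (E : FGen G) extends TreeD E where
  P : Subgroup G
  z : G
  e : G
  ρ : G →* G
  ζ : G → ℤ
  η : G → ℤ
  PQ : P ≤ Q
  zQ : z ∈ Q
  zcomm : ∀ q ∈ Q, q * z = z * q
  split : ∀ q ∈ Q, ∃ x ∈ P, ∃ s : ℤ, q = x * z ^ s
  ρP : ∀ x ∈ P, ρ x = x
  ρz : ρ z = 1
  ζ_mul : ∀ g h, ζ (g * h) = ζ g + ζ h
  η_mul : ∀ g h, η (g * h) = η g + η h
  ζz : ζ z = 1
  hz : ∀ s ∈ E.S, s = z ∨ (ζ s = 0 ∧ ρ s = s)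
  zS : z ∈ E.S
  eS : e ∈ E.S
  eP : e ∈ P
  ηe : η e = 1
  ηz : η z = 0
  hηζ : ∀ s ∈ E.S, (η s).natAbs + (ζ s).natAbs ≤ 1

namespace DataA

variable {E : FGen G} (D : DataA E)

theorem ζ_one : D.ζ 1 = 0 := by
  have := D.ζ_mul 1 1
  rw [one_mul] at this; omega

theorem η_one : D.η 1 = 0 := by
  have := D.η_mul 1 1
  rw [one_mul] at this; omega

theorem ζ_inv (g : G) : D.ζ g⁻¹ = - D.ζ g := by
  have := D.ζ_mul g g⁻¹
  rw [mul_inv_cancel, ζ_one] at this; omega

theorem η_inv (g : G) : D.η g⁻¹ = - D.η g := by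
  have := D.η_mul g g⁻¹
  rw [mul_inv_cancel, η_one] at this; omega

theorem ζ_pow (g : G) (n : ℕ) : D.ζ (g ^ n) = n * D.ζ g := by
  induction n with
  | zero => simp [ζ_one]
  | succ n ih => rw [pow_succ, D.ζ_mul, ih]; push_cast; ring

theorem η_pow (g : G) (n : ℕ) : D.η (g ^ n) = n * D.η g := by
  induction n with
  | zero => simp [η_one]
  | succ n ih => rw [pow_succ, D.η_mul, ih]; push_cast; ring

theorem ζ_zpow (g : G) (n : ℤ) : D.ζ (g ^ n) = n * D.ζ g := by
  rcases Int.eq_nat_or_neg n with ⟨m, rfl | rfl⟩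
  · rw [zpow_natCast, ζ_pow]
  · rw [zpow_neg, zpow_natCast, ζ_inv, ζ_pow]; ring

theorem η_zpow (g : G) (n : ℤ) : D.η (g ^ n) = n * D.η g := by
  rcases Int.eq_nat_or_neg n with ⟨m, rfl | rfl⟩
  · rw [zpow_natCast, η_pow]
  · rw [zpow_neg, zpow_natCast, η_inv, η_pow]; ring

theorem ρρ (g : G) : D.ρ (D.ρ g) = D.ρ g := by
  have hg : g ∈ Subgroup.closure E.S := by rw [E.gen]; trivial
  induction hg using Subgroup.closure_induction with
  | mem s hs =>
    rcases D.hz s hs with h | h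
    · rw [h, D.ρz, map_one]
    · rw [h.2, h.2]
  | one => rw [map_one, map_one]
  | mul x y _ _ hx hy => rw [map_mul, map_mul, hx, hy]
  | inv x _ hx => rw [map_inv, map_inv, hx]

theorem ζρ (g : G) : D.ζ (D.ρ g) = 0 := by
  have hg : g ∈ Subgroup.closure E.S := by rw [E.gen]; trivial
  induction hg using Subgroup.closure_induction with
  | mem s hs =>
    rcases D.hz s hs with h | h
    · rw [h, D.ρz, ζ_one]
    · rw [h.2, h.1]
  | one => rw [map_one, ζ_one]
  | mul x y _ _ hx hy => rw [map_mul, D.ζ_mul, hx, hy]; ring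
  | inv x _ hx => rw [map_inv, ζ_inv, hx]; ring

theorem ζP {x : G} (h : x ∈ D.P) : D.ζ x = 0 := by
  rw [← D.ρP x h, ζρ]

/-- lower bound for the length through `ρ` and `ζ` -/
theorem ρζ_le (g : G) : E.len (D.ρ g) + (D.ζ g).natAbs ≤ E.len g := by
  apply E.le_len (fun g => E.len (D.ρ g) + (D.ζ g).natAbs)
  · simp only [map_one, E.len_one, ζ_one]; rfl
  · intro g s hs
    have h1 := E.len_mul (D.ρ g) (D.ρ s)
    simp only [map_mul, D.ζ_mul]
    have h2 : E.len (D.ρ s) + (D.ζ s).natAbs ≤ 1 := by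
      rcases hs with hs | hs
      · rcases D.hz s hs with h | h
        · rw [h, D.ρz, D.ζz, E.len_one]; rfl
        · rw [h.1, h.2]
          have := E.len_gen (s := s) (Or.inl hs)
          omega
      · rcases D.hz _ hs with h | h
        · have e : s = D.z⁻¹ := by rw [← h, inv_inv]
          rw [e, map_inv, D.ρz, ζ_inv, D.ζz, inv_one, E.len_one]; rfl
        · rw [ζ_inv, map_inv, inv_inj] at h
          rw [h.2]
          have := E.len_gen (s := s) (Or.inr hs)
          have := h.1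
          omega
    omega

theorem ηζ_le (g : G) : (D.η g).natAbs + (D.ζ g).natAbs ≤ E.len g := by
  apply E.le_len (fun g => (D.η g).natAbs + (D.ζ g).natAbs)
  · simp only [η_one, ζ_one]; rfl
  · intro g s hs
    simp only [D.η_mul, D.ζ_mul]
    have h2 : (D.η s).natAbs + (D.ζ s).natAbs ≤ 1 := by
      rcases hs with hs | hs
      · exact D.hηζ s hs
      · have := D.hηζ _ hs
        rw [η_inv, ζ_inv, Int.natAbs_neg, Int.natAbs_neg] at this
        exact this
    omega

theorem len_z_pow (n : ℕ) : E.len (D.z ^ n) ≤ n := by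
  induction n with
  | zero => rw [pow_zero, E.len_one]
  | succ n ih =>
    rw [pow_succ]
    have := E.len_mul (D.z ^ n) D.z
    have := E.len_gen (s := D.z) (Or.inl D.zS)
    omega

theorem len_z_zpow (n : ℤ) : E.len (D.z ^ n) ≤ n.natAbs := by
  rcases Int.eq_nat_or_neg n with ⟨m, rfl | rfl⟩
  · rw [zpow_natCast]
    exact (D.len_z_pow m).trans (by simp)
  · rw [zpow_neg, zpow_natCast, E.len_inv]
    exact (D.len_z_pow m).trans (by simp)

theorem zcomm' {x : G} (hx : x ∈ D.Q) (s : ℤ) : x * D.z ^ s = D.z ^ s * x :=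
  ((show Commute x D.z from D.zcomm x hx).zpow_right s)

/-- hereditarily Morse quasi-geodesic on a window -/
def _root_.Morse284.FGen.HM (E : FGen G) (K : ℕ) (N : ℕ → ℕ) (p : ℕ → G) (a b : ℕ) : Prop :=
  E.QG K p a b ∧ ∀ i j, a ≤ i → i ≤ j → j ≤ b → E.Mor N p i j

/-- bound in Lemma A -/
def bA (K : ℕ) (N : ℕ → ℕ) : ℕ :=
  K * (FGen.slB N K 1 1 (FGen.slB N K 1 1 (N 1)) + FGen.slB N K 1 1 (N 1)) + K

theorem lemA {K : ℕ} {N : ℕ → ℕ} {p : ℕ → G} (hp : E.Unit1 p) {a b : ℕ} (hab : a ≤ b)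
    (hM : E.HM K N p a b) (hco : Co D.Q (p a) (p b)) : b ≤ a + bA K N := by
  obtain ⟨x, hx, s, hs⟩ := D.split _ hco
  obtain ⟨ε, hε, n, hn⟩ : ∃ ε : ℤ, ε.natAbs = 1 ∧ ∃ n : ℕ, s = ε * n := by
    rcases Int.eq_nat_or_neg s with ⟨m, rfl | rfl⟩
    · exact ⟨1, rfl, m, by ring⟩
    · exact ⟨-1, rfl, m, by ring⟩
  have hεmul : ∀ d : ℤ, (ε * d).natAbs = d.natAbs := by
    intro d; rw [Int.natAbs_mul, hε, one_mul]
  obtain ⟨α, h1, h2, h3⟩ := E.exists_path x
  obtain ⟨m, hm⟩ : ∃ m, m = E.len x := ⟨_, rfl⟩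
  let β : ℕ → G := fun j => D.ρ (α j)
  have hβ0 : β 0 = 1 := by simp only [β, h1, map_one]
  have hβm : β m = x := by simp only [β, h2 m (le_of_eq hm.symm), D.ρP x hx]
  have hβ1 : E.Unit1 β := by
    intro i
    have h4 := D.ρζ_le ((α i)⁻¹ * α (i + 1))
    have h5 := h3 i
    rw [E.dd_eq] at h5 ⊢
    simp only [β]
    rw [← map_inv, ← map_mul]
    omega
  have hβρ : ∀ j, D.ρ (β j) = β j := fun j => D.ρρ _
  have hβζ : ∀ j, D.ζ (β j) = 0 := fun j => D.ζρ _
  have hβgeo : ∀ j k, j + k ≤ m → k ≤ E.dd (β j) (β (j + k)) := by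
    intro j k hjk
    have g1 := hβ1.dd_le' (a := 0) (b := j) (by omega)
    have g2 := hβ1.dd_le' (a := j + k) (b := m) hjk
    have g3 := E.dd_tri (β 0) (β j) (β m)
    have g4 := E.dd_tri (β j) (β (j + k)) (β m)
    have g5 : E.dd (β 0) (β m) = m := by
      rw [hβ0, hβm, E.dd_one_left, hm]
    omega
  -- the first test path
  let r : ℕ → G := fun i => if i ≤ n then p a * D.z ^ (ε * i) else
    p a * D.z ^ s * β (i - n)
  have hr1 : ∀ i, i ≤ n → r i = p a * D.z ^ (ε * (i : ℤ)) := fun i hi => by simp [r, hi]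
  have hr2 : ∀ i, n ≤ i → r i = p a * D.z ^ s * β (i - n) := by
    intro i hi
    rcases Nat.lt_or_eq_of_le hi with h | h
    · simp [r, not_le.2 h]
    · rw [hr1 i (by omega), ← h, Nat.sub_self, hβ0, mul_one, hn]
  have hr1u : E.Unit1 r := by
    intro i
    rcases Nat.lt_or_ge i n with h | h
    · rw [hr1 i (by omega), hr1 (i + 1) (by omega), E.dd_mul_left, E.dd_eq]
      have e : (D.z ^ (ε * (i : ℤ)))⁻¹ * D.z ^ (ε * ((i + 1 : ℕ) : ℤ)) = D.z ^ ε := by
        rw [← zpow_neg, ← zpow_add]; congr 1; push_cast; ring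
      rw [e]
      exact (D.len_z_zpow ε).trans (by omega)
    · rw [hr2 i h, hr2 (i + 1) (by omega), E.dd_mul_left]
      have e : i + 1 - n = i - n + 1 := by omega
      rw [e]
      exact hβ1 _
  have hrlow : ∀ i k, i + k ≤ n + m → k ≤ E.dd (r i) (r (i + k)) := by
    intro i k hk
    by_cases h4 : i + k ≤ n
    · rw [hr1 i (by omega), hr1 (i + k) h4, E.dd_mul_left, E.dd_eq]
      have e : (D.z ^ (ε * (i : ℤ)))⁻¹ * D.z ^ (ε * ((i + k : ℕ) : ℤ)) = D.z ^ (ε * (k : ℤ)) := by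
        rw [← zpow_neg, ← zpow_add]; congr 1; push_cast; ring
      rw [e]
      have h5 := D.ρζ_le (D.z ^ (ε * (k : ℤ)))
      rw [ζ_zpow, D.ζz, mul_one, hεmul] at h5
      simp only [Int.natAbs_natCast] at h5
      omega
    · by_cases h5 : i ≤ n
      · rw [hr1 i h5, hr2 (i + k) (by omega), mul_assoc, E.dd_mul_left, E.dd_eq]
        have h6 := D.ρζ_le ((D.z ^ (ε * (i : ℤ)))⁻¹ * (D.z ^ s * β (i + k - n)))
        rw [D.ζ_mul, D.ζ_mul, ζ_inv, ζ_zpow, ζ_zpow, D.ζz, hβζ, map_mul, map_mul, map_inv,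
          map_zpow, map_zpow, D.ρz, one_zpow, one_zpow, inv_one, one_mul, one_mul, hβρ] at h6
        have h7 : E.len (β (i + k - n)) = E.dd (β 0) (β (0 + (i + k - n))) := by
          rw [hβ0, E.dd_one_left, Nat.zero_add]
        have h8 := hβgeo 0 (i + k - n) (by omega)
        have h9 : (-(ε * (i : ℤ) * 1) + (s * 1 + 0)).natAbs = n - i := by
          have : -(ε * (i : ℤ) * 1) + (s * 1 + 0) = ε * ((n : ℤ) - i) := by rw [hn]; ring
          rw [this, hεmul]; omega
        omega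
      · rw [hr2 i (by omega), hr2 (i + k) (by omega), E.dd_mul_left]
        have := hβgeo (i - n) k (by omega)
        have e : i - n + k = i + k - n := by omega
        rwa [e] at this
  have htest : E.Test 1 (n + m) r := by
    intro i k hk
    have h4 := hr1u.dd_le i k
    have h5 := hrlow i k hk
    omega
  have hr0 : r 0 = p a := by rw [hr1 0 (by omega)]; simp
  have hrm : r (n + m) = p b := by
    rw [hr2 _ (by omega), Nat.add_sub_cancel_left, hβm]
    have e : p b = p a * (x * D.z ^ s) := by rw [← hs]; group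
    rw [e, D.zcomm' (D.PQ hx) s, mul_assoc]
  obtain ⟨s1, hs1, hs2, hs3⟩ := (hM.2 a b le_rfl hab le_rfl) 1 (n + m) r htest a b le_rfl hab le_rfl
    hr0 hrm n (by omega)
  rw [hr1 n le_rfl, ← hn] at hs3
  -- first strip
  have hn0 : n ≤ FGen.slB N K 1 1 (N 1) := by
    apply FGen.strip (E := E) (p := p) (a := a) (b := s1)
      (F := fun i j => p a * D.e ^ i * D.z ^ (ε * (j : ℤ))) hp hs1
    · have := hM.1 a (s1 - a) le_rfl (by omega)
      have e : a + (s1 - a) = s1 := by omega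
      rw [e] at this; omega
    · exact hM.2 a s1 le_rfl hs1 hs2
    · intro i j _
      rw [E.dd_mul_left, E.dd_eq]
      have e : (D.z ^ (ε * (j : ℤ)))⁻¹ * D.z ^ (ε * ((j + 1 : ℕ) : ℤ)) = D.z ^ ε := by
        rw [← zpow_neg, ← zpow_add]; congr 1; push_cast; ring
      rw [e]
      exact (D.len_z_zpow ε).trans (by omega)
    · intro i
      have e : p a * D.e ^ (i + 1) * D.z ^ (ε * ((0 : ℕ) : ℤ)) =
          p a * D.e ^ i * D.z ^ (ε * ((0 : ℕ) : ℤ)) * D.e := by
        simp [pow_succ, mul_assoc]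
      rw [e, E.dd_self_mul]
      exact E.len_gen (Or.inl D.eS)
    · intro i
      have e : p a * D.e ^ (i + 1) * D.z ^ (ε * (n : ℤ)) =
          p a * D.e ^ i * D.z ^ (ε * (n : ℤ)) * D.e := by
        rw [pow_succ, ← mul_assoc, mul_assoc, D.zcomm' (D.PQ D.eP), ← mul_assoc]
      rw [e, E.dd_self_mul]
      exact E.len_gen (Or.inl D.eS)
    · intro i i' j j' _ _
      rw [one_mul, E.dd_eq]
      have h6 := D.ηζ_le ((p a * D.e ^ i * D.z ^ (ε * (j : ℤ)))⁻¹ *
        (p a * D.e ^ i' * D.z ^ (ε * (j' : ℤ))))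
      have h7 : (p a * D.e ^ i * D.z ^ (ε * (j : ℤ)))⁻¹ *
        (p a * D.e ^ i' * D.z ^ (ε * (j' : ℤ))) = (D.z ^ (ε * (j : ℤ)))⁻¹ * ((D.e ^ i)⁻¹ *
          (D.e ^ i' * D.z ^ (ε * (j' : ℤ)))) := by group
      rw [h7] at h6
      simp only [D.η_mul, D.ζ_mul, η_inv, ζ_inv, η_pow, ζ_pow, η_zpow, ζ_zpow, D.ηe, D.ηz, D.ζz,
        D.ζP D.eP] at h6
      have h8 : (-(ε * (j : ℤ) * 0) + (-((i : ℤ) * 1) + ((i' : ℤ) * 1 + ε * (j' : ℤ) * 0))).natAbs =
          (i - i') + (i' - i) := by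
        have : (-(ε * (j : ℤ) * 0) + (-((i : ℤ) * 1) + ((i' : ℤ) * 1 + ε * (j' : ℤ) * 0))) =
          (i' : ℤ) - i := by ring
        rw [this]; omega
      have h9 : (-(ε * (j : ℤ) * 1) + (-((i : ℤ) * 0) + ((i' : ℤ) * 0 + ε * (j' : ℤ) * 1))).natAbs =
          (j - j') + (j' - j) := by
        have : (-(ε * (j : ℤ) * 1) + (-((i : ℤ) * 0) + ((i' : ℤ) * 0 + ε * (j' : ℤ) * 1))) =
          ε * ((j' : ℤ) - j) := by ring
        rw [this, hεmul]; omega
      rw [h7]
      omega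
    · simp [E.dd_self]
    · rw [E.dd_comm]
      simp only [pow_zero, mul_one]
      rw [← hn]; exact hs3
  -- second strip
  have hm0 : m ≤ FGen.slB N K 1 1 (FGen.slB N K 1 1 (N 1)) := by
    apply FGen.strip (E := E) (p := p) (a := a) (b := b)
      (F := fun i j => p a * D.z ^ i * β j) hp hab
    · have := hM.1 a (b - a) le_rfl (by omega)
      have e : a + (b - a) = b := by omega
      rw [e] at this; omega
    · exact hM.2 a b le_rfl hab le_rfl
    · intro i j _
      rw [E.dd_mul_left]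
      exact hβ1 j
    · intro i
      have e : p a * D.z ^ (i + 1) * β 0 = p a * D.z ^ i * β 0 * D.z := by
        rw [hβ0]; simp [pow_succ, mul_assoc]
      rw [e, E.dd_self_mul]
      exact E.len_gen (Or.inl D.zS)
    · intro i
      have e : p a * D.z ^ (i + 1) * β m = p a * D.z ^ i * β m * D.z := by
        rw [hβm, pow_succ, mul_assoc, mul_assoc, mul_assoc, mul_assoc, D.zcomm x (D.PQ hx)]
      rw [e, E.dd_self_mul]
      exact E.len_gen (Or.inl D.zS)
    · intro i i' j j' hj hj'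
      rw [one_mul, E.dd_eq]
      have h6 := D.ρζ_le ((p a * D.z ^ i * β j)⁻¹ * (p a * D.z ^ i' * β j'))
      have h7 : (p a * D.z ^ i * β j)⁻¹ * (p a * D.z ^ i' * β j') =
        (β j)⁻¹ * ((D.z ^ i)⁻¹ * (D.z ^ i' * β j')) := by group
      rw [h7] at h6
      simp only [D.ζ_mul, ζ_inv, ζ_pow, D.ζz, hβζ, map_mul, map_inv, map_pow, D.ρz, one_pow,
        inv_one, one_mul, hβρ] at h6
      have h8 : (-0 + (-((i : ℤ) * 1) + ((i' : ℤ) * 1 + 0))).natAbs = (i - i') + (i' - i) := by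
        omega
      rw [h8] at h6
      have h9 : (j - j') + (j' - j) ≤ E.len ((β j)⁻¹ * β j') := by
        rcases le_total j j' with h | h
        · have := hβgeo j (j' - j) (by omega)
          have e : j + (j' - j) = j' := by omega
          rw [e, E.dd_eq] at this
          omega
        · have := hβgeo j' (j - j') (by omega)
          have e : j' + (j - j') = j := by omega
          rw [e, E.dd_comm, E.dd_eq] at this
          omega
      rw [h7]
      omega
    · simp [hβ0, E.dd_self]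
    · have e1 : p b = p a * x * D.z ^ s := by
        have : p b = p a * (x * D.z ^ s) := by rw [← hs]; group
        rw [this, mul_assoc]
      rw [E.dd_comm, e1, hβm, pow_zero, mul_one, E.dd_self_mul]
      refine (D.len_z_zpow s).trans ?_
      rw [hn, hεmul]
      simpa using hn0
  have hq := hM.1 a (b - a) le_rfl (by omega)
  have e : a + (b - a) = b := by omega
  rw [e] at hq
  have hlen : E.dd (p a) (p b) ≤ m + n := by
    rw [E.dd_eq, hs]
    have h6 := E.len_mul x (D.z ^ s)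
    have h7 := D.len_z_zpow s
    rw [hn, hεmul] at h7
    simp only [Int.natAbs_natCast] at h7
    rw [hn] at h6 ⊢
    omega
  have h8 : K * E.dd (p a) (p b) ≤
      K * (FGen.slB N K 1 1 (FGen.slB N K 1 1 (N 1)) + FGen.slB N K 1 1 (N 1)) :=
    Nat.mul_le_mul_left _ (by omega)
  rw [bA]
  omega

end DataA

end Morse284
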