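import Pool.Agent.Morse284.Tree

/-!
Paths with bounded returns and with trivial stabilizers of windows of bounded length are Morse.
-/

namespace Morse284

variable {G : Type} [Group G]

/-- the windows of length `ℓ` of the sequence of cosets `v` have trivial stabilizer -/
def TW (Q : Subgroup G) (ℓ : ℕ) (v : ℕ → G) (l : ℕ) : Prop :=
  ∀ r, r + ℓ ≤ l → ∀ g, (∀ i, i ≤ ℓ → Co Q (v (r + i)) (g * v (r + i))) → g = 1

/-- one window -/
def TW1 (Q : Subgroup G) (ℓ : ℕ) (v : ℕ → G) : Prop :=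
  ∀ g, (∀ i, i ≤ ℓ → Co Q (v i) (g * v i)) → g = 1

theorem TW1.congr {Q : Subgroup G} {ℓ : ℕ} {v w : ℕ → G} (h : TW1 Q ℓ v)
    (hc : ∀ i, i ≤ ℓ → Co Q (v i) (w i)) : TW1 Q ℓ w := by
  intro g hg
  apply h
  intro i hi
  exact ((hc i hi).trans (hg i hi)).trans ((hc i hi).symm.mul_left g)

theorem TW1.mul_left {Q : Subgroup G} {ℓ : ℕ} {v : ℕ → G} (h : TW1 Q ℓ v) (x : G) :
    TW1 Q ℓ (fun i => x * v i) := by
  intro g hg
  have h1 : x⁻¹ * g * x = 1 := by
    apply h
    intro i hi
    have := (hg i hi).mul_left x⁻¹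
    have e1 : x⁻¹ * (x * v i) = v i := by group
    have e2 : x⁻¹ * (g * (x * v i)) = x⁻¹ * g * x * v i := by group
    rwa [e1, e2] at this
  have : g = x * (x⁻¹ * g * x) * x⁻¹ := by group
  rw [this, h1]; group

namespace FGen

variable {E : FGen G}

/-- the key finiteness lemma: two sequences with bounded increments which follow the same cosets
along a window with trivial stabilizer are at bounded distance -/
theorem window_bound (E : FGen G) (Q : Subgroup G) (ℓ C : ℕ) : ∃ K8 : ℕ, ∀ v w : ℕ → G,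
    (∀ i, i ≤ ℓ → E.dd (v 0) (v i) ≤ C) → (∀ i, i ≤ ℓ → E.dd (w 0) (w i) ≤ C) →
    (∀ i, i ≤ ℓ → Co Q (v i) (w i)) → TW1 Q ℓ v → E.dd (v 0) (w 0) ≤ K8 := by
  classical
  let Fb : Set (Fin (ℓ + 1) → G) := Set.pi Set.univ (fun _ => {g : G | E.len g ≤ C})
  have hF : Fb.Finite := Set.Finite.pi' (fun _ => E.finite_len C) |>.subset (by
    intro f hf i
    exact hf i (Set.mem_univ _))
  let A : (Fin (ℓ + 1) → G) → (Fin (ℓ + 1) → G) → Set G := fun V W =>
    {δ | (∀ g, (∀ i : Fin (ℓ + 1), (V i)⁻¹ * g * V i ∈ Q) → g = 1) ∧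
      ∀ i : Fin (ℓ + 1), (V i)⁻¹ * δ * W i ∈ Q}
  have hA : ∀ V W, (A V W).Finite := by
    intro V W
    apply Set.Subsingleton.finite
    intro δ hδ δ' hδ'
    have h1 : δ * δ'⁻¹ = 1 := by
      apply hδ.1
      intro i
      have := mul_mem (hδ.2 i) (inv_mem (hδ'.2 i))
      have e : (V i)⁻¹ * δ * W i * ((V i)⁻¹ * δ' * W i)⁻¹ = (V i)⁻¹ * (δ * δ'⁻¹) * V i := by
        group
      rwa [e] at this
    exact mul_inv_eq_one.1 h1
  have hU : (⋃ V ∈ Fb, ⋃ W ∈ Fb, A V W).Finite :=
    hF.biUnion (fun V _ => hF.biUnion (fun W _ => hA V W))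
  obtain ⟨K8, hK8⟩ := (hU.image E.len).bddAbove
  refine ⟨K8, ?_⟩
  intro v w hv hw hco htw
  apply hK8
  refine ⟨(v 0)⁻¹ * w 0, ?_, rfl⟩
  simp only [Set.mem_iUnion]
  refine ⟨fun i => (v 0)⁻¹ * v i, ?_, fun i => (w 0)⁻¹ * w i, ?_, ?_, ?_⟩
  · intro i _
    exact hv i (by omega)
  · intro i _
    exact hw i (by omega)
  · intro g hg
    have h2 : TW1 Q ℓ (fun i => (v 0)⁻¹ * v i) := htw.mul_left _
    apply h2
    intro i hi
    have := hg ⟨i, by omega⟩
    simp only at this
    rw [Co]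
    have e : ((v 0)⁻¹ * v i)⁻¹ * (g * ((v 0)⁻¹ * v i)) = ((v 0)⁻¹ * v i)⁻¹ * g * ((v 0)⁻¹ * v i) := by
      group
    rw [e]; exact this
  · intro i
    have := hco i (by omega)
    rw [Co] at this
    have e : ((v 0)⁻¹ * v i)⁻¹ * ((v 0)⁻¹ * w 0) * ((w 0)⁻¹ * w i) = (v i)⁻¹ * w i := by
      group
    simp only [e]
    exact this

/-- bound from the block lemma -/
def blkB (K K8 W ℓ : ℕ) : ℕ :=
  K * (2 * K8 + (K * (2 * K8 + 1) + K * W * ℓ + ℓ) * W) + K + K8

/-- combinatorial lemma: alternation of good and bad times -/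
theorem block {η c : ℕ → G} {s : ℕ → ℕ} {Good : ℕ → Prop} {K K8 W ℓ n : ℕ}
    (hη : E.Unit1 η) (hℓ : 1 ≤ ℓ) (hs0 : s 0 = 0)
    (hmono : ∀ k, k < n → s k ≤ s (k + 1)) (hg0 : Good 0) (hgn : Good n)
    (h1 : ∀ k, k ≤ n → Good k → E.dd (η (s k)) (c k) ≤ K8)
    (h2 : ∀ k k', k ≤ k' → k' ≤ n → E.dd (c k) (c k') ≤ (k' - k) * W)
    (h3 : ∀ j, 1 ≤ j → j + ℓ ≤ n → (∀ i, j ≤ i → i < j + ℓ →
      s (i + 1) ≤ s i + ℓ * (K * W + 1)) → Good j)
    (h4 : ∀ k k', k ≤ k' → k' ≤ n → s k' ≤ s k + K * E.dd (η (s k)) (η (s k')) + K) :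
    ∀ t, t ≤ s n → ∃ k, k ≤ n ∧ E.dd (η t) (c k) ≤ blkB K K8 W ℓ := by
  classical
  have hmono' : ∀ d k, k + d ≤ n → s k ≤ s (k + d) := by
    intro d
    induction d with
    | zero => intro k _; exact le_rfl
    | succ d ih =>
      intro k hk
      exact (ih k (by omega)).trans (hmono (k + d) (by omega))
  intro t ht
  -- the first good time after `t`
  have hex : ∃ k, Good k ∧ t ≤ s k ∧ k ≤ n := ⟨n, hgn, ht, le_rfl⟩
  obtain ⟨k2, ⟨hk2g, hk2t, hk2n⟩, hk2min⟩ : ∃ k2, (Good k2 ∧ t ≤ s k2 ∧ k2 ≤ n) ∧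
      ∀ k, k < k2 → ¬ (Good k ∧ t ≤ s k ∧ k ≤ n) :=
    ⟨Nat.find hex, Nat.find_spec hex, fun k hk => Nat.find_min hex hk⟩
  refine ⟨k2, hk2n, ?_⟩
  rcases Nat.eq_zero_or_pos k2 with hk20 | hk20
  · subst hk20
    rw [hs0] at hk2t
    have : t = 0 := by omega
    have h5 := h1 0 (by omega) hk2g
    rw [hs0] at h5
    rw [this]
    refine h5.trans ?_
    rw [blkB]; omega
  · -- the last good time before `k2`
    obtain ⟨k1, hk1g, hk1lt, hk1max⟩ : ∃ k1, Good k1 ∧ k1 < k2 ∧
        ∀ k, k1 < k → k < k2 → ¬ Good k := by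
      have hP := Nat.findGreatest_spec (P := fun k => Good k) (m := 0) (n := k2 - 1)
        (Nat.zero_le _) hg0
      refine ⟨Nat.findGreatest (fun k => Good k) (k2 - 1), hP, ?_, ?_⟩
      · have := Nat.findGreatest_le (P := fun k => Good k) (k2 - 1); omega
      · intro k h5 h6
        exact Nat.findGreatest_is_greatest h5 (by omega)
    have hk1t : s k1 < t := by
      by_contra h
      exact hk2min k1 hk1lt ⟨hk1g, by omega, by omega⟩
    -- lower bound on the time between the good times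
    have hblocks : ∀ q, k1 + 1 + q * ℓ ≤ k2 →
        s k1 + q * (ℓ * (K * W + 1)) ≤ s (k1 + 1 + q * ℓ) := by
      intro q
      induction q with
      | zero =>
        intro _
        simp only [Nat.zero_mul, Nat.add_zero]
        exact hmono k1 (by omega)
      | succ q ih =>
        intro hq
        rw [Nat.succ_mul] at hq
        have h5 := ih (by omega)
        have h6 : ¬ Good (k1 + 1 + q * ℓ) := hk1max _ (by omega) (by omega)
        have h7 : ¬ ∀ i, k1 + 1 + q * ℓ ≤ i → i < k1 + 1 + q * ℓ + ℓ →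
            s (i + 1) ≤ s i + ℓ * (K * W + 1) := fun h => h6 (h3 _ (by omega) (by omega) h)
        push Not at h7
        obtain ⟨i, hi1, hi2, hi3⟩ := h7
        have h8 := hmono' (i - (k1 + 1 + q * ℓ)) (k1 + 1 + q * ℓ) (by omega)
        have e8 : k1 + 1 + q * ℓ + (i - (k1 + 1 + q * ℓ)) = i := by omega
        rw [e8] at h8
        have h9 := hmono' (k1 + 1 + (q + 1) * ℓ - (i + 1)) (i + 1) (by rw [Nat.succ_mul]; omega)
        have e9 : i + 1 + (k1 + 1 + (q + 1) * ℓ - (i + 1)) = k1 + 1 + (q + 1) * ℓ := by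
          rw [Nat.succ_mul]; omega
        rw [e9] at h9
        have e10 : (q + 1) * (ℓ * (K * W + 1)) = q * (ℓ * (K * W + 1)) + ℓ * (K * W + 1) :=
          Nat.succ_mul _ _
        rw [e10]
        omega
    obtain ⟨w, hw⟩ : ∃ w, w = k2 - k1 := ⟨_, rfl⟩
    obtain ⟨q, hq⟩ : ∃ q, q = (w - 1) / ℓ := ⟨_, rfl⟩
    have hq1 : q * ℓ ≤ w - 1 := by rw [hq]; exact Nat.div_mul_le_self _ _
    have hq2 : w - 1 < q * ℓ + ℓ := by
      rw [hq]
      have h5 := Nat.lt_succ_self ((w - 1) / ℓ)
      have h6 := (Nat.div_lt_iff_lt_mul (by omega : 0 < ℓ)).1 h5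
      rw [Nat.succ_mul] at h6
      exact h6
    have h5 := hblocks q (by omega)
    have h6 := hmono' (k2 - (k1 + 1 + q * ℓ)) (k1 + 1 + q * ℓ) (by omega)
    have e6 : k1 + 1 + q * ℓ + (k2 - (k1 + 1 + q * ℓ)) = k2 := by omega
    rw [e6] at h6
    have h7 := h4 k1 k2 (by omega) hk2n
    have h8 := h1 k1 (by omega) hk1g
    have h9 := h1 k2 hk2n hk2g
    have h10 := h2 k1 k2 (by omega) hk2n
    rw [← hw] at h10
    have h11 := E.dd_tri (η (s k1)) (c k1) (η (s k2))
    have h12 := E.dd_tri (c k1) (c k2) (η (s k2))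
    rw [E.dd_comm (c k2) (η (s k2))] at h12
    have h13 : E.dd (η (s k1)) (η (s k2)) ≤ 2 * K8 + w * W := by omega
    have h14 : K * E.dd (η (s k1)) (η (s k2)) ≤ K * (2 * K8 + w * W) := Nat.mul_le_mul_left _ h13
    have h15 : q * (ℓ * (K * W + 1)) ≤ K * (2 * K8 + w * W) + K := by omega
    have h16 : w ≤ q * ℓ + ℓ := by omega
    have h17 : K * (w * W) ≤ K * ((q * ℓ + ℓ) * W) :=
      Nat.mul_le_mul_left _ (Nat.mul_le_mul_right _ h16)
    have h18 : q * ℓ ≤ K * (2 * K8 + 1) + K * W * ℓ := by nlinarith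
    have h19 : w ≤ K * (2 * K8 + 1) + K * W * ℓ + ℓ := by omega
    have h20 : K * (2 * K8 + w * W) ≤
        K * (2 * K8 + (K * (2 * K8 + 1) + K * W * ℓ + ℓ) * W) :=
      Nat.mul_le_mul_left _ (Nat.add_le_add_left (Nat.mul_le_mul_right _ h19) _)
    have h21 : s k2 ≤ s k1 + K * (2 * K8 + (K * (2 * K8 + 1) + K * W * ℓ + ℓ) * W) + K := by
      omega
    have h22 := E.dd_tri (η t) (η (s k2)) (c k2)
    have h23 := hη.dd_le' hk2t
    rw [blkB]
    omega

end FGen

namespace TreeD

variable {E : FGen G} (D : TreeD E)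

/-- Morse property, in the form of unit step test paths -/
theorem morse_unit (B ℓ K : ℕ) (hℓ : 1 ≤ ℓ) : ∃ N : ℕ, ∀ (p : ℕ → G) (a b : ℕ), E.Unit1 p →
    D.Ret B p a b → (∀ τ l, D.Spine p a b τ l → TW D.Q ℓ (fun r => p (τ r)) l) →
    a ≤ b → ∀ (η : ℕ → G) (m : ℕ), E.Unit1 η →
    (∀ i k, i + k ≤ m → k ≤ K * E.dd (η i) (η (i + k)) + K) → η 0 = p a → η m = p b →
    ∀ t, t ≤ m → ∃ s, a ≤ s ∧ s ≤ b ∧ E.dd (η t) (p s) ≤ N := by
  obtain ⟨K8, hK8⟩ := E.window_bound D.Q ℓ (ℓ * (B + 1) + ℓ * (ℓ * (K * (B + 1) + 1)))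
  refine ⟨FGen.blkB K K8 (B + 1) ℓ, ?_⟩
  intro p a b hp hret htw hab η m hη hqg h0 hm t ht
  obtain ⟨τ, l, hs⟩ := D.exists_spine hp (b - a) a b (by omega)
  obtain ⟨σ, l', hs'⟩ := D.exists_spine hη m 0 m (by omega)
  obtain ⟨hll, hco⟩ := D.unique l l' _ _ hs.nb hs'.nb
    (by
      have h1 := hs.co0
      have h2 := hs'.co0
      rw [h0] at h2
      exact h1.symm.trans h2)
    (by
      have h1 : τ l = b := hs.last
      have h2 : σ l' = m := hs'.last
      simp only [h1, h2, hm]
      exact Co.refl _)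
  subst hll
  have htw' := htw τ l hs
  let s : ℕ → ℕ := fun k => if k = 0 then 0 else σ (k - 1)
  let cc : ℕ → ℕ := fun k => if k = 0 then a else τ (k - 1)
  have ss : ∀ r, s (r + 1) = σ r := fun r => by simp [s]
  have sc : ∀ r, cc (r + 1) = τ r := fun r => by simp [cc]
  have s0 : s 0 = 0 := by simp [s]
  have c0 : cc 0 = a := by simp [cc]
  have hccab : ∀ k, k ≤ l + 1 → a ≤ cc k ∧ cc k ≤ b := by
    intro k hk
    rcases Nat.eq_zero_or_pos k with h | h
    · rw [h, c0]; omega
    · obtain ⟨r, rfl⟩ := Nat.exists_eq_succ_of_ne_zero h.ne'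
      rw [Nat.succ_eq_add_one, sc]
      have h1 := hs.le
      have h2 := hs.mono_le r 0 (by omega)
      rw [Nat.zero_add] at h2
      have h3 := hs.le_b (l - r) r (by omega)
      omega
  have hcstep : ∀ k, k < l + 1 → cc (k + 1) ≤ cc k + (B + 1) ∧ cc k ≤ cc (k + 1) := by
    intro k hk
    rcases Nat.eq_zero_or_pos k with h | h
    · subst h
      rw [sc, c0]
      have := hs.start_le hret
      have := hs.le
      omega
    · obtain ⟨r, rfl⟩ := Nat.exists_eq_succ_of_ne_zero h.ne'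
      rw [sc, Nat.succ_eq_add_one, sc]
      have := hs.step_le hret r (by omega)
      have := hs.mono r (by omega)
      omega
  have hcle : ∀ d k, k + d ≤ l + 1 → cc k ≤ cc (k + d) ∧ cc (k + d) ≤ cc k + d * (B + 1) := by
    intro d
    induction d with
    | zero => intro k _; simp
    | succ d ih =>
      intro k hk
      have h1 := ih k (by omega)
      have h2 := hcstep (k + d) (by omega)
      have e : k + (d + 1) = k + d + 1 := rfl
      rw [e, Nat.succ_mul]
      omega
  have hmain := FGen.block (E := E) (η := η) (c := fun k => p (cc k)) (s := s)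
    (Good := fun k => k = 0 ∨ k = l + 1 ∨ E.dd (η (s k)) (p (cc k)) ≤ K8)
    (K := K) (K8 := K8) (W := B + 1) (ℓ := ℓ) (n := l + 1) hη hℓ s0
    (by
      intro k hk
      rcases Nat.eq_zero_or_pos k with h | h
      · subst h; rw [s0]; exact Nat.zero_le _
      · obtain ⟨r, rfl⟩ := Nat.exists_eq_succ_of_ne_zero h.ne'
        rw [ss, Nat.succ_eq_add_one, ss]
        exact (hs'.mono r (by omega)).le)
    (Or.inl rfl) (Or.inr (Or.inl rfl))
    (by
      intro k hk hg
      rcases hg with h | h | h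
      · subst h
        rw [s0, c0, h0, E.dd_self]; exact Nat.zero_le _
      · subst h
        have h1 : τ l = b := hs.last
        have h2 : σ l = m := hs'.last
        rw [ss, sc, h1, h2, hm, E.dd_self]; exact Nat.zero_le _
      · exact h)
    (by
      intro k k' h1 h2
      have h3 := hcle (k' - k) k (by omega)
      have e : k + (k' - k) = k' := by omega
      rw [e] at h3
      have h4 := hp.dd_le' h3.1
      omega)
    (by
      intro j hj1 hj2 hj3
      right; right
      obtain ⟨r, rfl⟩ := Nat.exists_eq_succ_of_ne_zero (by omega : j ≠ 0)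
      rw [Nat.succ_eq_add_one] at *
      rw [ss, sc, E.dd_comm]
      apply hK8 (fun i => p (τ (r + i))) (fun i => η (σ (r + i)))
      · intro i hi
        have h1 := hs.time_le hret i r (by omega)
        have h2 := hs.mono_le i r (by omega)
        have h3 := hp.dd_le' (a := τ r) (b := τ (r + i)) (by omega)
        simp only [Nat.add_zero]
        have h4 : i * (B + 1) ≤ ℓ * (B + 1) := Nat.mul_le_mul_right _ hi
        omega
      · intro i hi
        have h2 := hs'.mono_le i r (by omega)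
        have h3 := hη.dd_le' (a := σ r) (b := σ (r + i)) (by omega)
        simp only [Nat.add_zero]
        have h5 : ∀ i, i ≤ ℓ → σ (r + i) ≤ σ r + i * (ℓ * (K * (B + 1) + 1)) := by
          intro i
          induction i with
          | zero => intro _; simp
          | succ i ih =>
            intro hi
            have h6 := ih (by omega)
            have h7 := hj3 (r + 1 + i) (by omega) (by omega)
            have e1 : r + 1 + i = r + i + 1 := by omega
            rw [e1, ss, ss] at h7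
            have e2 : r + (i + 1) = r + i + 1 := rfl
            rw [e2, Nat.succ_mul]
            omega
        have h6 := h5 i hi
        have h4 : i * (ℓ * (K * (B + 1) + 1)) ≤ ℓ * (ℓ * (K * (B + 1) + 1)) :=
          Nat.mul_le_mul_right _ hi
        omega
      · intro i hi
        exact hco (r + i) (by omega)
      · intro g hg
        exact htw' r (by omega) g hg)
    (by
      intro k k' h1 h2
      have hsl : ∀ d k, k + d ≤ l + 1 → s k ≤ s (k + d) := by
        intro d
        induction d with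
        | zero => intro k _; exact le_rfl
        | succ d ih =>
          intro k hk
          refine (ih k (by omega)).trans ?_
          rcases Nat.eq_zero_or_pos (k + d) with h | h
          · rw [h, s0]; exact Nat.zero_le _
          · obtain ⟨r, hr⟩ := Nat.exists_eq_succ_of_ne_zero h.ne'
            have e : k + (d + 1) = k + d + 1 := rfl
            rw [e, ss, hr, Nat.succ_eq_add_one, ss]
            exact (hs'.mono r (by omega)).le
      have h3 := hsl (k' - k) k (by omega)
      have e : k + (k' - k) = k' := by omega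
      rw [e] at h3
      have h4 : s k' ≤ m := by
        have := hsl (l + 1 - k') k' (by omega)
        have e : k' + (l + 1 - k') = l + 1 := by omega
        rw [e, ss] at this
        have h2 : σ l = m := hs'.last
        omega
      have := hqg (s k) (s k' - s k) (by omega)
      have e : s k + (s k' - s k) = s k' := by omega
      rw [e] at this
      omega)
  obtain ⟨k, hk1, hk2⟩ := hmain t (by rw [ss]; have h2 : σ l = m := hs'.last; omega)
  exact ⟨cc k, (hccab k hk1).1, (hccab k hk1).2, hk2⟩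

end TreeD

end Morse284
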