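import Pool.Agent.Morse284.LemA
import Pool.Agent.Morse284.Free

/-!
The combinatorial structure of windows of the tree with nontrivial stabilizer.
-/

namespace Morse284

open FreeGroup (of)

/-- the letters -/
abbrev Al : Type := Option (ℕ × ℤ)

/-- shift of the letters -/
def sh (k : ℤ) : Al → Al
  | none => none
  | some (n, i) => some (n, i + k)

theorem sh_sh (j k : ℤ) (a : Al) : sh j (sh k a) = sh (j + k) a := by
  rcases a with _ | ⟨n, i⟩
  · rfl
  · simp only [sh]; congr 2; ring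

theorem sh_zero (a : Al) : sh 0 a = a := by
  rcases a with _ | ⟨n, i⟩
  · rfl
  · simp [sh]

/-- the shift as a permutation -/
def shE (k : ℤ) : Al ≃ Al where
  toFun := sh k
  invFun := sh (-k)
  left_inv a := by rw [sh_sh]; simp [sh_zero]
  right_inv a := by rw [sh_sh]; simp [sh_zero]

theorem sh_inj (k : ℤ) : Function.Injective (sh k) := (shE k).injective

/-- shift on the free group -/
def Sh (k : ℤ) : FreeGroup Al →* FreeGroup Al := FreeGroup.map (sh k)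

theorem Sh_of (k : ℤ) (a : Al) : Sh k (of a) = of (sh k a) := by simp [Sh]

theorem Sh_norm (k : ℤ) (x : FreeGroup Al) : (Sh k x).norm = x.norm := norm_map (sh_inj k) x

theorem Sh_CMin (k : ℤ) {x : FreeGroup Al} (h : CMin x) : CMin (Sh k x) :=
  CMin.map_equiv (f := shE k) h

theorem Sh_ne_one (k : ℤ) {x : FreeGroup Al} (h : x ≠ 1) : Sh k x ≠ 1 := by
  intro h1
  apply h
  have := Sh_norm k x
  rw [h1, FreeGroup.norm_one] at this
  exact FreeGroup.norm_eq_zero.1 this.symm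

theorem kill_Sh {D : Set Al} (k : ℤ) (hD : ∀ a, sh k a ∈ D ↔ a ∈ D) (x : FreeGroup Al) :
    kill D (Sh k x) = Sh k (kill D x) := by
  have : (kill D).comp (Sh k) = (Sh k).comp (kill D) := by
    apply FreeGroup.ext_hom
    intro a
    rw [MonoidHom.comp_apply, MonoidHom.comp_apply, Sh_of]
    by_cases h : a ∈ D
    · rw [kill_of_mem h, kill_of_mem ((hD a).2 h), Sh_of]
    · rw [kill_of_not_mem h, kill_of_not_mem (fun h' => h ((hD a).1 h')), map_one]
  exact DFunLike.congr_fun this x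

theorem suf_Sh (n : ℕ) (k : ℤ) (x : FreeGroup Al) :
    suf n (Sh k x) = (suf n x).map (fun a => (sh k a.1, a.2)) := by
  rw [suf, suf, Sh_norm, Sh, toWord_map (sh_inj k), List.map_drop]

theorem mk_suf_Sh (n : ℕ) (k : ℤ) (x : FreeGroup Al) :
    (FreeGroup.mk (suf n (Sh k x)) : FreeGroup Al) = Sh k (FreeGroup.mk (suf n x)) := by
  rw [suf_Sh, Sh, FreeGroup.map.mk]

/-- domain of the crossing by `t⁻¹ _ t` -/
def DB (m : ℕ → ℕ) : Set Al := {a | ∀ n i, a = some (n, i) → 1 ≤ i ∧ i < (m n : ℤ)}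

/-- domain of the crossing by `t _ t⁻¹` -/
def DA (m : ℕ → ℕ) : Set Al := {a | ∀ n i, a = some (n, i) → 0 ≤ i ∧ i + 1 < (m n : ℤ)}

/-- domain of the crossing by `t ^ (-u) _ t ^ u` -/
def dm (m : ℕ → ℕ) (u : ℤˣ) : Set Al := if u = 1 then DB m else DA m

theorem dm_bound {m : ℕ → ℕ} {u : ℤˣ} {n : ℕ} {i : ℤ} (h : some (n, i) ∈ dm m u) :
    0 ≤ i ∧ i < (m n : ℤ) := by
  rw [dm] at h
  split_ifs at h
  · have := h n i rfl; omega
  · have := h n i rfl; omega

variable {G : Type} [Group G]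

/-- The full data of the HNN extension. -/
structure DataE (E : FGen G) extends DataA E where
  m : ℕ → ℕ
  Φ : FreeGroup Al →* G
  Φinj : Function.Injective Φ
  ΦP : ∀ w, Φ w ∈ P
  Φe : Φ (of none) = e
  ηt : η t = 0
  et : e * t = t * e
  tS : t ∈ E.S
  maln : ∀ w w' x, w ≠ 1 → x ∈ Q → x⁻¹ * Φ w * x = Φ w' → ∃ y, ∃ s : ℤ, x = Φ y * z ^ s
  cross : ∀ (u : ℤˣ) (x : G), x ∈ Q → t ^ (-(u : ℤ)) * x * t ^ (u : ℤ) ∈ Q →
    ∃ w ∈ FD (dm m u), x = Φ w
  crossΦ : ∀ (u : ℤˣ), ∀ w ∈ FD (dm m u), t ^ (-(u : ℤ)) * Φ w * t ^ (u : ℤ) = Φ (Sh (-(u : ℤ)) w)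

namespace DataE

variable {E : FGen G} (D : DataE E)

theorem ΦQ (w : FreeGroup Al) : D.Φ w ∈ D.Q := D.PQ (D.ΦP w)

theorem Φz (w : FreeGroup Al) (s : ℤ) : D.Φ w * D.z ^ s = D.z ^ s * D.Φ w :=
  D.zcomm' (D.ΦQ w) s

theorem e_ne_one : D.e ≠ 1 := by
  intro h
  have := D.ηe
  rw [h, D.η_one] at this
  omega

/-- structure of sequences of cosets with nontrivial stabilizer -/
theorem exists_valid_seq {γ : ℕ → G} {u : ℕ → ℤˣ} {x : ℕ → G} {l : ℕ}
    (hγ : ∀ r, r < l → γ (r + 1) = γ r * D.t ^ (u r : ℤ) * x (r + 1))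
    (hxQ : ∀ r, r < l → x (r + 1) ∈ D.Q) {g : G}
    (hg : g ≠ 1) (hfix : ∀ r, r ≤ l → Co D.Q (γ r) (g * γ r)) :
    ∃ (p' : ℕ → FreeGroup Al) (s : ℕ → ℤ) (q : ℕ → FreeGroup Al),
      (∀ r, r + 1 < l → x (r + 1) = D.Φ (p' (r + 1)) * D.z ^ (s (r + 1))) ∧
      (∀ r, r + 1 < l → q (r + 1) = Sh (-(u r : ℤ)) (q r) * p' (r + 1)) ∧
      (∀ r, r < l → q r ∈ FD (dm D.m (u r))) := by
  classical
  let μ : ℕ → G := fun r => (γ r)⁻¹ * g * γ r
  have hμQ : ∀ r, r ≤ l → μ r ∈ D.Q := by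
    intro r hr
    have := hfix r hr
    rw [Co] at this
    have e : μ r = (γ r)⁻¹ * (g * γ r) := by simp only [μ]; group
    rw [e]; exact this
  have hcr : ∀ r, r < l → D.t ^ (-(u r : ℤ)) * μ r * D.t ^ (u r : ℤ) =
      x (r + 1) * μ (r + 1) * (x (r + 1))⁻¹ := by
    intro r hr
    simp only [μ]
    rw [hγ r hr]
    group
  have hw : ∀ r, ∃ w : FreeGroup Al, r < l → w ∈ FD (dm D.m (u r)) ∧ μ r = D.Φ w := by
    intro r
    by_cases hr : r < l
    · obtain ⟨w, hw1, hw2⟩ := D.cross (u r) (μ r) (hμQ r hr.le) (by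
        rw [hcr r hr]
        exact mul_mem (mul_mem (hxQ r hr) (hμQ (r + 1) hr)) (inv_mem (hxQ r hr)))
      exact ⟨w, fun _ => ⟨hw1, hw2⟩⟩
    · exact ⟨1, fun h => absurd h hr⟩
  choose w hw using hw
  have hμ1 : ∀ r, μ r ≠ 1 := by
    intro r h
    apply hg
    have : g = γ r * μ r * (γ r)⁻¹ := by simp only [μ]; group
    rw [this, h]; group
  have hw1 : ∀ r, r < l → w r ≠ 1 := by
    intro r hr h
    apply hμ1 r
    rw [(hw r hr).2, h, map_one]
  have hmal : ∀ r, ∃ (y : FreeGroup Al) (s : ℤ), r + 1 < l →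
      x (r + 1) = D.Φ y * D.z ^ s := by
    intro r
    by_cases hr : r + 1 < l
    · obtain ⟨y, s, hy⟩ := D.maln (Sh (-(u r : ℤ)) (w r)) (w (r + 1)) (x (r + 1))
        (Sh_ne_one _ (hw1 r (by omega))) (hxQ r (by omega)) (by
          rw [← D.crossΦ (u r) (w r) (hw r (by omega)).1, ← (hw r (by omega)).2,
            hcr r (by omega), ← (hw (r + 1) hr).2]
          group)
      exact ⟨y, s, fun _ => hy⟩
    · exact ⟨1, 0, fun h => absurd h hr⟩
  choose y s hys using hmal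
  have hwrec : ∀ r, r + 1 < l → w (r + 1) = (y r)⁻¹ * Sh (-(u r : ℤ)) (w r) * y r := by
    intro r hr
    apply D.Φinj
    rw [← (hw (r + 1) hr).2]
    have h1 : μ (r + 1) = (x (r + 1))⁻¹ * (x (r + 1) * μ (r + 1) * (x (r + 1))⁻¹) * x (r + 1) := by
      group
    rw [h1, ← hcr r (by omega), (hw r (by omega)).2, D.crossΦ (u r) (w r) (hw r (by omega)).1,
      hys r hr, map_mul, map_mul, map_inv, mul_inv_rev]
    have h2 : D.Φ (Sh (-(u r : ℤ)) (w r)) * (D.Φ (y r) * D.z ^ (s r)) =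
        D.z ^ (s r) * (D.Φ (Sh (-(u r : ℤ)) (w r)) * D.Φ (y r)) := by
      rw [D.Φz (y r), ← mul_assoc, D.Φz, mul_assoc]
    have h3 : (D.z ^ (s r))⁻¹ * (D.Φ (y r))⁻¹ = (D.Φ (y r))⁻¹ * (D.z ^ (s r))⁻¹ := by
      rw [← mul_inv_rev, ← mul_inv_rev, D.Φz]
    rw [mul_assoc, h2, h3]
    group
  obtain ⟨c0, q0, hc0, hq0⟩ := exists_CMin (w 0)
  let q : ℕ → FreeGroup Al := fun r => Nat.rec q0 (fun r q => Sh (-(u r : ℤ)) q * y r) r
  have hqs : ∀ r, q (r + 1) = Sh (-(u r : ℤ)) (q r) * y r := fun r => rfl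
  let c : ℕ → FreeGroup Al := fun r => Nat.rec c0 (fun r c => Sh (-(u r : ℤ)) c) r
  have hcs : ∀ r, c (r + 1) = Sh (-(u r : ℤ)) (c r) := fun r => rfl
  have hcmin : ∀ r, CMin (c r) := by
    intro r
    induction r with
    | zero => exact hc0
    | succ r ih => rw [hcs]; exact Sh_CMin _ ih
  have hwq : ∀ r, r < l → w r = (q r)⁻¹ * c r * q r := by
    intro r
    induction r with
    | zero => intro _; exact hq0
    | succ r ih =>
      intro hr
      rw [hwrec r hr, ih (by omega), hqs, hcs, map_mul, map_mul, map_inv]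
      group
  refine ⟨fun r => y (r - 1), fun r => s (r - 1), q, ?_, ?_, ?_⟩
  · intro r hr
    simp only [Nat.add_sub_cancel]
    exact hys r hr
  · intro r hr
    simp only [Nat.add_sub_cancel]
    exact hqs r
  · intro r hr
    have h1 : (q r)⁻¹ * c r * q r ∈ FD (dm D.m (u r)) := by
      rw [← hwq r hr]; exact (hw r hr).1
    refine (CMin.mem (hcmin r) ?_ h1).2
    intro h
    apply hw1 r hr
    rw [hwq r hr, h]; group

/-- structure of windows with nontrivial stabilizer -/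
theorem exists_valid {p : ℕ → G} {a b : ℕ} {τ : ℕ → ℕ} {l : ℕ} (hs : D.Spine p a b τ l) {g : G}
    (hg : g ≠ 1) (hfix : ∀ r, r ≤ l → Co D.Q (p (τ r)) (g * p (τ r))) :
    ∃ (u : ℕ → ℤˣ) (p' : ℕ → FreeGroup Al) (s : ℕ → ℤ) (q : ℕ → FreeGroup Al),
      (∀ r, r < l → p (τ r + 1) = p (τ r) * D.t ^ (u r : ℤ)) ∧
      (∀ r, r + 1 < l → p (τ (r + 1)) = p (τ r + 1) * (D.Φ (p' (r + 1)) * D.z ^ (s (r + 1)))) ∧
      (∀ r, r + 1 < l → q (r + 1) = Sh (-(u r : ℤ)) (q r) * p' (r + 1)) ∧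
      (∀ r, r < l → q r ∈ FD (dm D.m (u r))) := by
  classical
  have hu : ∀ r, ∃ u : ℤˣ, r < l → p (τ r + 1) = p (τ r) * D.t ^ (u : ℤ) := by
    intro r
    by_cases hr : r < l
    · obtain ⟨u, hu⟩ := hs.step r hr
      exact ⟨u, fun _ => hu⟩
    · exact ⟨1, fun h => absurd h hr⟩
  choose u hu using hu
  let x : ℕ → G := fun r => (p (τ (r - 1) + 1))⁻¹ * p (τ r)
  have hxQ : ∀ r, r < l → x (r + 1) ∈ D.Q := by
    intro r hr
    exact hs.co r hr
  have hγ : ∀ r, r < l → p (τ (r + 1)) = p (τ r) * D.t ^ (u r : ℤ) * x (r + 1) := by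
    intro r hr
    simp only [x, Nat.add_sub_cancel, ← hu r hr]
    group
  obtain ⟨p', s, q, h1, h2, h3⟩ := D.exists_valid_seq (γ := fun r => p (τ r)) hγ hxQ hg hfix
  refine ⟨u, p', s, q, hu, ?_, h2, h3⟩
  intro r hr
  rw [hγ r (by omega), h1 r hr, hu r (by omega)]

/-- finiteness constants for the letters -/
theorem exists_consts (B : ℕ) : ∃ (n0 c c1 : ℕ), (∀ w, E.len (D.Φ w) ≤ B → w.norm ≤ c ∧
    ∀ a ∈ w.toWord, ∀ n i, a.1 = some (n, i) → n ≤ n0) ∧
    ∀ (a : Al) (v : Bool), (∀ n i, a = some (n, i) → n ≤ n0 ∧ 0 ≤ i ∧ i < (D.m n : ℤ)) →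
      E.len (D.Φ (FreeGroup.mk [(a, v)])) ≤ c1 := by
  classical
  have hWfin : {w : FreeGroup Al | E.len (D.Φ w) ≤ B}.Finite :=
    (E.finite_len B).preimage (D.Φinj.injOn)
  obtain ⟨c, hc⟩ := (hWfin.image FreeGroup.norm).bddAbove
  have hLfin : (⋃ w ∈ {w : FreeGroup Al | E.len (D.Φ w) ≤ B},
      {a : Al × Bool | a ∈ w.toWord}).Finite :=
    hWfin.biUnion (fun w _ => List.finite_toSet _)
  obtain ⟨n0, hn0⟩ := (hLfin.image (fun a => match a.1 with
    | none => 0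
    | some (n, _) => n)).bddAbove
  have hAfin : {a : Al | ∀ n i, a = some (n, i) → n ≤ n0 ∧ 0 ≤ i ∧ i < (D.m n : ℤ)}.Finite := by
    have h1 : ((Finset.range (n0 + 1)).sup D.m : ℕ) = (Finset.range (n0 + 1)).sup D.m := rfl
    apply ((((Set.finite_Iic n0).prod (Set.finite_Icc (0 : ℤ)
      ((Finset.range (n0 + 1)).sup D.m : ℕ))).image some).insert none).subset
    intro a ha
    rcases a with _ | ⟨n, i⟩
    · exact Set.mem_insert _ _
    · right
      obtain ⟨h2, h3, h4⟩ := ha n i rfl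
      refine ⟨(n, i), ⟨h2, h3, ?_⟩, rfl⟩
      have h5 : D.m n ≤ (Finset.range (n0 + 1)).sup D.m :=
        Finset.le_sup (f := D.m) (Finset.mem_range.2 (by omega))
      simp only
      omega
  obtain ⟨c1, hc1⟩ := (hAfin.image (fun a => E.len (D.Φ (of a)))).bddAbove
  refine ⟨n0, c, c1, ?_, ?_⟩
  · intro w hw
    refine ⟨hc ⟨w, hw, rfl⟩, ?_⟩
    intro a ha n i hai
    have := hn0 ⟨a, by simp only [Set.mem_iUnion]; exact ⟨w, hw, ha⟩, rfl⟩
    simp only [hai] at this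
    exact this
  · intro a v ha
    have h1 : E.len (D.Φ (of a)) ≤ c1 := hc1 ⟨a, ha, rfl⟩
    cases v
    · have : (FreeGroup.mk [(a, false)] : FreeGroup Al) = (of a)⁻¹ := by
        simp [of, FreeGroup.inv_mk, FreeGroup.invRev]
      rw [this, map_inv, E.len_inv]; exact h1
    · exact h1

theorem len_mk_le {c1 : ℕ} {L : List (Al × Bool)}
    (h : ∀ a ∈ L, E.len (D.Φ (FreeGroup.mk [a])) ≤ c1) : E.len (D.Φ (FreeGroup.mk L)) ≤ L.length * c1 := by
  induction L with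
  | nil =>
    have : (FreeGroup.mk [] : FreeGroup Al) = 1 := rfl
    rw [this, map_one, E.len_one]; exact Nat.zero_le _
  | cons a L ih =>
    have h1 : (FreeGroup.mk (a :: L) : FreeGroup Al) = FreeGroup.mk [a] * FreeGroup.mk L := by rw [FreeGroup.mul_mk]; rfl
    rw [h1, map_mul]
    have h2 := E.len_mul (D.Φ (FreeGroup.mk [a])) (D.Φ (FreeGroup.mk L))
    have h3 := h a List.mem_cons_self
    have h4 := ih (fun b hb => h b (List.mem_cons_of_mem _ hb))
    rw [List.length_cons, Nat.succ_mul]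
    omega

/-- letters in the first blocks -/
def dn (n0 : ℕ) : Set Al := {a | ∀ n i, a = some (n, i) → n ≤ n0}

/-- retraction of a valid sequence to the first blocks -/
theorem retract_valid {n0 l : ℕ} {u : ℕ → ℤˣ} {p' q : ℕ → FreeGroup Al}
    (hp' : ∀ r, r + 1 < l → ∀ a ∈ (p' (r + 1)).toWord, ∀ n i, a.1 = some (n, i) → n ≤ n0)
    (h1 : ∀ r, r + 1 < l → q (r + 1) = Sh (-(u r : ℤ)) (q r) * p' (r + 1))
    (h2 : ∀ r, r < l → q r ∈ FD (dm D.m (u r))) :
    ∃ q' : ℕ → FreeGroup Al,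
      (∀ r, r + 1 < l → q' (r + 1) = Sh (-(u r : ℤ)) (q' r) * p' (r + 1)) ∧
      (∀ r, r < l → q' r ∈ FD (dm D.m (u r))) ∧
      (∀ r, q' r ∈ FD (dn n0)) := by
  have hD0 : ∀ k a, sh k a ∈ dn n0 ↔ a ∈ dn n0 := by
    intro k a
    rcases a with _ | ⟨n, i⟩
    · rfl
    · simp only [sh, dn, Set.mem_ofPred_eq, Option.some.injEq, Prod.mk.injEq, and_imp]
      constructor
      · intro h n' i' hn hi
        exact h n' _ hn rfl
      · intro h n' i' hn hi
        exact h n' _ hn rfl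
  refine ⟨fun r => kill (dn n0) (q r), ?_, ?_, ?_⟩
  · intro r hr
    simp only
    have h3 : kill (dn n0) (p' (r + 1)) = p' (r + 1) := by
      rw [← mem_FD, mem_FD_iff]
      intro a ha n i hai
      exact hp' r hr a ha n i hai
    rw [h1 r hr, map_mul, kill_Sh _ (hD0 _), h3]
  · intro r hr
    exact kill_mem_of_mem (h2 r hr)
  · intro r
    exact kill_mem _ _

end DataE

end Morse284
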