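import Pool.Agent.Morse284.LemE1

/-!
Windows with nontrivial stabilizer along a Morse quasi-geodesic are short.
-/

namespace Morse284

open FreeGroup (of)

variable {G : Type} [Group G]

theorem step_h {γ T A Pp Z A' : G} (hA' : A' = T⁻¹ * A * T) (c1 : Pp * Z = Z * Pp)
    (c2 : A' * Z = Z * A') : γ * T * (Pp * Z) * (A' * Pp)⁻¹ = γ * A⁻¹ * T * Z := by
  have c2' : Z * A'⁻¹ = A'⁻¹ * Z := by
    have : Z = A'⁻¹ * Z * A' := by rw [mul_assoc, ← c2]; group
    calc Z * A'⁻¹ = (A'⁻¹ * Z * A') * A'⁻¹ := by rw [← this]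
      _ = _ := by group
  calc γ * T * (Pp * Z) * (A' * Pp)⁻¹ = γ * T * (Z * Pp) * (A' * Pp)⁻¹ := by rw [c1]
    _ = γ * T * (Z * A'⁻¹) := by group
    _ = γ * T * (A'⁻¹ * Z) := by rw [c2']
    _ = γ * A⁻¹ * T * Z := by rw [hA']; group

theorem step_y {h T Z B B' B1 : G} (hB : B' = T⁻¹ * B * T) (c2 : B' * Z = Z * B') :
    (h * B⁻¹)⁻¹ * (h * T * Z * B1⁻¹) = T * Z * (B' * B1⁻¹) := by
  calc (h * B⁻¹)⁻¹ * (h * T * Z * B1⁻¹) = T * (T⁻¹ * B * T * Z) * B1⁻¹ := by group
    _ = T * (Z * B') * B1⁻¹ := by rw [← hB, c2]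
    _ = _ := by group

theorem mk_suf_mul_inv_le {E : FGen G} (D : DataE E) {c1 n n' d : ℕ} {W : FreeGroup Al}
    (hL : ∀ a ∈ W.toWord, E.len (D.Φ (FreeGroup.mk [a])) ≤ c1)
    (hn : n ≤ W.norm) (hn' : n' ≤ W.norm) (h1 : n ≤ n' + d) (h2 : n' ≤ n + d) :
    E.len (D.Φ (FreeGroup.mk (suf n W) * (FreeGroup.mk (suf n' W))⁻¹)) ≤ d * c1 := by
  rcases le_total n n' with h | h
  · obtain ⟨L, hL1, hL2, hL3⟩ := suf_split W h hn'
    rw [hL3, ← FreeGroup.mul_mk]
    have e : (FreeGroup.mk (suf n W) : FreeGroup Al) * (FreeGroup.mk L * FreeGroup.mk (suf n W))⁻¹ =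
      (FreeGroup.mk L)⁻¹ := by group
    rw [e, map_inv, E.len_inv]
    refine (D.len_mk_le (fun a ha => hL a (hL2 a ha))).trans (Nat.mul_le_mul_right _ (by omega))
  · obtain ⟨L, hL1, hL2, hL3⟩ := suf_split W h hn
    rw [hL3, ← FreeGroup.mul_mk, mul_inv_cancel_right]
    refine (D.len_mk_le (fun a ha => hL a (hL2 a ha))).trans (Nat.mul_le_mul_right _ (by omega))

theorem suf_zero (W : FreeGroup Al) : suf 0 W = [] := by
  rw [suf, Nat.sub_zero, List.drop_eq_nil_iff]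
  exact le_rfl

namespace DataE

variable {E : FGen G} (D : DataE E)

theorem lemE (K : ℕ) (N : ℕ → ℕ) (B : ℕ) : ∃ ℓ0 : ℕ, ∀ (p : ℕ → G) (a b : ℕ) (τ : ℕ → ℕ) (l : ℕ)
    (g : G), E.Unit1 p → E.HM K N p a b → D.Ret B p a b → D.Spine p a b τ l → g ≠ 1 →
    (∀ r, r ≤ l → Co D.Q (p (τ r)) (g * p (τ r))) → l ≤ ℓ0 := by
  classical
  obtain ⟨n0, c, c1, hW, hLc⟩ := D.exists_consts B
  obtain ⟨C2, hC2⟩ : ∃ C2, C2 = c * c1 + (1 + B + 2 * c * c1) + c * c1 := ⟨_, rfl⟩
  obtain ⟨R0, hR0⟩ : ∃ R0, R0 = (B + 1) * N C2 + B + N C2 := ⟨_, rfl⟩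
  refine ⟨2 * FGen.slB N K (1 + B) 2 (R0 + c * c1) + 6, ?_⟩
  intro p a b τ l g hp hM hret hs hg hfix
  by_contra hl
  obtain ⟨J, hJ⟩ : ∃ J, l = J + 1 := ⟨l - 1, by omega⟩
  obtain ⟨u, p', s, q0, hu, hps, hq0, hq0m⟩ := D.exists_valid hs hg hfix
  -- bounds on the letters of the spine
  have hx : ∀ r, r + 1 < l → E.len (D.Φ (p' (r + 1)) * D.z ^ (s (r + 1))) ≤ B := by
    intro r hr
    have h1 := hps r hr
    have h2 := hs.step_le hret r (by omega)
    have h3 := hs.mono r (by omega)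
    have h4 := hp.dd_le' (a := τ r + 1) (b := τ (r + 1)) (by omega)
    rw [h1, E.dd_self_mul] at h4
    omega
  have hxΦ : ∀ r, r + 1 < l → E.len (D.Φ (p' (r + 1))) ≤ B := by
    intro r hr
    have h1 := D.ρζ_le (D.Φ (p' (r + 1)) * D.z ^ (s (r + 1)))
    have h2 : D.ρ (D.Φ (p' (r + 1)) * D.z ^ (s (r + 1))) = D.Φ (p' (r + 1)) := by
      rw [map_mul, map_zpow, D.ρz, one_zpow, mul_one, D.ρP _ (D.ΦP _)]
    rw [h2] at h1
    have := hx r hr
    omega
  have hxs : ∀ r, r + 1 < l → (s (r + 1)).natAbs ≤ B := by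
    intro r hr
    have h1 := D.ρζ_le (D.Φ (p' (r + 1)) * D.z ^ (s (r + 1)))
    have h2 : D.ζ (D.Φ (p' (r + 1)) * D.z ^ (s (r + 1))) = s (r + 1) := by
      rw [D.ζ_mul, D.ζP (D.ΦP _), D.ζ_zpow, D.ζz]; ring
    rw [h2] at h1
    have := hx r hr
    omega
  obtain ⟨q, hq, hqm, hqn⟩ := D.retract_valid (n0 := n0)
    (fun r hr => (hW _ (hxΦ r hr)).2) hq0 hq0m
  have hpn : ∀ r, r + 1 < l → (p' (r + 1)).norm ≤ c := fun r hr => (hW _ (hxΦ r hr)).1
  -- good letters
  have hletter : ∀ r, r < l → ∀ a ∈ ((q r)⁻¹).toWord,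
      E.len (D.Φ (FreeGroup.mk [a])) ≤ c1 := by
    intro r hr a ha
    rcases a with ⟨a, v⟩
    apply hLc
    intro n i hai
    have h1 := mem_FD_iff.1 (inv_mem (hqm r hr)) (a, v) ha
    have h2 := mem_FD_iff.1 (inv_mem (hqn r)) (a, v) ha
    simp only [hai] at h1 h2
    exact ⟨h2 n i rfl, dm_bound h1⟩
  -- norms
  obtain ⟨nr, hnr⟩ : ∃ nr : ℕ → ℕ, ∀ r, nr r = (q r).norm := ⟨fun r => (q r).norm, fun _ => rfl⟩
  have hnrinv : ∀ r, ((q r)⁻¹).norm = nr r := fun r => by rw [FreeGroup.norm_inv_eq, hnr]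
  have hn1 : ∀ r, r + 1 < l → nr (r + 1) ≤ nr r + c := by
    intro r hr
    have h1 := FreeGroup.norm_mul_le (Sh (-(u r : ℤ)) (q r)) (p' (r + 1))
    rw [← hq r hr, Sh_norm, ← hnr, ← hnr] at h1
    have := hpn r hr
    omega
  have hn2 : ∀ r, r + 1 < l → nr r ≤ nr (r + 1) + c := by
    intro r hr
    have h1 := FreeGroup.norm_mul_le (q (r + 1)) (p' (r + 1))⁻¹
    have h2 : q (r + 1) * (p' (r + 1))⁻¹ = Sh (-(u r : ℤ)) (q r) := by rw [hq r hr]; group
    rw [h2, Sh_norm, ← hnr, ← hnr, FreeGroup.norm_inv_eq] at h1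
    have := hpn r hr
    omega
  have hnup : ∀ d r, r + d < l → nr (r + d) ≤ nr r + c * d ∧ nr r ≤ nr (r + d) + c * d := by
    intro d
    induction d with
    | zero => intro r _; simp
    | succ d ih =>
      intro r hr
      have h1 := ih r (by omega)
      have h2 := hn1 (r + d) (by omega)
      have h3 := hn2 (r + d) (by omega)
      have e : r + (d + 1) = r + d + 1 := rfl
      rw [e, Nat.mul_succ]
      omega
  -- minimal norm
  obtain ⟨r0, hr0J, hr0⟩ : ∃ r0, r0 ≤ J ∧ ∀ r, r ≤ J → nr r0 ≤ nr r := by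
    obtain ⟨r0, h1, h2⟩ := Finset.exists_min_image (Finset.range (J + 1)) nr ⟨0, by simp⟩
    exact ⟨r0, by have := Finset.mem_range.1 h1; omega,
      fun r hr => h2 r (Finset.mem_range.2 (by omega))⟩
  obtain ⟨lr, hlr⟩ : ∃ lr : ℕ → ℕ, ∀ r, lr r = max (nr r0 - c) (max (nr 0 - c - 2 * (c * r))
      (nr J - c - 2 * (c * (J - r)))) := ⟨_, fun _ => rfl⟩
  have hlrle : ∀ r, r ≤ J → lr r ≤ nr r - c := by
    intro r hr
    rw [hlr]
    have h1 := hr0 r hr
    have h2 := (hnup r 0 (by omega)).2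
    have h3 := (hnup (J - r) r (by omega)).1
    have e : r + (J - r) = J := by omega
    rw [e] at h3
    rw [Nat.zero_add] at h2
    apply max_le
    · omega
    · apply max_le
      · omega
      · omega
  have hlrstep : ∀ r, r < J → lr r ≤ lr (r + 1) + 2 * c ∧ lr (r + 1) ≤ lr r + 2 * c := by
    intro r hr
    rw [hlr, hlr]
    have e1 : c * (r + 1) = c * r + c := by ring
    have e2 : c * (J - r) = c * (J - (r + 1)) + c := by
      have : J - r = J - (r + 1) + 1 := by omega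
      rw [this]; ring
    rw [e1, e2]
    omega
  have hlr0 : nr 0 - c ≤ lr 0 := by
    rw [hlr]; simp
  have hlrJ : nr J - c ≤ lr J := by
    rw [hlr]; simp
  have hlrmid : ∀ r, r0 ≤ 2 * r → 2 * r ≤ J + r0 → lr r = nr r0 - c := by
    intro r h1 h2
    rw [hlr]
    have h3 := (hnup r0 0 (by omega)).2
    have h4 := (hnup (J - r0) r0 (by omega)).1
    have e : r0 + (J - r0) = J := by omega
    rw [e] at h4
    rw [Nat.zero_add] at h3
    have h5 : c * r0 ≤ c * (2 * r) := Nat.mul_le_mul_left _ h1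
    have h6 : c * (J - r0) ≤ c * (2 * (J - r)) := Nat.mul_le_mul_left _ (by omega)
    have e5 : c * (2 * r) = 2 * (c * r) := by ring
    have e6 : c * (2 * (J - r)) = 2 * (c * (J - r)) := by ring
    rw [e5] at h5
    rw [e6] at h6
    omega
  -- the line and the test path
  obtain ⟨Y, hY⟩ : ∃ Y : ℕ → FreeGroup Al, ∀ r, Y r = FreeGroup.mk (suf (lr r) (q r)⁻¹) :=
    ⟨_, fun _ => rfl⟩
  obtain ⟨y, hy⟩ : ∃ y : ℕ → G, ∀ r, y r = p (τ r) * (D.Φ (q r))⁻¹ * (D.Φ (Y r))⁻¹ :=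
    ⟨_, fun _ => rfl⟩
  have hYm : ∀ r, r < l → Y r ∈ FD (dm D.m (u r)) := by
    intro r hr
    rw [hY]
    exact mk_suf_mem_FD (inv_mem (hqm r hr))
  have hstep : ∀ r, r + 1 < l → (y r)⁻¹ * y (r + 1) = D.t ^ (u r : ℤ) * D.z ^ (s (r + 1)) *
      D.Φ (FreeGroup.mk (suf (lr r) (q (r + 1))⁻¹) *
        (FreeGroup.mk (suf (lr (r + 1)) (q (r + 1))⁻¹))⁻¹) := by
    intro r hr
    have h1 : p (τ (r + 1)) = p (τ r) * D.t ^ (u r : ℤ) * (D.Φ (p' (r + 1)) * D.z ^ (s (r + 1))) := by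
      rw [hps r hr, hu r (by omega)]
    have h2 : p (τ (r + 1)) * (D.Φ (q (r + 1)))⁻¹ =
        p (τ r) * (D.Φ (q r))⁻¹ * D.t ^ (u r : ℤ) * D.z ^ (s (r + 1)) := by
      rw [h1, hq r hr, map_mul]
      apply step_h
      · rw [← D.crossΦ (u r) (q r) (hqm r (by omega)), zpow_neg]
      · exact D.Φz _ _
      · exact D.Φz _ _
    have h3 : Sh (-(u r : ℤ)) (Y r) = FreeGroup.mk (suf (lr r) (q (r + 1))⁻¹) := by
      rw [hY, ← mk_suf_Sh]
      congr 1
      have e : (q (r + 1))⁻¹ = (p' (r + 1))⁻¹ * Sh (-(u r : ℤ)) (q r)⁻¹ := by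
        rw [hq r hr, map_inv]; group
      rw [e]
      have h4 := hlrle r (by omega)
      have h5 := hpn r hr
      rcases Nat.lt_or_ge (nr r) c with h6 | h6
      · have : lr r = 0 := by omega
        rw [this, suf_zero, suf_zero]
      · rw [suf_mul]
        rw [Sh_norm, hnrinv, FreeGroup.norm_inv_eq]
        omega
    rw [hy r, hy (r + 1), h2, ← h3, ← hY (r + 1), map_mul, map_inv]
    apply step_y
    · rw [← D.crossΦ (u r) (Y r) (hYm r (by omega)), zpow_neg]
    · exact D.Φz _ _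
  have hlen1 : ∀ r, r + 1 < l → E.len (D.t ^ (u r : ℤ) * D.z ^ (s (r + 1))) ≤ 1 + B := by
    intro r hr
    have h1 := E.len_mul (D.t ^ (u r : ℤ)) (D.z ^ (s (r + 1)))
    have h2 := D.len_z_zpow (s (r + 1))
    have h3 := hxs r hr
    have h4 : E.len (D.t ^ (u r : ℤ)) ≤ 1 := by
      rcases Int.units_eq_one_or (u r) with h | h
      · rw [h]; simpa using E.len_gen (Or.inl D.tS)
      · rw [h]; simpa [E.len_inv] using E.len_gen (Or.inl D.tS)
    omega
  have hysteps : ∀ r, r + 1 < l → E.dd (y r) (y (r + 1)) ≤ 1 + B + 2 * c * c1 := by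
    intro r hr
    rw [E.dd_eq, hstep r hr]
    have h1 := E.len_mul (D.t ^ (u r : ℤ) * D.z ^ (s (r + 1)))
      (D.Φ (FreeGroup.mk (suf (lr r) (q (r + 1))⁻¹) *
        (FreeGroup.mk (suf (lr (r + 1)) (q (r + 1))⁻¹))⁻¹))
    have h2 := hlen1 r hr
    have h3 := hlrstep r (by omega)
    have h4 := hlrle r (by omega)
    have h5 := hlrle (r + 1) (by omega)
    have h6 := hn2 r hr
    have h7 := mk_suf_mul_inv_le D (c1 := c1) (n := lr r) (n' := lr (r + 1)) (d := 2 * c)
      (W := (q (r + 1))⁻¹) (hletter (r + 1) hr) (by rw [hnrinv]; omega) (by rw [hnrinv]; omega)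
      (by omega) (by omega)
    omega
  have hyQ : ∀ r, Co D.Q (p (τ r)) (y r) := by
    intro r
    rw [Co, hy]
    have e : (p (τ r))⁻¹ * (p (τ r) * (D.Φ (q r))⁻¹ * (D.Φ (Y r))⁻¹) =
      (D.Φ (q r))⁻¹ * (D.Φ (Y r))⁻¹ := by group
    rw [e]
    exact mul_mem (inv_mem (D.ΦQ _)) (inv_mem (D.ΦQ _))
  have hyend : ∀ r, r ≤ J → nr r - c ≤ lr r → E.dd (p (τ r)) (y r) ≤ c * c1 := by
    intro r hrJ h
    rw [E.dd_comm, E.dd_eq, hy]
    have h4 := hlrle r hrJ
    obtain ⟨L, hL1, hL2, hL3⟩ := suf_split (n := lr r) (m := ((q r)⁻¹).norm) (q r)⁻¹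
      (by rw [hnrinv]; omega) le_rfl
    have h5 : (q r)⁻¹ = FreeGroup.mk L * Y r := by
      rw [hY, FreeGroup.mul_mk, ← hL3, mk_suf_of_le le_rfl]
    have e : (p (τ r) * (D.Φ (q r))⁻¹ * (D.Φ (Y r))⁻¹)⁻¹ * p (τ r) = D.Φ (Y r * q r) := by
      rw [map_mul]; group
    have e2 : Y r * q r = (FreeGroup.mk L)⁻¹ := by
      have : q r = (Y r)⁻¹ * (FreeGroup.mk L)⁻¹ := by
        rw [← mul_inv_rev, ← h5, inv_inv]
      rw [this]; group
    rw [e, e2, map_inv, E.len_inv]
    refine (D.len_mk_le (fun a ha => hletter r (by omega) a (hL2 a ha))).trans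
      (Nat.mul_le_mul_right _ ?_)
    rw [hL1, hnrinv]
    omega
  let rr : ℕ → G := fun i => if i = 0 then p (τ 0) else if i < J then y i else p (τ J)
  have hJ2 : 2 ≤ J := by omega
  have hrr0 : rr 0 = p (τ 0) := by simp [rr]
  have hrrJ : rr J = p (τ J) := by
    have : ¬ J = 0 := by omega
    simp only [rr, if_neg this, lt_irrefl, if_false]
  have hrrm : ∀ i, 0 < i → i < J → rr i = y i := by
    intro i h1 h2
    have : ¬ i = 0 := by omega
    simp only [rr, if_neg this, if_pos h2]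
  have hrrQ : ∀ i, i ≤ J → Co D.Q (p (τ i)) (rr i) := by
    intro i hi
    rcases Nat.eq_zero_or_pos i with h | h
    · rw [h, hrr0]; exact Co.refl _
    · rcases Nat.lt_or_eq_of_le hi with h' | h'
      · rw [hrrm i h h']; exact hyQ i
      · rw [h', hrrJ]; exact Co.refl _
  have hrry : ∀ i, i ≤ J → E.dd (rr i) (y i) ≤ c * c1 := by
    intro i hi
    rcases Nat.eq_zero_or_pos i with h | h
    · rw [h, hrr0]; exact hyend 0 (by omega) hlr0
    · rcases Nat.lt_or_eq_of_le hi with h' | h'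
      · rw [hrrm i h h', E.dd_self]; exact Nat.zero_le _
      · rw [h', hrrJ]; exact hyend J le_rfl hlrJ
  have hrrstep : ∀ i, i < J → E.dd (rr i) (rr (i + 1)) ≤ C2 := by
    intro i hi
    have h1 := E.dd_tri (rr i) (y i) (rr (i + 1))
    have h2 := E.dd_tri (y i) (y (i + 1)) (rr (i + 1))
    have h3 := hrry i (by omega)
    have h4 := hrry (i + 1) (by omega)
    rw [E.dd_comm] at h4
    have h5 := hysteps i (by omega)
    omega
  have hprog : ∀ (w : ℕ → G), (∀ i, i ≤ J → Co D.Q (p (τ i)) (w i)) → ∀ i k, i + k ≤ J →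
      k ≤ E.dd (w i) (w (i + k)) := by
    intro w hw i k hik
    have h1 := (hs.sub (r := i) (k := k) (by omega)).nb
    exact D.nb_le_dd h1 (hw i (by omega)) (hw (i + k) hik)
  have htest : E.Test C2 J rr := by
    intro i k hik
    have h1 := FGen.steps_le (E := E) (p := rr) (c := C2) (a := i) k
      (fun j _ h2 => hrrstep j (by omega))
    have h2 := hprog rr hrrQ i k hik
    have h3 : 1 ≤ C2 := by omega
    constructor
    · omega
    · nlinarith [Nat.zero_le (E.dd (rr i) (rr (i + k)))]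
  have hτa := hs.le
  have hτle : ∀ r, r ≤ l → τ r ≤ b := by
    intro r hr
    have := hs.le_b (l - r) r (by omega)
    omega
  have hτmono : ∀ i k, i + k ≤ l → τ i ≤ τ (i + k) := fun i k h => by
    have := hs.mono_le k i h
    omega
  have hclose : ∀ t, t ≤ J → E.dd (p (τ t)) (rr t) ≤ R0 := by
    intro t ht
    have hτ0J : τ 0 ≤ τ J := by
      have := hτmono 0 J (by omega)
      rwa [Nat.zero_add] at this
    obtain ⟨s', hs1, hs2, hs3⟩ := (hM.2 (τ 0) (τ J) hτa hτ0J (hτle J (by omega))) C2 J rr htest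
      (τ 0) (τ J) le_rfl hτ0J le_rfl hrr0 hrrJ t ht
    have hN : (B + 1) * E.dd (rr t) (p s') ≤ (B + 1) * N C2 := Nat.mul_le_mul_left _ hs3
    rcases le_total s' (τ t) with h | h
    · have h1 := TreeD.Ret.time_le (D := D.toTreeD) hp (a := s') (k := τ t - s') (hret.mono (by omega) (by
        have := hτle t (by omega); omega)) (g := p s') (h := rr t) (Co.refl _) (by
        have e : s' + (τ t - s') = τ t := by omega
        rw [e]; exact hrrQ t ht)
      have h2 := hp.dd_le' h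
      rw [E.dd_comm] at h2
      have h3 := E.dd_tri (p (τ t)) (p s') (rr t)
      rw [E.dd_comm (p s') (rr t)] at h1 h3
      omega
    · have h1 := TreeD.Ret.time_le (D := D.toTreeD) hp (a := τ t) (k := s' - τ t) (hret.mono (by
          have := hτmono 0 t (by omega)
          rw [Nat.zero_add] at this
          omega) (by have := hτle J (by omega); omega)) (g := rr t) (h := p s') (hrrQ t ht) (by
        have e : τ t + (s' - τ t) = s' := by omega
        rw [e]; exact Co.refl _)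
      have h2 := hp.dd_le' h
      have h3 := E.dd_tri (p (τ t)) (p s') (rr t)
      rw [E.dd_comm (p s') (rr t)] at h3
      omega
  have hclosey : ∀ t, t ≤ J → E.dd (p (τ t)) (y t) ≤ R0 + c * c1 := by
    intro t ht
    have h1 := hclose t ht
    have h2 := hrry t ht
    have h3 := E.dd_tri (p (τ t)) (rr t) (y t)
    omega
  -- the middle part
  obtain ⟨r1, hr1⟩ : ∃ r1, r1 = (r0 + 1) / 2 := ⟨_, rfl⟩
  obtain ⟨r2, hr2⟩ : ∃ r2, r2 = (J + r0) / 2 := ⟨_, rfl⟩
  have hr12 : r1 ≤ r2 := by omega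
  have hr2J : r2 ≤ J := by omega
  have hmid : ∀ r, r1 ≤ r → r < r2 → (y r)⁻¹ * y (r + 1) =
      D.t ^ (u r : ℤ) * D.z ^ (s (r + 1)) := by
    intro r h1 h2
    rw [hstep r (by omega), hlrmid r (by omega) (by omega), hlrmid (r + 1) (by omega) (by omega),
      mul_inv_cancel, map_one, mul_one]
  have hmidη : ∀ d, r1 + d ≤ r2 → D.η (y (r1 + d)) = D.η (y r1) := by
    intro d
    induction d with
    | zero => intro _; rfl
    | succ d ih =>
      intro hd
      have h1 := hmid (r1 + d) (by omega) (by omega)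
      have h2 : y (r1 + d + 1) = y (r1 + d) * (D.t ^ (u (r1 + d) : ℤ) * D.z ^ (s (r1 + d + 1))) := by
        rw [← h1]; group
      have e : r1 + (d + 1) = r1 + d + 1 := rfl
      rw [e, h2, D.η_mul, D.η_mul, D.η_zpow, D.η_zpow, D.ηt, D.ηz, ih (by omega)]
      ring
  have hfin : r2 - r1 ≤ FGen.slB N K (1 + B) 2 (R0 + c * c1) := by
    have hτ12 : τ r1 ≤ τ r2 := by
      have := hτmono r1 (r2 - r1) (by omega)
      have e : r1 + (r2 - r1) = r2 := by omega
      rwa [e] at this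
    have hτr1 : a ≤ τ r1 := by
      have := hτmono 0 r1 (by omega)
      rw [Nat.zero_add] at this
      omega
    apply FGen.strip (E := E) (p := p) (a := τ r1) (b := τ r2)
      (F := fun i j => y (r1 + j) * D.e ^ i) hp hτ12
    · have := hM.1 (τ r1) (τ r2 - τ r1) hτr1 (by have := hτle r2 (by omega); omega)
      have e : τ r1 + (τ r2 - τ r1) = τ r2 := by omega
      rw [e] at this; omega
    · exact hM.2 (τ r1) (τ r2) hτr1 hτ12 (hτle r2 (by omega))
    · intro i j hj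
      rw [E.dd_eq]
      have h1 := hmid (r1 + j) (by omega) (by omega)
      have h2 : (y (r1 + j) * D.e ^ i)⁻¹ * (y (r1 + (j + 1)) * D.e ^ i) =
          (D.e ^ i)⁻¹ * (D.t ^ (u (r1 + j) : ℤ) * D.z ^ (s (r1 + j + 1))) * D.e ^ i := by
        rw [← h1]; simp only [← add_assoc]; group
      have c1' : Commute D.e D.t := D.et
      have c2' : Commute D.e D.z := D.zcomm _ (D.PQ D.eP)
      have c3 : Commute (D.e ^ i) (D.t ^ (u (r1 + j) : ℤ) * D.z ^ (s (r1 + j + 1))) :=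
        ((c1'.zpow_right _).mul_right (c2'.zpow_right _)).pow_left i
      rw [h2, mul_assoc, ← c3.eq, inv_mul_cancel_left]
      exact hlen1 (r1 + j) (by omega)
    · intro i
      have e : y (r1 + 0) * D.e ^ (i + 1) = y (r1 + 0) * D.e ^ i * D.e := by
        rw [pow_succ, mul_assoc]
      rw [e, E.dd_self_mul]
      have := E.len_gen (s := D.e) (Or.inl D.eS)
      omega
    · intro i
      have e : y (r1 + (r2 - r1)) * D.e ^ (i + 1) = y (r1 + (r2 - r1)) * D.e ^ i * D.e := by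
        rw [pow_succ, mul_assoc]
      rw [e, E.dd_self_mul]
      have := E.len_gen (s := D.e) (Or.inl D.eS)
      omega
    · intro i i' j j' hj hj'
      have hA : (i - i') + (i' - i) ≤ E.dd (y (r1 + j) * D.e ^ i) (y (r1 + j') * D.e ^ i') := by
        rw [E.dd_eq]
        have h6 := D.ηζ_le ((y (r1 + j) * D.e ^ i)⁻¹ * (y (r1 + j') * D.e ^ i'))
        have h7 : D.η ((y (r1 + j) * D.e ^ i)⁻¹ * (y (r1 + j') * D.e ^ i')) = (i' : ℤ) - i := by
          rw [D.η_mul, D.η_inv, D.η_mul, D.η_mul, D.η_pow, D.η_pow, D.ηe, hmidη j (by omega),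
            hmidη j' (by omega)]
          ring
        rw [h7] at h6
        omega
      have hB : ∀ j j' i i', j ≤ j' → j' ≤ r2 - r1 →
          j' - j ≤ E.dd (y (r1 + j) * D.e ^ i) (y (r1 + j') * D.e ^ i') := by
        intro j j' i i' h1 h2
        have h3 := (hs.sub (r := r1 + j) (k := j' - j) (by omega)).nb
        have h4 : ∀ r i, Co D.Q (p (τ r)) (y r * D.e ^ i) := by
          intro r i
          refine (hyQ r).trans ?_
          rw [Co, inv_mul_cancel_left]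
          exact pow_mem (D.PQ D.eP) i
        apply D.nb_le_dd h3 (h4 _ i)
        have e : r1 + j + (j' - j) = r1 + j' := by omega
        simp only [e]
        exact h4 _ i'
      rcases le_total j j' with h | h
      · have := hB j j' i i' h hj'
        omega
      · have := hB j' j i' i h hj
        rw [E.dd_comm] at this
        omega
    · rw [pow_zero, mul_one, Nat.add_zero]
      exact hclosey r1 (by omega)
    · have e : r1 + (r2 - r1) = r2 := by omega
      rw [pow_zero, mul_one, e]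
      exact hclosey r2 hr2J
  omega

end DataE

end Morse284
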