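import Pool.Agent.Morse284.Cayley

/-!
The Cayley graph as a metric space, Morse elements, and the set of translation lengths of Morse
elements.
-/

namespace Morse284

open Filter Topology NNReal

variable {G : Type} [Group G]

/-- The Cayley graph of `G` with respect to `E.S`, as a metric space (the points of `CayPt E`, with
the path metric, points at distance zero being identified). -/
abbrev Cay (E : FGen G) : Type := SeparationQuotient (CayPt E)

/-- the vertex `g` of the Cayley graph -/
noncomputable def Cay.vtx (E : FGen G) (g : G) : Cay E := SeparationQuotient.mk (CayPt.vtx g)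

/-- the restriction of `f` to `[0, l]` is a geodesic -/
def Geod {X : Type} [PseudoMetricSpace X] (f : ℝ → X) (l : ℝ) : Prop :=
  0 ≤ l ∧ ∀ s ∈ Set.Icc 0 l, ∀ t ∈ Set.Icc 0 l, dist (f s) (f t) = |s - t|

/-- `g` is a Morse element: for some gauge `M`, the subgroup generated by `g` is undistorted and
any two of its elements are joined by an `M`-Morse geodesic of the Cayley graph -/
def MorseElt (E : FGen G) (g : G) : Prop :=
  ∃ M : ℝ → ℝ → ℝ≥0,
    (∃ C : ℕ, ∀ n : ℤ, ∃ m : ℤ, g ^ m = g ^ n ∧ m.natAbs ≤ C * wl E.S (g ^ n)) ∧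
    ∀ x ∈ Subgroup.zpowers g, ∀ y ∈ Subgroup.zpowers g, ∃ (f : ℝ → Cay E) (l : ℝ),
      Geod f l ∧ f 0 = Cay.vtx E x ∧ f l = Cay.vtx E y ∧ MorseOn M f 0 l

/-- the set of translation lengths `lim |g ^ n| / n` of Morse elements -/
def TS (E : FGen G) : Set ℝ :=
  {τ | ∃ g : G, MorseElt E g ∧
    Tendsto (fun n : ℕ => (wl E.S (g ^ n) : ℝ) / n) atTop (𝓝 τ)}

end Morse284
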