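import Pool.Agent.Morse284.WordLen

/-!
The tree of an HNN extension, seen through non-backtracking sequences of cosets, and the
spines of discrete paths.
-/

namespace Morse284

variable {G : Type} [Group G]

/-- being in the same left coset of `Q` -/
def Co (Q : Subgroup G) (a b : G) : Prop := a⁻¹ * b ∈ Q

theorem Co.refl {Q : Subgroup G} (a : G) : Co Q a a := by
  rw [Co, inv_mul_cancel]; exact one_mem _

theorem Co.symm {Q : Subgroup G} {a b : G} (h : Co Q a b) : Co Q b a := by
  rw [Co] at *
  have := inv_mem h
  rwa [mul_inv_rev, inv_inv] at this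

theorem Co.trans {Q : Subgroup G} {a b c : G} (h : Co Q a b) (h' : Co Q b c) : Co Q a c := by
  rw [Co] at *
  have := mul_mem h h'
  have e : a⁻¹ * b * (b⁻¹ * c) = a⁻¹ * c := by group
  rwa [e] at this

theorem Co.mul_left {Q : Subgroup G} {a b : G} (g : G) (h : Co Q a b) : Co Q (g * a) (g * b) := by
  rw [Co] at *
  have e : (g * a)⁻¹ * (g * b) = a⁻¹ * b := by group
  rwa [e]

/-- adjacency in the Bass-Serre tree -/
def TAdj (Q : Subgroup G) (t : G) (a b : G) : Prop :=
  ∃ x ∈ Q, ∃ u : ℤˣ, Co Q (a * x * t ^ (u : ℤ)) b

theorem TAdj.congr {Q : Subgroup G} {t a b a' b' : G} (h : TAdj Q t a b) (ha : Co Q a a')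
    (hb : Co Q b b') : TAdj Q t a' b' := by
  obtain ⟨x, hx, u, hu⟩ := h
  refine ⟨a'⁻¹ * a * x, mul_mem ha.symm hx, u, ?_⟩
  have e : a' * (a'⁻¹ * a * x) * t ^ (u : ℤ) = a * x * t ^ (u : ℤ) := by group
  rw [e]
  exact hu.trans hb

theorem TAdj.symm {Q : Subgroup G} {t a b : G} (h : TAdj Q t a b) : TAdj Q t b a := by
  obtain ⟨x, hx, u, hu⟩ := h
  refine ⟨b⁻¹ * (a * x * t ^ (u : ℤ)), hu.symm, -u, ?_⟩
  have e : b * (b⁻¹ * (a * x * t ^ (u : ℤ))) * t ^ ((-u : ℤˣ) : ℤ) = a * x := by
    rw [Units.val_neg, zpow_neg]; group
  rw [e, Co, mul_inv_rev, mul_assoc, inv_mul_cancel, mul_one]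
  exact inv_mem hx

/-- non-backtracking sequences of cosets of length `l` -/
def NB (Q : Subgroup G) (t : G) (v : ℕ → G) (l : ℕ) : Prop :=
  (∀ r, r < l → TAdj Q t (v r) (v (r + 1))) ∧ ∀ r, r + 2 ≤ l → ¬ Co Q (v r) (v (r + 2))

/-- The data of an HNN extension with base `Q` and stable letter `t`, together with a finite
generating set. The field `br` is Britton's lemma. -/
structure TreeD (E : FGen G) where
  Q : Subgroup G
  t : G
  hS : ∀ s ∈ E.S, s ∈ Q ∨ s = t
  br : ∀ (v : ℕ → G) (l : ℕ), 0 < l → NB Q t v l → ¬ Co Q (v 0) (v l)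

namespace TreeD

variable {E : FGen G} (D : TreeD E)

theorem t_not_mem (u : ℤˣ) (g : G) : ¬ Co D.Q g (g * D.t ^ (u : ℤ)) := by
  have := D.br (fun r => if r = 0 then g else g * D.t ^ (u : ℤ)) 1 (by omega)
    ⟨by
      intro r hr
      have : r = 0 := by omega
      subst this
      refine ⟨1, one_mem _, u, ?_⟩
      simp only [if_true, mul_one]
      rw [if_neg (by omega)]
      exact Co.refl _, by intro r hr; omega⟩
  simpa using this

theorem unique : ∀ (l m : ℕ) (v w : ℕ → G), NB D.Q D.t v l → NB D.Q D.t w m →
    Co D.Q (v 0) (w 0) → Co D.Q (v l) (w m) → l = m ∧ ∀ r, r ≤ l → Co D.Q (v r) (w r) := by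
  intro l
  induction l with
  | zero =>
    intro m v w hv hw h0 h1
    have hm : m = 0 := by
      by_contra hm
      exact D.br w m (by omega) hw (h0.symm.trans h1)
    subst hm
    refine ⟨rfl, ?_⟩
    intro r hr
    have : r = 0 := by omega
    rw [this]; exact h0
  | succ l ih =>
    intro m v w hv hw h0 h1
    rcases Nat.eq_zero_or_pos m with hm | hm
    · exfalso
      subst hm
      exact D.br v (l + 1) (by omega) hv (h0.trans h1.symm)
    obtain ⟨m, rfl⟩ := Nat.exists_eq_succ_of_ne_zero hm.ne'
    by_cases h2 : Co D.Q (v 1) (w 1)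
    · have hv' : NB D.Q D.t (fun r => v (r + 1)) l :=
        ⟨fun r hr => hv.1 (r + 1) (by omega), fun r hr => hv.2 (r + 1) (by omega)⟩
      have hw' : NB D.Q D.t (fun r => w (r + 1)) m :=
        ⟨fun r hr => hw.1 (r + 1) (by omega), fun r hr => hw.2 (r + 1) (by omega)⟩
      obtain ⟨h3, h4⟩ := ih m _ _ hv' hw' h2 h1
      refine ⟨by omega, ?_⟩
      intro r hr
      rcases Nat.eq_zero_or_pos r with h | h
      · rw [h]; exact h0
      · obtain ⟨r, rfl⟩ := Nat.exists_eq_succ_of_ne_zero h.ne'
        exact h4 r (by omega)
    · exfalso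
      let z : ℕ → G := fun i => if i ≤ l + 1 then v (l + 1 - i) else w (i - (l + 1))
      have z1 : ∀ i, i ≤ l + 1 → z i = v (l + 1 - i) := fun i hi => by simp [z, hi]
      have z2 : ∀ i, l + 1 < i → z i = w (i - (l + 1)) := fun i hi => by
        simp [z, not_le.2 hi]
      have z3 : ∀ i, l + 1 ≤ i → Co D.Q (z i) (w (i - (l + 1))) := by
        intro i hi
        rcases Nat.lt_or_eq_of_le hi with h | h
        · rw [z2 i h]; exact Co.refl _
        · rw [z1 i (by omega), ← h, Nat.sub_self]; exact h0
      have hz : NB D.Q D.t z (l + 1 + (m + 1)) := by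
        constructor
        · intro r hr
          by_cases hr1 : r < l + 1
          · rw [z1 r (by omega), z1 (r + 1) (by omega)]
            have := (hv.1 (l - r) (by omega)).symm
            have e1 : l - r + 1 = l + 1 - r := by omega
            have e2 : l + 1 - (r + 1) = l - r := by omega
            rw [e1] at this
            rw [e2]; exact this
          · have := hw.1 (r - (l + 1)) (by omega)
            have e1 : r - (l + 1) + 1 = r + 1 - (l + 1) := by omega
            rw [e1] at this
            exact this.congr (z3 r (by omega)).symm (z3 (r + 1) (by omega)).symm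
        · intro r hr hco
          by_cases hr1 : r + 1 < l + 1
          · rw [z1 r (by omega), z1 (r + 2) (by omega)] at hco
            have := hv.2 (l + 1 - (r + 2)) (by omega)
            have e1 : l + 1 - (r + 2) + 2 = l + 1 - r := by omega
            rw [e1] at this
            exact this hco.symm
          · by_cases hr2 : r + 1 = l + 1
            · have e1 : r = l := by omega
              subst e1
              rw [z1 r (by omega), z2 (r + 2) (by omega)] at hco
              have e2 : r + 1 - r = 1 := by omega
              have e3 : r + 2 - (r + 1) = 1 := by omega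
              rw [e2, e3] at hco
              exact h2 hco
            · have := hw.2 (r - (l + 1)) (by omega)
              have e1 : r - (l + 1) + 2 = r + 2 - (l + 1) := by omega
              rw [e1] at this
              exact this (((z3 r (by omega)).symm.trans hco).trans (z3 (r + 2) (by omega)))
      apply D.br z _ (by omega) hz
      have e1 : z 0 = v (l + 1) := by rw [z1 0 (by omega)]; rfl
      have e2 := z3 (l + 1 + (m + 1)) (by omega)
      rw [Nat.add_sub_cancel_left] at e2
      rw [e1]
      exact h1.trans e2.symm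

theorem step_cases {g h : G} (H : E.dd g h ≤ 1) :
    Co D.Q g h ∨ ∃ u : ℤˣ, h = g * D.t ^ (u : ℤ) := by
  rcases eq_of_wl_le_one E.gen H with h1 | h1 | h1
  · left
    rw [Co, h1]; exact one_mem _
  · rcases D.hS _ h1 with h2 | h2
    · exact Or.inl h2
    · right
      refine ⟨1, ?_⟩
      rw [← h2]; simp
  · rcases D.hS _ h1 with h2 | h2
    · left
      have := inv_mem h2
      rwa [inv_inv] at this
    · right
      refine ⟨-1, ?_⟩
      rw [← h2]; simp

/-- the spine of a path between the times `a` and `b`, made of last visits to the cosets on the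
geodesic in the tree -/
structure Spine (p : ℕ → G) (a b : ℕ) (τ : ℕ → ℕ) (l : ℕ) : Prop where
  le : a ≤ τ 0
  last : τ l = b
  mono : ∀ r, r < l → τ r < τ (r + 1)
  co0 : Co D.Q (p a) (p (τ 0))
  step : ∀ r, r < l → ∃ u : ℤˣ, p (τ r + 1) = p (τ r) * D.t ^ (u : ℤ)
  co : ∀ r, r < l → Co D.Q (p (τ r + 1)) (p (τ (r + 1)))
  ret : ∀ r, r ≤ l → ∀ j, τ r < j → j ≤ b → ¬ Co D.Q (p (τ r)) (p j)

theorem exists_spine {p : ℕ → G} (hp : E.Unit1 p) : ∀ (k a b : ℕ), b = a + k →
    ∃ τ l, D.Spine p a b τ l := by
  intro k
  induction k using Nat.strong_induction_on with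
  | _ k ih =>
    intro a b hab
    classical
    -- the last visit to the coset of `p a`
    let P : ℕ → Prop := fun j => a ≤ j ∧ Co D.Q (p a) (p j)
    have hPa : P a := ⟨le_rfl, Co.refl _⟩
    set c := Nat.findGreatest P b with hc
    have hcP : P c := Nat.findGreatest_spec (P := P) (m := a) (by omega) hPa
    have hcb : c ≤ b := Nat.findGreatest_le b
    have hcm : ∀ j, c < j → j ≤ b → ¬ Co D.Q (p a) (p j) := by
      intro j h1 h2 h3
      exact Nat.findGreatest_is_greatest (P := P) h1 h2 ⟨by have := hcP.1; omega, h3⟩
    rcases Nat.lt_or_eq_of_le hcb with hlt | heq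
    · obtain ⟨τ, l, hs⟩ := ih (b - (c + 1)) (by have := hcP.1; omega) (c + 1) b (by omega)
      have hnot : ¬ Co D.Q (p c) (p (c + 1)) := fun h =>
        hcm (c + 1) (by omega) (by omega) (hcP.2.trans h)
      have hstep : ∃ u : ℤˣ, p (c + 1) = p c * D.t ^ (u : ℤ) := by
        rcases D.step_cases (hp c) with h | h
        · exact absurd h hnot
        · exact h
      refine ⟨fun r => if r = 0 then c else τ (r - 1), l + 1, ?_⟩
      constructor
      · simp only [if_true]; exact hcP.1
      · rw [if_neg (by omega), Nat.add_sub_cancel]; exact hs.last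
      · intro r hr
        rcases Nat.eq_zero_or_pos r with h | h
        · subst h
          simp only [if_true]
          rw [if_neg (by omega)]
          have := hs.le
          simp only [Nat.zero_add, Nat.sub_self]
          omega
        · obtain ⟨r, rfl⟩ := Nat.exists_eq_succ_of_ne_zero h.ne'
          rw [if_neg (by omega), if_neg (by omega)]
          exact hs.mono r (by omega)
      · simp only [if_true]; exact hcP.2
      · intro r hr
        rcases Nat.eq_zero_or_pos r with h | h
        · subst h
          simp only [if_true]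
          exact hstep
        · obtain ⟨r, rfl⟩ := Nat.exists_eq_succ_of_ne_zero h.ne'
          rw [if_neg (by omega)]
          exact hs.step r (by omega)
      · intro r hr
        rcases Nat.eq_zero_or_pos r with h | h
        · subst h
          simp only [if_true]
          rw [if_neg (by omega)]
          exact hs.co0
        · obtain ⟨r, rfl⟩ := Nat.exists_eq_succ_of_ne_zero h.ne'
          rw [if_neg (by omega), if_neg (by omega)]
          exact hs.co r (by omega)
      · intro r hr j hj1 hj2
        rcases Nat.eq_zero_or_pos r with h | h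
        · subst h
          simp only [if_true] at hj1 ⊢
          intro h3
          exact hcm j hj1 hj2 (hcP.2.trans h3)
        · obtain ⟨r, rfl⟩ := Nat.exists_eq_succ_of_ne_zero h.ne'
          rw [if_neg (by omega)] at hj1 ⊢
          exact hs.ret r (by omega) j hj1 hj2
    · refine ⟨fun _ => c, 0, ?_⟩
      constructor
      · exact hcP.1
      · exact heq
      · intro r hr; omega
      · exact hcP.2
      · intro r hr; omega
      · intro r hr; omega
      · intro r hr j h1 h2 h3
        exact hcm j h1 h2 (hcP.2.trans h3)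

variable {D}

theorem Spine.nb {p : ℕ → G} {a b : ℕ} {τ : ℕ → ℕ} {l : ℕ} (h : D.Spine p a b τ l) :
    NB D.Q D.t (fun r => p (τ r)) l := by
  have hle : ∀ k r, r + k = l → τ r ≤ b := by
    intro k
    induction k with
    | zero => intro r hr; rw [Nat.add_zero] at hr; rw [hr, h.last]
    | succ k ih =>
      intro r hr
      have := ih (r + 1) (by omega)
      have := h.mono r (by omega)
      omega
  constructor
  · intro r hr
    obtain ⟨u, hu⟩ := h.step r hr
    refine ⟨1, one_mem _, u, ?_⟩
    rw [mul_one, ← hu]
    exact h.co r hr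
  · intro r hr
    have h1 := h.mono r (by omega)
    have h2 := h.mono (r + 1) (by omega)
    exact h.ret r (by omega) (τ (r + 2)) (by
      have e : r + 2 = r + 1 + 1 := rfl
      rw [e]; omega) (hle (l - (r + 2)) (r + 2) (by omega))

theorem Spine.le_b {p : ℕ → G} {a b : ℕ} {τ : ℕ → ℕ} {l : ℕ} (h : D.Spine p a b τ l) :
    ∀ k r, r + k = l → τ r + k ≤ b := by
  intro k
  induction k with
  | zero => intro r hr; rw [Nat.add_zero] at hr; rw [hr, h.last]; omega
  | succ k ih =>
    intro r hr
    have := ih (r + 1) (by omega)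
    have := h.mono r (by omega)
    omega

theorem Spine.mono_le {p : ℕ → G} {a b : ℕ} {τ : ℕ → ℕ} {l : ℕ} (h : D.Spine p a b τ l) :
    ∀ k r, r + k ≤ l → τ r + k ≤ τ (r + k) := by
  intro k
  induction k with
  | zero => intro r hr; simp
  | succ k ih =>
    intro r hr
    have := ih r (by omega)
    have := h.mono (r + k) (by omega)
    have e : r + (k + 1) = r + k + 1 := rfl
    rw [e]; omega

theorem Spine.length_le {p : ℕ → G} {a b : ℕ} {τ : ℕ → ℕ} {l : ℕ} (h : D.Spine p a b τ l) :
    a + l ≤ b := by
  have := h.le_b l 0 (by omega)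
  have := h.le
  omega

/-- sub-spines -/
theorem Spine.sub {p : ℕ → G} {a b : ℕ} {τ : ℕ → ℕ} {l : ℕ} (h : D.Spine p a b τ l)
    {r k : ℕ} (hrk : r + k ≤ l) : D.Spine p (τ r) (τ (r + k)) (fun i => τ (r + i)) k := by
  have h3 := h.le_b (l - (r + k)) (r + k) (by omega)
  constructor
  · exact le_rfl
  · rfl
  · intro i hi; exact h.mono (r + i) (by omega)
  · exact Co.refl _
  · intro i hi; exact h.step (r + i) (by omega)
  · intro i hi; exact h.co (r + i) (by omega)
  · intro i hi j h1 h2
    exact h.ret (r + i) (by omega) j h1 (by omega)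

variable (D)

/-- the length of the geodesic in the tree is a lower bound for the word distance -/
theorem nb_le_dd {v : ℕ → G} {l : ℕ} (hv : NB D.Q D.t v l) {g h : G} (hg : Co D.Q (v 0) g)
    (hh : Co D.Q (v l) h) : l ≤ E.dd g h := by
  obtain ⟨α, h1, h2, h3⟩ := E.exists_path (g⁻¹ * h)
  have hu : E.Unit1 (fun i => g * α i) := by
    intro i
    rw [E.dd_mul_left]; exact h3 i
  obtain ⟨τ, l', hs⟩ := D.exists_spine hu (E.dd g h) 0 (E.dd g h) (by omega)
  have h4 := hs.length_le
  have e0 : g * α 0 = g := by rw [h1, mul_one]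
  have e1 : g * α (E.dd g h) = h := by rw [h2 (E.dd g h) (le_of_eq rfl)]; group
  have h5 : Co D.Q g (g * α (τ 0)) := by
    have := hs.co0
    rwa [e0] at this
  have h6 := D.unique l l' v _ hv hs.nb (hg.trans h5) (by
    have : τ l' = E.dd g h := hs.last
    simp only [this, e1]
    exact hh)
  omega

/-- returns to the same coset are bounded -/
def Ret (B : ℕ) (p : ℕ → G) (a b : ℕ) : Prop :=
  ∀ i k, a ≤ i → i + k ≤ b → Co D.Q (p i) (p (i + k)) → k ≤ B

/-- local bound on returns implies global bound on returns -/
theorem ret_global {p : ℕ → G} (hp : E.Unit1 p) {B L n : ℕ} (hL : 2 * B + 2 ≤ L)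
    (hloc : ∀ i k, i + k ≤ n → k ≤ L → Co D.Q (p i) (p (i + k)) → k ≤ B) : D.Ret B p 0 n := by
  have key : ∀ k i, i + k ≤ n → Co D.Q (p i) (p (i + k)) → k ≤ B := by
    intro k
    induction k using Nat.strong_induction_on with
    | _ k ih =>
      intro i hik hco
      by_contra hkB
      have hkL : L < k := by
        by_contra h
        exact hkB (hloc i k hik (by omega) hco)
      -- no return in the middle
      have hmid : ∀ j, i < j → j < i + k → ¬ Co D.Q (p i) (p j) := by
        intro j h1 h2 h3
        have h4 := ih (j - i) (by omega) i (by omega) (by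
          have e : i + (j - i) = j := by omega
          rw [e]; exact h3)
        have h5 := ih (i + k - j) (by omega) j (by omega) (by
          have e : j + (i + k - j) = i + k := by omega
          rw [e]; exact h3.symm.trans hco)
        omega
      have hstep : ∃ u : ℤˣ, p (i + 1) = p i * D.t ^ (u : ℤ) := by
        rcases D.step_cases (hp i) with h | h
        · exact absurd h (hmid (i + 1) (by omega) (by omega))
        · exact h
      obtain ⟨τ, l, hs⟩ := D.exists_spine hp (k - 1) (i + 1) (i + k) (by omega)
      have hs0 := hs.le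
      have hsl := hs.last
      rcases Nat.lt_or_ge l 2 with hl | hl
      · interval_cases l
        · -- `l = 0`
          have h1 := hs.co0
          rw [hsl] at h1
          exact hmid (i + 1) (by omega) (by omega) (hco.trans h1.symm)
        · -- `l = 1`
          have h1 := hs.co 0 (by omega)
          have h2 := hs.mono 0 (by omega)
          simp only [Nat.zero_add] at h1 h2
          rw [hsl] at h1 h2
          have h3 : τ 0 + 1 = i + k := by
            by_contra h
            exact hmid (τ 0 + 1) (by omega) (by omega) (hco.trans h1.symm)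
          have h4 := ih (k - 2) (by omega) (i + 1) (by omega) (by
            have e : i + 1 + (k - 2) = τ 0 := by omega
            rw [e]; exact hs.co0)
          omega
      · have hnb := hs.nb
        have hτ2 := hs.mono_le 2 0 (by omega)
        have hτ1 := hs.mono_le 1 0 (by omega)
        have hτ12 : τ 1 < τ 2 := hs.mono 1 (by omega)
        have hb2 := hs.le_b (l - 2) 2 (by omega)
        simp only [Nat.zero_add] at hτ1 hτ2
        apply D.br (fun r => if r = 0 then p i else p (τ (r - 1))) (l + 1) (by omega) ?_ ?_
        · constructor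
          · intro r hr
            rcases Nat.eq_zero_or_pos r with h | h
            · subst h
              obtain ⟨u, hu⟩ := hstep
              simp only [if_true]
              rw [if_neg (by omega)]
              refine ⟨1, one_mem _, u, ?_⟩
              rw [mul_one, ← hu]
              exact hs.co0
            · obtain ⟨r, rfl⟩ := Nat.exists_eq_succ_of_ne_zero h.ne'
              beta_reduce
              rw [if_neg (by omega), if_neg (by omega)]
              exact hnb.1 r (by omega)
          · intro r hr
            rcases Nat.eq_zero_or_pos r with h | h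
            · subst h
              simp only [if_true]
              rw [if_neg (by omega)]
              exact hmid (τ 1) (by omega) (by omega)
            · obtain ⟨r, rfl⟩ := Nat.exists_eq_succ_of_ne_zero h.ne'
              beta_reduce
              rw [if_neg (by omega), if_neg (by omega)]
              exact hnb.2 r (by omega)
        · simp only [if_true]
          rw [if_neg (by omega), Nat.add_sub_cancel, hsl]
          exact hco
  intro i k _ h2 h3
  exact key k i h2 h3

variable {D}

theorem Spine.step_le {p : ℕ → G} {a b : ℕ} {τ : ℕ → ℕ} {l B : ℕ} (h : D.Spine p a b τ l)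
    (hr : D.Ret B p a b) : ∀ r, r < l → τ (r + 1) ≤ τ r + (B + 1) := by
  intro r hrl
  have h1 := h.mono r hrl
  have h2 := h.mono_le r 0 (by omega)
  rw [Nat.zero_add] at h2
  have h3 := h.le
  have h4 := h.le_b (l - (r + 1)) (r + 1) (by omega)
  have := hr (τ r + 1) (τ (r + 1) - (τ r + 1)) (by omega) (by omega) (by
    have e : τ r + 1 + (τ (r + 1) - (τ r + 1)) = τ (r + 1) := by omega
    rw [e]; exact h.co r hrl)
  omega

theorem Spine.start_le {p : ℕ → G} {a b : ℕ} {τ : ℕ → ℕ} {l B : ℕ} (h : D.Spine p a b τ l)
    (hr : D.Ret B p a b) : τ 0 ≤ a + B := by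
  have h3 := h.le
  have h4 := h.le_b l 0 (by omega)
  have := hr a (τ 0 - a) le_rfl (by omega) (by
    have e : a + (τ 0 - a) = τ 0 := by omega
    rw [e]; exact h.co0)
  omega

theorem Spine.time_le {p : ℕ → G} {a b : ℕ} {τ : ℕ → ℕ} {l B : ℕ} (h : D.Spine p a b τ l)
    (hr : D.Ret B p a b) : ∀ k r, r + k ≤ l → τ (r + k) ≤ τ r + k * (B + 1) := by
  intro k
  induction k with
  | zero => intro r hrk; simp
  | succ k ih =>
    intro r hrk
    have h1 := ih r (by omega)
    have h2 := h.step_le hr (r + k) (by omega)
    have e : r + (k + 1) = r + k + 1 := rfl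
    rw [e, Nat.succ_mul]
    omega

theorem Ret.mono {B : ℕ} {p : ℕ → G} {a b a' b' : ℕ} (h : D.Ret B p a b) (ha : a ≤ a')
    (hb : b' ≤ b) : D.Ret B p a' b' :=
  fun i k h1 h2 => h i k (ha.trans h1) (h2.trans hb)

/-- with bounded returns, the time between two points is controlled by the distance, even after
moving inside the cosets -/
theorem Ret.time_le {B : ℕ} {p : ℕ → G} (hp : E.Unit1 p) {a k : ℕ} (hr : D.Ret B p a (a + k))
    {g h : G} (hg : Co D.Q (p a) g) (hh : Co D.Q (p (a + k)) h) :
    k ≤ (B + 1) * E.dd g h + B := by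
  obtain ⟨τ, l, hs⟩ := D.exists_spine hp k a (a + k) rfl
  have h1 := hs.start_le hr
  have h2 := hs.time_le hr l 0 (by omega)
  rw [Nat.zero_add, hs.last] at h2
  have h3 := D.nb_le_dd hs.nb (g := g) (h := h) (hs.co0.symm.trans hg) (by
    have : τ l = a + k := hs.last
    simp only [this]; exact hh)
  have h4 : l * (B + 1) ≤ (B + 1) * E.dd g h := by
    rw [Nat.mul_comm]; exact Nat.mul_le_mul_left _ h3
  omega

theorem Ret.qg {B : ℕ} {p : ℕ → G} (hp : E.Unit1 p) {a b : ℕ} (hr : D.Ret B p a b) :
    E.QG (B + 1) p a b := by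
  intro i k h1 h2
  have := Ret.time_le hp (hr.mono h1 h2) (Co.refl (p i)) (Co.refl (p (i + k)))
  omega

end TreeD

end Morse284
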