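import Mathlib

/-!
Word length of a group with respect to a finite generating set, discrete paths, and the basic
coarse notions (test paths, gauges) in the discrete setting.
-/

namespace Morse284

section WL

variable {G : Type} [Group G]

/-- all letters of the list are in `S` or have their inverse in `S` -/
def IsWord (S : Set G) (l : List G) : Prop := ∀ x ∈ l, x ∈ S ∨ x⁻¹ ∈ S

/-- word length with respect to `S` (only meaningful if `S` generates) -/
noncomputable def wl (S : Set G) (g : G) : ℕ :=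
  sInf {n | ∃ l : List G, l.length = n ∧ IsWord S l ∧ l.prod = g}

theorem wl_le {S : Set G} {l : List G} (h : IsWord S l) : wl S l.prod ≤ l.length :=
  Nat.sInf_le ⟨l, rfl, h, rfl⟩

theorem exists_isWord {S : Set G} (hS : Subgroup.closure S = ⊤) (g : G) :
    ∃ l : List G, IsWord S l ∧ l.prod = g := by
  have hg : g ∈ Subgroup.closure S := by rw [hS]; trivial
  induction hg using Subgroup.closure_induction with
  | mem x hx => exact ⟨[x], by intro y hy; rw [List.mem_singleton] at hy; rw [hy]; exact Or.inl hx,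
      by simp⟩
  | one => exact ⟨[], by intro y hy; simp at hy, rfl⟩
  | mul x y _ _ hx hy =>
    obtain ⟨l1, h1, rfl⟩ := hx
    obtain ⟨l2, h2, rfl⟩ := hy
    refine ⟨l1 ++ l2, ?_, by simp⟩
    intro z hz
    rcases List.mem_append.1 hz with h | h
    · exact h1 z h
    · exact h2 z h
  | inv x _ hx =>
    obtain ⟨l1, h1, rfl⟩ := hx
    refine ⟨(l1.map (·⁻¹)).reverse, ?_, by rw [List.prod_inv_reverse]⟩
    intro z hz
    rw [List.mem_reverse, List.mem_map] at hz
    obtain ⟨y, hy, rfl⟩ := hz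
    rw [inv_inv]
    exact (h1 y hy).symm

theorem wl_spec {S : Set G} (hS : Subgroup.closure S = ⊤) (g : G) :
    ∃ l : List G, l.length = wl S g ∧ IsWord S l ∧ l.prod = g := by
  obtain ⟨l, h1, h2⟩ := exists_isWord hS g
  exact Nat.sInf_mem (s := {n | ∃ l : List G, l.length = n ∧ IsWord S l ∧ l.prod = g})
    ⟨_, l, rfl, h1, h2⟩

theorem wl_one (S : Set G) : wl S (1 : G) = 0 := by
  have := wl_le (S := S) (l := []) (by intro y hy; simp at hy)
  simpa using this

theorem wl_mul_le {S : Set G} (hS : Subgroup.closure S = ⊤) (g h : G) :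
    wl S (g * h) ≤ wl S g + wl S h := by
  obtain ⟨l1, h1, h2, h3⟩ := wl_spec hS g
  obtain ⟨l2, k1, k2, k3⟩ := wl_spec hS h
  have := wl_le (S := S) (l := l1 ++ l2) (by
    intro z hz
    rcases List.mem_append.1 hz with h | h
    · exact h2 z h
    · exact k2 z h)
  rw [List.prod_append, List.length_append, h3, k3, h1, k1] at this
  exact this

theorem wl_inv_le {S : Set G} (hS : Subgroup.closure S = ⊤) (g : G) :
    wl S g⁻¹ ≤ wl S g := by
  obtain ⟨l1, h1, h2, h3⟩ := wl_spec hS g
  have := wl_le (S := S) (l := (l1.map (·⁻¹)).reverse) (by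
    intro z hz
    rw [List.mem_reverse, List.mem_map] at hz
    obtain ⟨y, hy, rfl⟩ := hz
    rw [inv_inv]
    exact (h2 y hy).symm)
  rw [← List.prod_inv_reverse, List.length_reverse, List.length_map, h3, h1] at this
  exact this

theorem wl_inv {S : Set G} (hS : Subgroup.closure S = ⊤) (g : G) :
    wl S g⁻¹ = wl S g := by
  apply le_antisymm (wl_inv_le hS g)
  have := wl_inv_le hS g⁻¹
  rwa [inv_inv] at this

theorem wl_eq_zero {S : Set G} (hS : Subgroup.closure S = ⊤) {g : G} (h : wl S g = 0) :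
    g = 1 := by
  obtain ⟨l1, h1, h2, h3⟩ := wl_spec hS g
  rw [h, List.length_eq_zero_iff] at h1
  rw [← h3, h1]; rfl

theorem wl_gen_le {S : Set G} {s : G} (h : s ∈ S ∨ s⁻¹ ∈ S) : wl S s ≤ 1 := by
  have := wl_le (S := S) (l := [s]) (by
    intro y hy; rw [List.mem_singleton] at hy; rw [hy]; exact h)
  simpa using this

theorem eq_of_wl_le_one {S : Set G} (hS : Subgroup.closure S = ⊤) {g : G} (h : wl S g ≤ 1) :
    g = 1 ∨ g ∈ S ∨ g⁻¹ ∈ S := by
  obtain ⟨l1, h1, h2, h3⟩ := wl_spec hS g
  rcases Nat.eq_zero_or_pos (wl S g) with h0 | h0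
  · exact Or.inl (wl_eq_zero hS h0)
  · have h4 : l1.length = 1 := by omega
    obtain ⟨x, rfl⟩ := List.length_eq_one_iff.1 h4
    right
    have := h2 x (by simp)
    simp at h3
    rwa [h3] at this

/-- lower bounds for the word length -/
theorem le_wl_of_lipschitz {S : Set G} (hS : Subgroup.closure S = ⊤) (f : G → ℕ) (h1 : f 1 = 0)
    (h2 : ∀ g s, (s ∈ S ∨ s⁻¹ ∈ S) → f (g * s) ≤ f g + 1) (g : G) : f g ≤ wl S g := by
  obtain ⟨l1, k1, k2, k3⟩ := wl_spec hS g
  rw [← k1, ← k3]
  clear k1 k3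
  induction l1 using List.reverseRecOn with
  | nil => simp [h1]
  | append_singleton l x ih =>
    rw [List.prod_append, List.length_append]
    have h3 := ih (fun y hy => k2 y (List.mem_append_left _ hy))
    have h4 := h2 l.prod x (k2 x (by simp))
    simp only [List.prod_cons, List.prod_nil, mul_one, List.length_cons, List.length_nil]
    omega

theorem finite_ball {S : Set G} (hS : Subgroup.closure S = ⊤) (hfin : S.Finite) (n : ℕ) :
    {g : G | wl S g ≤ n}.Finite := by
  induction n with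
  | zero =>
    apply (Set.finite_singleton (1 : G)).subset
    intro g hg
    exact wl_eq_zero hS (Nat.le_zero.1 hg)
  | succ n ih =>
    have hT : (insert (1 : G) (S ∪ S⁻¹)).Finite := (hfin.union hfin.inv).insert _
    apply ((ih.image2 (fun a b => a * b) hT)).subset
    intro g hg
    obtain ⟨l1, k1, k2, k3⟩ := wl_spec hS g
    rcases List.eq_nil_or_concat l1 with h | ⟨l, x, h⟩
    · refine ⟨1, ?_, 1, Set.mem_insert _ _, ?_⟩
      · simp [wl_one]
      · rw [h] at k3; simpa using k3
    · refine ⟨l.prod, ?_, x, ?_, ?_⟩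
      · have h5 := wl_le (S := S) (l := l) (fun y hy => k2 y (by rw [h]; simp [hy]))
        have h6 : l1.length = l.length + 1 := by rw [h]; simp
        have h7 : wl S g ≤ n + 1 := hg
        change wl S l.prod ≤ n
        omega
      · right
        have := k2 x (by rw [h]; simp)
        rcases this with h | h
        · exact Or.inl h
        · exact Or.inr h
      · rw [← k3, h]; simp

/-- there is a path of unit steps from `1` to `g`, constant after time `wl S g` -/
theorem exists_path {S : Set G} (hS : Subgroup.closure S = ⊤) (g : G) :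
    ∃ α : ℕ → G, α 0 = 1 ∧ (∀ n, wl S g ≤ n → α n = g) ∧ ∀ i, wl S ((α i)⁻¹ * α (i + 1)) ≤ 1 := by
  obtain ⟨l, k1, k2, k3⟩ := wl_spec hS g
  refine ⟨fun n => (l.take n).prod, by simp, ?_, ?_⟩
  · intro n hn
    simp only
    rw [List.take_of_length_le (by omega), k3]
  · intro i
    simp only
    by_cases hi : i < l.length
    · rw [List.take_succ_eq_append_getElem hi, List.prod_append]
      simp only [List.prod_cons, List.prod_nil, mul_one, inv_mul_cancel_left]
      exact wl_gen_le (k2 _ (List.getElem_mem _))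
    · rw [List.take_of_length_le (by omega), List.take_of_length_le (by omega)]
      rw [inv_mul_cancel, wl_one]; omega

end WL

/-- A group with a finite generating set. -/
structure FGen (G : Type) [Group G] where
  S : Set G
  fin : S.Finite
  gen : Subgroup.closure S = ⊤

namespace FGen

variable {G : Type} [Group G] (E : FGen G)

/-- word length -/
noncomputable def len (g : G) : ℕ := wl E.S g

/-- word distance -/
noncomputable def dd (g h : G) : ℕ := wl E.S (g⁻¹ * h)

theorem len_one : E.len 1 = 0 := wl_one _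

theorem len_mul (g h : G) : E.len (g * h) ≤ E.len g + E.len h := wl_mul_le E.gen g h

theorem len_inv (g : G) : E.len g⁻¹ = E.len g := wl_inv E.gen g

theorem dd_eq (g h : G) : E.dd g h = E.len (g⁻¹ * h) := rfl

theorem dd_self (g : G) : E.dd g g = 0 := by rw [dd_eq, inv_mul_cancel, len_one]

theorem dd_comm (g h : G) : E.dd g h = E.dd h g := by
  rw [dd_eq, dd_eq, ← len_inv]; congr 1; group

theorem dd_tri (g h k : G) : E.dd g k ≤ E.dd g h + E.dd h k := by
  rw [dd_eq, dd_eq, dd_eq]
  have : g⁻¹ * k = (g⁻¹ * h) * (h⁻¹ * k) := by group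
  rw [this]; exact E.len_mul _ _

theorem dd_mul_left (x g h : G) : E.dd (x * g) (x * h) = E.dd g h := by
  rw [dd_eq, dd_eq]; congr 1; group

theorem dd_self_mul (g x : G) : E.dd g (g * x) = E.len x := by
  rw [dd_eq]; congr 1; group

theorem dd_one_left (x : G) : E.dd 1 x = E.len x := by
  rw [dd_eq]; congr 1; group

theorem eq_of_dd (g h : G) (H : E.dd g h = 0) : g = h := by
  have := wl_eq_zero E.gen H
  rw [inv_mul_eq_one] at this
  exact this

theorem finite_len (n : ℕ) : {g : G | E.len g ≤ n}.Finite := finite_ball E.gen E.fin n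

theorem le_len (f : G → ℕ) (h1 : f 1 = 0)
    (h2 : ∀ g s, (s ∈ E.S ∨ s⁻¹ ∈ E.S) → f (g * s) ≤ f g + 1) (g : G) : f g ≤ E.len g :=
  le_wl_of_lipschitz E.gen f h1 h2 g

theorem len_gen {s : G} (h : s ∈ E.S ∨ s⁻¹ ∈ E.S) : E.len s ≤ 1 := wl_gen_le h

theorem exists_path (g : G) : ∃ α : ℕ → G, α 0 = 1 ∧ (∀ n, E.len g ≤ n → α n = g) ∧
    ∀ i, E.dd (α i) (α (i + 1)) ≤ 1 := Morse284.exists_path E.gen g

/-- unit step paths -/
def Unit1 (p : ℕ → G) : Prop := ∀ i, E.dd (p i) (p (i + 1)) ≤ 1

variable {E}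

theorem steps_le {p : ℕ → G} {c a : ℕ} : ∀ k : ℕ, (∀ i, a ≤ i → i < a + k →
    E.dd (p i) (p (i + 1)) ≤ c) → E.dd (p a) (p (a + k)) ≤ c * k := by
  intro k
  induction k with
  | zero => intro _; rw [Nat.add_zero, E.dd_self]; simp
  | succ k ih =>
    intro h
    have h1 := ih (fun i h1 h2 => h i h1 (by omega))
    have h2 := h (a + k) (by omega) (by omega)
    have h3 := E.dd_tri (p a) (p (a + k)) (p (a + k + 1))
    have : a + (k + 1) = a + k + 1 := by ring
    rw [this]
    calc _ ≤ _ := h3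
      _ ≤ c * k + c := by omega
      _ = c * (k + 1) := by ring

theorem Unit1.dd_le {p : ℕ → G} (hp : E.Unit1 p) (a k : ℕ) : E.dd (p a) (p (a + k)) ≤ k := by
  have := steps_le (E := E) (p := p) (c := 1) (a := a) k (fun i _ _ => hp i)
  omega

theorem Unit1.dd_le' {p : ℕ → G} (hp : E.Unit1 p) {a b : ℕ} (h : a ≤ b) :
    E.dd (p a) (p b) ≤ b - a := by
  have := hp.dd_le a (b - a)
  rwa [Nat.add_sub_cancel' h] at this

/-- interpolation of a path with bounded jumps by a path with unit steps -/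
theorem exists_interp (E : FGen G) {r : ℕ → G} {D : ℕ} (hD : 0 < D)
    (hr : ∀ i, E.dd (r i) (r (i + 1)) ≤ D) :
    ∃ η : ℕ → G, E.Unit1 η ∧ (∀ i, η (D * i) = r i) ∧
      (∀ k, E.dd (r (k / D)) (η k) ≤ k % D) := by
  choose α h1 h2 h3 using E.exists_path
  let η : ℕ → G := fun k => r (k / D) * α ((r (k / D))⁻¹ * r (k / D + 1)) (k % D)
  have hη : ∀ i j, j ≤ D → η (D * i + j) = r i * α ((r i)⁻¹ * r (i + 1)) j := by
    intro i j hj
    rcases Nat.lt_or_eq_of_le hj with h | h
    · have e1 : (D * i + j) / D = i := by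
        rw [Nat.mul_add_div hD, Nat.div_eq_of_lt h]; simp
      have e2 : (D * i + j) % D = j := by
        rw [Nat.mul_add_mod, Nat.mod_eq_of_lt h]
      simp only [η, e1, e2]
    · subst h
      have e1 : (j * i + j) / j = i + 1 := by
        rw [← Nat.mul_succ, Nat.mul_div_cancel_left _ hD]
      have e2 : (j * i + j) % j = 0 := by
        rw [← Nat.mul_succ, Nat.mul_mod_right]
      simp only [η, e1, e2, h1]
      rw [h2 _ _ (hr i)]
      group
  refine ⟨η, ?_, ?_, ?_⟩
  · intro k
    have e : k = D * (k / D) + k % D := (Nat.div_add_mod k D).symm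
    have hlt := Nat.mod_lt k hD
    have e1 : η k = r (k / D) * α ((r (k / D))⁻¹ * r (k / D + 1)) (k % D) := rfl
    have e2 : η (k + 1) = r (k / D) * α ((r (k / D))⁻¹ * r (k / D + 1)) (k % D + 1) := by
      rw [← hη _ _ (by omega)]
      congr 1
      omega
    rw [e1, e2, E.dd_mul_left]
    exact h3 _ _
  · intro i
    have := hη i 0 (by omega)
    rw [Nat.add_zero] at this
    rw [this, h1, mul_one]
  · intro k
    have e1 : η k = r (k / D) * α ((r (k / D))⁻¹ * r (k / D + 1)) (k % D) := rfl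
    rw [e1, E.dd_self_mul, ← E.dd_one_left, ← h1 ((r (k / D))⁻¹ * r (k / D + 1))]
    have := Unit1.dd_le (E := E) (p := α ((r (k / D))⁻¹ * r (k / D + 1)))
      (fun i => h3 _ i) 0 (k % D)
    rwa [Nat.zero_add] at this

/-- a discrete quasi-geodesic, used as a test path -/
def Test (E : FGen G) (K m : ℕ) (r : ℕ → G) : Prop :=
  ∀ i k, i + k ≤ m → E.dd (r i) (r (i + k)) ≤ K * k + K ∧ k ≤ K * E.dd (r i) (r (i + k)) + K

/-- lower quasi-geodesic bound on the window `[a, b]` -/
def QG (E : FGen G) (K : ℕ) (p : ℕ → G) (a b : ℕ) : Prop :=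
  ∀ i k, a ≤ i → i + k ≤ b → k ≤ K * E.dd (p i) (p (i + k)) + K

/-- discrete Morse property on the window `[a, b]` -/
def Mor (E : FGen G) (N : ℕ → ℕ) (p : ℕ → G) (a b : ℕ) : Prop :=
  ∀ K m r, E.Test K m r → ∀ i j, a ≤ i → i ≤ j → j ≤ b → r 0 = p i → r m = p j →
    ∀ t, t ≤ m → ∃ s, a ≤ s ∧ s ≤ b ∧ E.dd (r t) (p s) ≤ N K

theorem QG.mono {K : ℕ} {p : ℕ → G} {a b a' b' : ℕ} (h : E.QG K p a b) (ha : a ≤ a')
    (hb : b' ≤ b) : E.QG K p a' b' :=
  fun i k h1 h2 => h i k (ha.trans h1) (h2.trans hb)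

/-- constant in the strip lemma -/
def slK (K c K₁ R : ℕ) : ℕ :=
  c + 2 * R + (2 * (K₁ * (K * c + 1)) + 1) * K₁ + (2 * (K₁ * (K * c + 1)) + 1) * K₁ * (2 * R)

/-- bound in the strip lemma -/
def slB (N : ℕ → ℕ) (K c K₁ R : ℕ) : ℕ := R + 2 * K * R + K + N (slK K c K₁ R)

/-- The strip lemma: a Morse quasi-geodesic cannot run along the side of a long flat strip. -/
theorem strip {N : ℕ → ℕ} {K c K₁ R m a b : ℕ} {p : ℕ → G} {F : ℕ → ℕ → G} (hp : E.Unit1 p)
    (hab : a ≤ b) (hq : b ≤ a + (K * E.dd (p a) (p b) + K)) (hM : E.Mor N p a b)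
    (hF1 : ∀ i j, j < m → E.dd (F i j) (F i (j + 1)) ≤ c)
    (hF2 : ∀ i, E.dd (F i 0) (F (i + 1) 0) ≤ c)
    (hF3 : ∀ i, E.dd (F i m) (F (i + 1) m) ≤ c)
    (hF4 : ∀ i i' j j', j ≤ m → j' ≤ m → (i - i') + (i' - i) + (j - j') + (j' - j) ≤
      K₁ * E.dd (F i j) (F i' j'))
    (hR1 : E.dd (p a) (F 0 0) ≤ R) (hR2 : E.dd (p b) (F 0 m) ≤ R) : m ≤ slB N K c K₁ R := by
  rcases Nat.eq_zero_or_pos m with hm0 | hm0
  · rw [hm0]; exact Nat.zero_le _
  have hK1 : 1 ≤ K₁ := by
    rcases Nat.eq_zero_or_pos K₁ with h | h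
    · exfalso
      have := hF4 0 1 0 0 (by omega) (by omega)
      rw [h] at this; omega
    · exact h
  obtain ⟨T, hT⟩ : ∃ T, T = K₁ * (K * c + 1) := ⟨_, rfl⟩
  have hT1 : 1 ≤ T := by rw [hT]; exact Nat.mul_pos hK1 (by omega)
  obtain ⟨t, ht⟩ : ∃ t, t = T * m := ⟨_, rfl⟩
  have ht1 : 1 ≤ t := by rw [ht]; exact Nat.mul_pos hT1 hm0
  obtain ⟨K₂, hK2⟩ : ∃ K₂, K₂ = (2 * T + 1) * K₁ := ⟨_, rfl⟩
  let f : ℕ → G := fun x => if x ≤ t then F x 0 else if x ≤ t + m then F t (x - t) else
    F (2 * t + m - x) m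
  have hf1 : ∀ x, x ≤ t → f x = F x 0 := fun x hx => by simp [f, hx]
  have hf2 : ∀ x, t ≤ x → x ≤ t + m → f x = F t (x - t) := by
    intro x h1 h2
    by_cases h : x ≤ t
    · have : x = t := le_antisymm h h1
      rw [hf1 x h, this]; simp
    · simp [f, h, h2]
  have hf3 : ∀ x, t + m ≤ x → f x = F (2 * t + m - x) m := by
    intro x h1
    by_cases h : x ≤ t + m
    · have : x = t + m := le_antisymm h h1
      rw [hf2 x (by omega) h, this]
      congr 1 <;> omega
    · have h' : ¬ x ≤ t := by omega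
      simp [f, h, h']
  have hfs : ∀ x, x < 2 * t + m → E.dd (f x) (f (x + 1)) ≤ c := by
    intro x hx
    by_cases h1 : x < t
    · rw [hf1 x (by omega), hf1 (x + 1) (by omega)]
      exact hF2 x
    · by_cases h2 : x < t + m
      · rw [hf2 x (by omega) (by omega), hf2 (x + 1) (by omega) (by omega)]
        have := hF1 t (x - t) (by omega)
        have e : x + 1 - t = x - t + 1 := by omega
        rw [e]; exact this
      · rw [hf3 x (by omega), hf3 (x + 1) (by omega)]
        have := hF3 (2 * t + m - (x + 1))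
        have e : 2 * t + m - (x + 1) + 1 = 2 * t + m - x := by omega
        rw [e, E.dd_comm] at this; exact this
  have hfu : ∀ x k, x + k ≤ 2 * t + m → E.dd (f x) (f (x + k)) ≤ c * k := by
    intro x k hk
    exact steps_le k (fun i h1 h2 => hfs i (by omega))
  have hfl : ∀ x k, x + k ≤ 2 * t + m → k ≤ K₂ * E.dd (f x) (f (x + k)) := by
    intro x k hk
    have hK12 : K₁ ≤ K₂ := by rw [hK2]; nlinarith
    have key : ∀ A : ℕ, k ≤ K₁ * A → k ≤ K₂ * A := fun A hA =>
      hA.trans (Nat.mul_le_mul_right _ hK12)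
    by_cases h1 : x ≤ t
    · by_cases h2 : x + k ≤ t
      · apply key
        rw [hf1 x h1, hf1 (x + k) h2]
        have := hF4 x (x + k) 0 0 (by omega) (by omega)
        omega
      · by_cases h3 : x + k ≤ t + m
        · apply key
          rw [hf1 x h1, hf2 (x + k) (by omega) h3]
          have := hF4 x t 0 (x + k - t) (by omega) (by omega)
          omega
        · rw [hf1 x h1, hf3 (x + k) (by omega)]
          have h4 := hF4 x (2 * t + m - (x + k)) 0 m (by omega) (by omega)
          have h5 : m ≤ K₁ * E.dd (F x 0) (F (2 * t + m - (x + k)) m) := by omega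
          have h6 : k ≤ (2 * T + 1) * m := by
            have : (2 * T + 1) * m = 2 * t + m := by rw [ht]; ring
            omega
          calc k ≤ (2 * T + 1) * m := h6
            _ ≤ (2 * T + 1) * (K₁ * E.dd (F x 0) (F (2 * t + m - (x + k)) m)) :=
              Nat.mul_le_mul_left _ h5
            _ = _ := by rw [hK2]; ring
    · apply key
      by_cases h2 : x ≤ t + m
      · by_cases h3 : x + k ≤ t + m
        · rw [hf2 x (by omega) h2, hf2 (x + k) (by omega) h3]
          have := hF4 t t (x - t) (x + k - t) (by omega) (by omega)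
          omega
        · rw [hf2 x (by omega) h2, hf3 (x + k) (by omega)]
          have := hF4 t (2 * t + m - (x + k)) (x - t) m (by omega) (by omega)
          omega
      · rw [hf3 x (by omega), hf3 (x + k) (by omega)]
        have := hF4 (2 * t + m - x) (2 * t + m - (x + k)) m m (by omega) (by omega)
        omega
  -- the test path
  let r : ℕ → G := fun x => if x = 0 then p a else if x < 2 * t + m then f x else p b
  have hrf : ∀ x, x ≤ 2 * t + m → E.dd (r x) (f x) ≤ R := by
    intro x hx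
    by_cases h1 : x = 0
    · have : r x = p a := by simp [r, h1]
      rw [this, h1, hf1 0 (by omega)]; exact hR1
    · by_cases h2 : x < 2 * t + m
      · have : r x = f x := by simp [r, h1, h2]
        rw [this, E.dd_self]; omega
      · have h3 : x = 2 * t + m := by omega
        have : r x = p b := by simp [r, h1, h2]
        rw [this, h3, hf3 _ (by omega), Nat.sub_self]; exact hR2
  have htest : E.Test (slK K c K₁ R) (2 * t + m) r := by
    intro i k hk
    have h1 := hfu i k hk
    have h2 := hfl i k hk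
    have h3 := hrf i (by omega)
    have h4 := hrf (i + k) hk
    have h5 := E.dd_tri (r i) (f i) (r (i + k))
    have h6 := E.dd_tri (f i) (f (i + k)) (r (i + k))
    have h7 := E.dd_tri (f i) (r i) (f (i + k))
    have h8 := E.dd_tri (r i) (r (i + k)) (f (i + k))
    rw [E.dd_comm (f (i + k)) (r (i + k))] at h6
    rw [E.dd_comm (f i) (r i)] at h7
    have hs : slK K c K₁ R = c + 2 * R + K₂ + K₂ * (2 * R) := by rw [slK, hK2, hT]
    rw [hs]
    constructor
    · have : E.dd (r i) (r (i + k)) ≤ c * k + 2 * R := by omega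
      nlinarith [Nat.zero_le (K₂ * k), Nat.zero_le (R * k), Nat.zero_le (K₂ * (2 * R) * k),
        Nat.zero_le (K₂ * (2 * R))]
    · have h9 : E.dd (f i) (f (i + k)) ≤ E.dd (r i) (r (i + k)) + 2 * R := by omega
      have h10 : k ≤ K₂ * (E.dd (r i) (r (i + k)) + 2 * R) := h2.trans (Nat.mul_le_mul_left _ h9)
      nlinarith [Nat.zero_le (c * E.dd (r i) (r (i + k))), Nat.zero_le (R * E.dd (r i) (r (i + k))),
        Nat.zero_le (K₂ * (2 * R) * E.dd (r i) (r (i + k)))]
  have hr0 : r 0 = p a := by simp [r]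
  have hrm : r (2 * t + m) = p b := by
    have : ¬ (2 * t + m = 0) := by omega
    simp only [r, if_neg this, lt_irrefl, if_false]
  obtain ⟨s, hs1, hs2, hs3⟩ := hM (slK K c K₁ R) (2 * t + m) r htest a b le_rfl hab le_rfl
    hr0 hrm t (by omega)
  have hrt : r t = F t 0 := by
    have h1 : t ≠ 0 := by omega
    have h2 : t < 2 * t + m := by omega
    have : r t = f t := by simp [r, h1, h2]
    rw [this, hf1 t le_rfl]
  rw [hrt] at hs3
  have g1 := hF4 t 0 0 0 (by omega) (by omega)
  have g2 := E.dd_tri (F t 0) (p s) (F 0 0)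
  have g3 := E.dd_tri (p s) (p a) (F 0 0)
  have g4 := hp.dd_le' hs1
  rw [E.dd_comm (p a) (p s)] at g4
  have g5 : E.dd (F 0 0) (F 0 m) ≤ c * m := by
    have := steps_le (E := E) (p := fun j => F 0 j) (c := c) (a := 0) m
      (fun i _ h2 => hF1 0 i (by omega))
    simpa using this
  have g6 := E.dd_tri (p a) (F 0 0) (p b)
  have g7 := E.dd_tri (F 0 0) (F 0 m) (p b)
  rw [E.dd_comm (F 0 m) (p b)] at g7
  have g8 : E.dd (p a) (p b) ≤ 2 * R + c * m := by omega
  have g9 : K * E.dd (p a) (p b) ≤ K * (2 * R + c * m) := Nat.mul_le_mul_left _ g8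
  have g10 : E.dd (F t 0) (F 0 0) ≤ N (slK K c K₁ R) + (K * (2 * R + c * m) + K) + R := by omega
  have g11 : K₁ * ((K * c + 1) * m) ≤
      K₁ * (N (slK K c K₁ R) + (K * (2 * R + c * m) + K) + R) := by
    calc K₁ * ((K * c + 1) * m) = t := by rw [ht, hT]; ring
      _ ≤ K₁ * E.dd (F t 0) (F 0 0) := by omega
      _ ≤ _ := Nat.mul_le_mul_left _ g10
  have g12 := Nat.le_of_mul_le_mul_left g11 hK1
  rw [slB]
  nlinarith

end FGen

end Morse284
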